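import Mathlib
import Pool.Agent.Lib_helper9.LG.EDn

set_option autoImplicit false

/-!
The choice of the parameters and the numerical facts for large `L`, uniformly.
-/

namespace Pool.Agent.UNI

open Pool.Agent.Lib_helper9.LG
open Finset Filter

noncomputable section

/-- The range of `η`. -/
theorem eta_facts {η L : ℝ} (hη : 0 < η) (hη1 : η ≤ 1) (hL : 1 ≤ L) (h8 : 1 ≤ η ^ 8 * L) :
    1 / η ≤ Real.sqrt L ∧ Real.sqrt L ≤ η ^ 2 * L ∧ Real.sqrt L ≤ η * L ∧ η ^ 2 * L ≤ η * L := by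
  have hL0 : 0 < L := by linarith
  have hs0 : 0 < Real.sqrt L := Real.sqrt_pos.2 hL0
  have hss : Real.sqrt L * Real.sqrt L = L := Real.mul_self_sqrt hL0.le
  -- `1 ≤ η ^ 4 sqrt L`
  have h4 : 1 ≤ η ^ 4 * Real.sqrt L := by
    by_contra hcon
    push Not at hcon
    have h1 : 0 ≤ η ^ 4 * Real.sqrt L := by positivity
    have h2 : (η ^ 4 * Real.sqrt L) * (η ^ 4 * Real.sqrt L) < 1 := by nlinarith
    have h3 : (η ^ 4 * Real.sqrt L) * (η ^ 4 * Real.sqrt L) = η ^ 8 * (Real.sqrt L * Real.sqrt L) := by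
      ring
    rw [h3, hss] at h2
    linarith
  have h41 : η ^ 4 ≤ η := by
    calc η ^ 4 ≤ η ^ 1 := pow_le_pow_of_le_one hη.le hη1 (by norm_num)
      _ = η := pow_one η
  have h42 : η ^ 4 ≤ η ^ 2 := pow_le_pow_of_le_one hη.le hη1 (by norm_num)
  have h21 : η ^ 2 ≤ η := by
    calc η ^ 2 ≤ η ^ 1 := pow_le_pow_of_le_one hη.le hη1 (by norm_num)
      _ = η := pow_one η
  have e1 : 1 ≤ η * Real.sqrt L := h4.trans (mul_le_mul_of_nonneg_right h41 hs0.le)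
  have e2 : 1 ≤ η ^ 2 * Real.sqrt L := h4.trans (mul_le_mul_of_nonneg_right h42 hs0.le)
  refine ⟨?_, ?_, ?_, ?_⟩
  · rw [div_le_iff₀ hη]
    linarith
  · calc Real.sqrt L = 1 * Real.sqrt L := (one_mul _).symm
      _ ≤ η ^ 2 * Real.sqrt L * Real.sqrt L := mul_le_mul_of_nonneg_right e2 hs0.le
      _ = η ^ 2 * L := by rw [mul_assoc, hss]
  · calc Real.sqrt L = 1 * Real.sqrt L := (one_mul _).symm
      _ ≤ η * Real.sqrt L * Real.sqrt L := mul_le_mul_of_nonneg_right e1 hs0.le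
      _ = η * L := by rw [mul_assoc, hss]
  · exact mul_le_mul_of_nonneg_right h21 hL0.le

/-- `log L` is small. -/
theorem log_small : ∃ L₀ : ℝ, ∀ L : ℝ, L₀ ≤ L → 10000 ≤ L ∧ 26 * Real.log L ≤ Real.sqrt L := by
  have h1 := Real.isLittleO_log_id_atTop
  have h2 := h1.def (c := 1 / 52) (by norm_num)
  have h3 : ∀ᶠ x : ℝ in atTop, Real.log x ≤ x / 52 := by
    filter_upwards [h2, eventually_ge_atTop (1 : ℝ)] with x hx hx1
    rw [Real.norm_eq_abs, abs_of_nonneg (Real.log_nonneg hx1), id, Real.norm_eq_abs,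
      abs_of_nonneg (by linarith)] at hx
    linarith
  have h4 : ∀ᶠ L : ℝ in atTop, Real.log (Real.sqrt L) ≤ Real.sqrt L / 52 :=
    Real.tendsto_sqrt_atTop.eventually h3
  obtain ⟨L₀, hL₀⟩ := (h4.and (eventually_ge_atTop (10000 : ℝ))).exists_forall_of_atTop
  refine ⟨L₀, fun L hL => ?_⟩
  obtain ⟨g1, g2⟩ := hL₀ L hL
  rw [Real.log_sqrt (by linarith)] at g1
  exact ⟨g2, by linarith⟩

/-- Facts for large `L`, uniform. -/
theorem largeU {L η D : ℝ} {J : ℕ} (hL : 10000 ≤ L) (hlog : 26 * Real.log L ≤ Real.sqrt L)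
    (hη : 0 < η) (hη1 : η ≤ 1) (h8 : 1 ≤ η ^ 8 * L) (hJ : (J : ℝ) * η ≤ 1) (hD : D ≤ L ^ 2) :
    200 ≤ L ∧ 16 * (J : ℝ) + 16 ≤ L ∧ L ^ 4 ≤ Real.exp (η * L) ∧
    2 * ((J : ℝ) + 1) * (L ^ 2 + 1) * Real.exp (-(η * L)) ≤ 1 ∧
    D * Real.exp (-(η * L)) ≤ 1 ∧
    144 * (L ^ 2 + 2) * Real.exp (-(1 / 2 * L)) ≤ 1 ∧
    64 * J * (L ^ 2 + 2) * (L ^ 2 + 1) * L ^ (3 * J) * Real.exp (-(η * L)) ≤ 1 ∧
    2 * (L ^ 2 + 2) ^ (4 * J) * Real.exp (-(1 / 2 * L)) ≤ 1 := by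
  have hL0 : 0 < L := by linarith
  have hL1 : 1 ≤ L := by linarith
  obtain ⟨a1, a2, a3, a4⟩ := eta_facts hη hη1 hL1 h8
  have hs : 100 ≤ Real.sqrt L := Real.le_sqrt_of_sq_le (by linarith)
  have hss : Real.sqrt L * Real.sqrt L = L := Real.mul_self_sqrt hL0.le
  have hlogL : 0 ≤ Real.log L := Real.log_nonneg hL1
  have hJ0 : (0 : ℝ) ≤ J := Nat.cast_nonneg J
  have hJs : (J : ℝ) ≤ Real.sqrt L := by
    have h1 : (J : ℝ) ≤ 1 / η := by rwa [le_div_iff₀ hη]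
    exact h1.trans a1
  have hJL : 16 * (J : ℝ) + 16 ≤ L := by nlinarith
  have hexp : ∀ n : ℕ, (n : ℝ) * Real.log L ≤ η * L → L ^ n ≤ Real.exp (η * L) := by
    intro n hn
    calc L ^ n = Real.exp ((n : ℝ) * Real.log L) := by rw [Real.exp_nat_mul, Real.exp_log hL0]
      _ ≤ _ := Real.exp_le_exp.2 hn
  have hexp2 : ∀ n : ℕ, (n : ℝ) * Real.log L ≤ 1 / 2 * L → L ^ n ≤ Real.exp (1 / 2 * L) := by
    intro n hn
    calc L ^ n = Real.exp ((n : ℝ) * Real.log L) := by rw [Real.exp_nat_mul, Real.exp_log hL0]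
      _ ≤ _ := Real.exp_le_exp.2 hn
  have h8L : L ^ 8 ≤ Real.exp (η * L) := by
    apply hexp
    push_cast
    linarith
  have hJexp : L ^ (3 * J + 8) ≤ Real.exp (η * L) := by
    apply hexp
    push_cast
    have h1 : (3 * (J : ℝ) + 8) * η ≤ 11 := by nlinarith
    have h2 : (3 * (J : ℝ) + 8) * Real.log L * η ≤ 11 * Real.log L := by
      calc (3 * (J : ℝ) + 8) * Real.log L * η = ((3 * (J : ℝ) + 8) * η) * Real.log L := by ring
        _ ≤ _ := mul_le_mul_of_nonneg_right h1 hlogL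
    have h3 : (3 * (J : ℝ) + 8) * Real.log L * η ≤ (η * L) * η := by
      refine h2.trans ?_
      have h4 : 11 * Real.log L ≤ Real.sqrt L := by linarith
      refine h4.trans (a2.trans (le_of_eq ?_))
      ring
    exact le_of_mul_le_mul_right h3 hη
  have hJexp2 : L ^ (12 * J + 1) ≤ Real.exp (1 / 2 * L) := by
    apply hexp2
    push_cast
    have h1 : (12 * (J : ℝ) + 1) * η ≤ 13 := by nlinarith
    have h2 : (12 * (J : ℝ) + 1) * Real.log L * η ≤ 13 * Real.log L := by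
      calc (12 * (J : ℝ) + 1) * Real.log L * η = ((12 * (J : ℝ) + 1) * η) * Real.log L := by ring
        _ ≤ _ := mul_le_mul_of_nonneg_right h1 hlogL
    have h3 : (12 * (J : ℝ) + 1) * Real.log L * η ≤ (1 / 2 * L) * η := by
      refine h2.trans ?_
      have h4 : 13 * Real.log L ≤ 1 / 2 * Real.sqrt L := by linarith
      refine h4.trans ?_
      have h5 : 1 / 2 * L * η = 1 / 2 * (η * L) := by ring
      rw [h5]
      linarith
    exact le_of_mul_le_mul_right h3 hη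
  have hkey : ∀ a x : ℝ, a ≤ Real.exp x → a * Real.exp (-x) ≤ 1 := by
    intro a x h
    rw [Real.exp_neg, ← div_eq_mul_inv, div_le_one (Real.exp_pos _)]
    exact h
  have hL2 : 1 ≤ L ^ 2 := one_le_pow₀ hL1
  have p23 : L ^ 2 + 2 ≤ L ^ 3 := by nlinarith
  have p2 : L ^ 2 + 1 ≤ L ^ 3 := by linarith
  have pw : ∀ i j : ℕ, i ≤ j → L ^ i ≤ L ^ j := fun i j h => pow_le_pow_right₀ hL1 h
  refine ⟨by linarith, hJL, (pw 4 8 (by norm_num)).trans h8L, ?_, ?_, ?_, ?_, ?_⟩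
  · apply hkey
    refine le_trans ?_ h8L
    have h1 : 2 * ((J : ℝ) + 1) ≤ L := by linarith
    calc 2 * ((J : ℝ) + 1) * (L ^ 2 + 1) ≤ L * L ^ 3 :=
          mul_le_mul h1 p2 (by positivity) hL0.le
      _ = L ^ 4 := by ring
      _ ≤ L ^ 8 := pw 4 8 (by norm_num)
  · apply hkey
    exact hD.trans ((pw 2 8 (by norm_num)).trans h8L)
  · apply hkey
    have h1 : L ^ 4 ≤ Real.exp (1 / 2 * L) := by
      apply hexp2
      push_cast
      have h4 : Real.sqrt L ≤ L := by nlinarith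
      linarith
    refine le_trans ?_ h1
    calc 144 * (L ^ 2 + 2) ≤ L * L ^ 3 :=
          mul_le_mul (by linarith) p23 (by positivity) hL0.le
      _ = L ^ 4 := by ring
  · apply hkey
    refine le_trans ?_ hJexp
    have h1 : 64 * (J : ℝ) ≤ L ^ 2 := by nlinarith
    have h2 : 64 * (J : ℝ) * (L ^ 2 + 2) ≤ L ^ 2 * L ^ 3 :=
      mul_le_mul h1 p23 (by positivity) (by positivity)
    have h3 : 64 * (J : ℝ) * (L ^ 2 + 2) * (L ^ 2 + 1) ≤ L ^ 2 * L ^ 3 * L ^ 3 :=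
      mul_le_mul h2 p2 (by positivity) (by positivity)
    calc 64 * (J : ℝ) * (L ^ 2 + 2) * (L ^ 2 + 1) * L ^ (3 * J) ≤ L ^ 2 * L ^ 3 * L ^ 3 * L ^ (3 * J) :=
          mul_le_mul_of_nonneg_right h3 (by positivity)
      _ = L ^ (3 * J + 8) := by rw [← pow_add, ← pow_add, ← pow_add]; congr 1; ring
  · apply hkey
    refine le_trans ?_ hJexp2
    have h1 : (L ^ 2 + 2) ^ (4 * J) ≤ L ^ (12 * J) := by
      calc (L ^ 2 + 2) ^ (4 * J) ≤ (L ^ 3) ^ (4 * J) := pow_le_pow_left₀ (by positivity) p23 _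
        _ = L ^ (12 * J) := by rw [← pow_mul]; congr 1; ring
    calc 2 * (L ^ 2 + 2) ^ (4 * J) ≤ L * L ^ (12 * J) :=
          mul_le_mul (by linarith) h1 (by positivity) hL0.le
      _ = L ^ (12 * J + 1) := by ring

/-- The choice of the parameters, uniform. -/
theorem paramsU {c e : ℝ} (hc : 0 < c) (he : 0 < e) :
    ∃ κ : ℝ, 1 ≤ κ ∧ ∀ C₀ : ℝ, 1 ≤ C₀ → ∃ (η lamb : ℝ) (I : ℕ), Real.exp (-(κ * C₀)) ≤ η ∧ η ≤ e ∧
      1 ≤ lamb ∧ 2 ^ I * (η * lamb) ≤ e ∧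
      8 * C₀ / e + 1 ≤ c * I - 1 ∧ Real.exp (1 - 3 / 4 * lamb) ≤ η / (64 * C₀) ∧ 1 ≤ I := by
  -- `I ≤ k₁ C₀`
  obtain ⟨k₁, hk₁⟩ : ∃ k₁ : ℝ, k₁ = (8 / e + 2) / c + 2 := ⟨_, rfl⟩
  have hk₁0 : 0 < k₁ := by rw [hk₁]; positivity
  -- the choice of `k₂`
  have hlim : Tendsto (fun x : ℝ => (x + k₁ + 8) * Real.exp (-x)) atTop (nhds 0) := by
    have h1 : Tendsto (fun x : ℝ => x ^ 1 * Real.exp (-x)) atTop (nhds 0) :=
      Real.tendsto_pow_mul_exp_neg_atTop_nhds_zero 1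
    have h2 : Tendsto (fun x : ℝ => (k₁ + 8) * Real.exp (-x)) atTop (nhds ((k₁ + 8) * 0)) :=
      (Real.tendsto_exp_neg_atTop_nhds_zero).const_mul _
    have h3 := h1.add h2
    simp only [pow_one, mul_zero, add_zero] at h3
    refine h3.congr fun x => ?_
    ring
  have hev : ∀ᶠ x : ℝ in atTop, (x + k₁ + 8) * Real.exp (-x) ≤ e / 64 :=
    hlim.eventually_le_const (by positivity)
  obtain ⟨k₂, hk₂, hk₂1⟩ := (hev.and (eventually_ge_atTop (1 : ℝ))).exists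
  obtain ⟨κ, hκ⟩ : ∃ κ : ℝ, κ = k₁ + (k₂ + 1) := ⟨_, rfl⟩
  refine ⟨κ, by linarith, fun C₀ hC₀ => ?_⟩
  have hC₀0 : 0 < C₀ := by linarith
  obtain ⟨η, hη⟩ : ∃ η : ℝ, η = Real.exp (-(κ * C₀)) := ⟨_, rfl⟩
  have hη0 : 0 < η := by rw [hη]; exact Real.exp_pos _
  have hlogη : Real.log η = -(κ * C₀) := by rw [hη, Real.log_exp]
  obtain ⟨u, hu⟩ : ∃ u : ℝ, u = η / (64 * C₀) := ⟨_, rfl⟩
  have hu0 : 0 < u := by rw [hu]; positivity
  have hlogu : Real.log u = -(κ * C₀) - Real.log (64 * C₀) := by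
    rw [hu, Real.log_div hη0.ne' (by positivity), hlogη]
  have hl64 : 0 ≤ Real.log (64 * C₀) := Real.log_nonneg (by linarith)
  have hl64' : Real.log (64 * C₀) ≤ 6 * C₀ := by
    rw [Real.log_mul (by norm_num) hC₀0.ne']
    have h1 : Real.log 64 ≤ 5 := by
      rw [show (64 : ℝ) = 2 ^ 6 by norm_num, Real.log_pow]
      have := Real.log_two_lt_d9
      push_cast
      linarith
    have h2 : Real.log C₀ ≤ C₀ - 1 := Real.log_le_sub_one_of_pos hC₀0
    linarith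
  have hκ0 : 0 < κ := by linarith
  obtain ⟨lamb, hlamb⟩ : ∃ lamb : ℝ, lamb = 4 / 3 * (1 - Real.log u) := ⟨_, rfl⟩
  have hlamb1 : 1 ≤ lamb := by
    rw [hlamb, hlogu]
    have : 0 < κ * C₀ := by positivity
    linarith
  have hlamb2 : lamb ≤ 2 * ((κ + 7) * C₀) := by
    rw [hlamb, hlogu]
    nlinarith
  obtain ⟨I, hI⟩ : ∃ I : ℕ, I = ⌈(8 * C₀ / e + 2) / c⌉₊ + 1 := ⟨_, rfl⟩
  have hI1 : 1 ≤ I := by omega
  have hI2 : 8 * C₀ / e + 2 ≤ c * I := by
    have h1 := Nat.le_ceil ((8 * C₀ / e + 2) / c)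
    rw [div_le_iff₀ hc] at h1
    rw [hI]
    push_cast
    nlinarith
  have hI3 : (I : ℝ) ≤ k₁ * C₀ := by
    have h1 : (⌈(8 * C₀ / e + 2) / c⌉₊ : ℝ) < (8 * C₀ / e + 2) / c + 1 :=
      Nat.ceil_lt_add_one (by positivity)
    have h2 : (8 * C₀ / e + 2) / c ≤ (8 / e + 2) / c * C₀ := by
      rw [div_mul_eq_mul_div]
      apply div_le_div_of_nonneg_right _ hc.le
      have h3 : (8 / e + 2) * C₀ = 8 * C₀ / e + 2 * C₀ := by ring
      rw [h3]
      linarith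
    rw [hI]
    push_cast
    rw [hk₁]
    nlinarith
  have h2I : (2 : ℝ) ^ I ≤ Real.exp (k₁ * C₀) := by
    have h1 : (2 : ℝ) ^ I ≤ Real.exp 1 ^ I := by
      apply pow_le_pow_left₀ (by norm_num)
      have := Real.add_one_le_exp (1 : ℝ)
      linarith
    refine h1.trans ?_
    rw [← Real.exp_nat_mul, mul_one]
    exact Real.exp_le_exp.2 hI3
  -- the main estimate
  have hmain : 2 ^ I * (η * lamb) ≤ e := by
    have h1 : 2 ^ I * (η * lamb) ≤ Real.exp (k₁ * C₀) * (η * (2 * ((κ + 7) * C₀))) := by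
      apply mul_le_mul h2I _ (by positivity) (Real.exp_nonneg _)
      exact mul_le_mul_of_nonneg_left hlamb2 hη0.le
    refine h1.trans ?_
    have h2 : Real.exp (k₁ * C₀) * (η * (2 * ((κ + 7) * C₀))) =
        (2 * (κ + 7)) * (C₀ * Real.exp (-C₀)) * Real.exp (-(k₂ * C₀)) := by
      have h3 : η = Real.exp (-(k₁ * C₀)) * Real.exp (-C₀) * Real.exp (-(k₂ * C₀)) := by
        rw [hη, ← Real.exp_add, ← Real.exp_add]
        congr 1
        rw [hκ]
        ring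
      rw [h3]
      have h4 : Real.exp (k₁ * C₀) * Real.exp (-(k₁ * C₀)) = 1 := by
        rw [← Real.exp_add]
        simp
      calc _ = (Real.exp (k₁ * C₀) * Real.exp (-(k₁ * C₀))) *
            ((2 * (κ + 7)) * (C₀ * Real.exp (-C₀)) * Real.exp (-(k₂ * C₀))) := by ring
        _ = _ := by rw [h4, one_mul]
    rw [h2]
    have h3 : C₀ * Real.exp (-C₀) ≤ 1 := by
      rw [Real.exp_neg, ← div_eq_mul_inv, div_le_one (Real.exp_pos _)]
      have := Real.add_one_le_exp C₀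
      linarith
    have h4 : Real.exp (-(k₂ * C₀)) ≤ Real.exp (-k₂) := by
      apply Real.exp_le_exp.2
      nlinarith
    have h5 : (2 * (κ + 7)) * (C₀ * Real.exp (-C₀)) ≤ 2 * (κ + 7) := by
      have h6 : 0 ≤ 2 * (κ + 7) := by linarith
      nlinarith
    calc (2 * (κ + 7)) * (C₀ * Real.exp (-C₀)) * Real.exp (-(k₂ * C₀)) ≤
          (2 * (κ + 7)) * Real.exp (-k₂) := by
          apply mul_le_mul h5 h4 (Real.exp_nonneg _) (by linarith)
      _ = 2 * ((k₂ + k₁ + 8) * Real.exp (-k₂)) := by rw [hκ]; ring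
      _ ≤ 2 * (e / 64) := by linarith
      _ ≤ e := by linarith
  have hηe : η ≤ e := by
    refine le_trans ?_ hmain
    have h1 : (1 : ℝ) ≤ 2 ^ I := one_le_pow₀ (by norm_num)
    have h2 : η ≤ η * lamb := le_mul_of_one_le_right hη0.le hlamb1
    have h3 : 0 ≤ η * lamb := by positivity
    exact h2.trans (le_mul_of_one_le_left h3 h1)
  refine ⟨η, lamb, I, hη.ge, hηe, hlamb1, hmain, by linarith, ?_, hI1⟩
  have h7 : 1 - 3 / 4 * lamb = Real.log u := by rw [hlamb]; ring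
  rw [h7, Real.exp_log hu0, hu]

end

end Pool.Agent.UNI
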