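import Mathlib
import Pool.Agent.Lib_helper92.BlockSieve.Mertens

set_option autoImplicit false

/-!
# Elementary lemmas 1 (from the files AP, AS of helper72)
-/

namespace Pool.Agent.UNI

open Finset Filter BlockSieve

noncomputable section

lemma tendsto_log_nat : Tendsto (fun N : ℕ => Real.log N) atTop atTop :=
  Real.tendsto_log_atTop.comp tendsto_natCast_atTop_atTop

lemma ev_real (K : ℝ) (k : ℕ) : ∀ᶠ x : ℝ in atTop, K * (Real.log x) ^ k ≤ x := by
  have h1 : Tendsto (fun x : ℝ => (Real.log x) ^ k / x) atTop (nhds 0) :=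
    (Real.isLittleO_pow_log_id_atTop (n := k)).tendsto_div_nhds_zero
  have h3 : ∀ᶠ x : ℝ in atTop, (Real.log x) ^ k / x < 1 / (|K| + 1) :=
    h1.eventually (gt_mem_nhds (by positivity))
  filter_upwards [h3, eventually_ge_atTop 4] with x hx hx4
  have hlog : 0 < Real.log x := Real.log_pos (by linarith)
  have hK : K ≤ |K| + 1 := by linarith [le_abs_self K]
  rw [div_lt_div_iff₀ (by linarith) (by positivity), one_mul] at hx
  calc K * (Real.log x) ^ k ≤ (|K| + 1) * (Real.log x) ^ k := by gcongr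
    _ = (Real.log x) ^ k * (|K| + 1) := by ring
    _ ≤ x := hx.le

lemma le_card_divisors_mul_totient {n : ℕ} (hn : 0 < n) : n ≤ n.divisors.card * n.totient := by
  conv_lhs => rw [← Nat.sum_totient n]
  rw [← smul_eq_mul, ← Finset.sum_const]
  apply Finset.sum_le_sum
  intro d hd
  exact Nat.le_of_dvd (Nat.totient_pos.2 hn) (Nat.totient_dvd_of_dvd (Nat.dvd_of_mem_divisors hd))

lemma sum_inv_sq_le_two (n : ℕ) : ∑ a ∈ Icc 1 n, (1 : ℝ) / (a : ℝ) ^ 2 ≤ 2 := by
  rcases Nat.eq_zero_or_pos n with rfl | hn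
  · simp
  have h1 := sum_Ioc_inv_sq_le_sub (α := ℝ) (k := 1) (n := n) one_ne_zero hn
  have h2 : Icc 1 n = insert 1 (Ioc 1 n) := by
    ext x
    rw [mem_insert, mem_Icc, mem_Ioc]
    omega
  rw [h2, Finset.sum_insert (by simp)]
  have h3 : ∑ a ∈ Ioc 1 n, (1 : ℝ) / (a : ℝ) ^ 2 = ∑ a ∈ Ioc 1 n, ((a : ℝ) ^ 2)⁻¹ := by
    apply Finset.sum_congr rfl
    intro a _
    rw [one_div]
  rw [h3]
  have h4 : (0 : ℝ) ≤ (n : ℝ)⁻¹ := by positivity
  norm_num at h1 ⊢
  linarith

lemma sum_divisors_div_sq_le (n : ℕ) :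
    ∑ e ∈ Icc 1 n, (e.divisors.card : ℝ) / (e : ℝ) ^ 2 ≤ 4 := by
  classical
  have h1 : ∀ e ∈ Icc 1 n, (e.divisors.card : ℝ) / (e : ℝ) ^ 2 =
      ∑ x ∈ (Icc 1 n ×ˢ Icc 1 n).filter (fun x => x.1 * x.2 = e),
        (1 / (x.1 : ℝ) ^ 2) * (1 / (x.2 : ℝ) ^ 2) := by
    intro e he
    rw [mem_Icc] at he
    have h2 : ∀ x ∈ (Icc 1 n ×ˢ Icc 1 n).filter (fun x => x.1 * x.2 = e),
        (1 / (x.1 : ℝ) ^ 2) * (1 / (x.2 : ℝ) ^ 2) = 1 / (e : ℝ) ^ 2 := by
      intro x hx
      rw [mem_filter] at hx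
      rw [← hx.2]
      push_cast
      rw [mul_pow, one_div_mul_one_div]
    rw [Finset.sum_congr rfl h2, Finset.sum_const, nsmul_eq_mul]
    have h3 : ((Icc 1 n ×ˢ Icc 1 n).filter (fun x => x.1 * x.2 = e)).card = e.divisors.card := by
      apply Finset.card_bij (fun x _ => x.1)
      · intro x hx
        rw [mem_filter] at hx
        rw [Nat.mem_divisors]
        exact ⟨⟨x.2, hx.2.symm⟩, by omega⟩
      · intro x hx y hy hxy
        rw [mem_filter, mem_product, mem_Icc, mem_Icc] at hx hy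
        have h4 : x.1 * x.2 = x.1 * y.2 := by
          rw [hx.2, hxy, hy.2]
        have h5 := Nat.eq_of_mul_eq_mul_left (by omega) h4
        exact Prod.ext hxy h5
      · intro a ha
        rw [Nat.mem_divisors] at ha
        obtain ⟨⟨b, hb⟩, he0⟩ := ha
        have ha0 : 0 < a := by
          rcases Nat.eq_zero_or_pos a with h | h
          · rw [h, zero_mul] at hb
            omega
          · exact h
        have hb0 : 0 < b := by
          rcases Nat.eq_zero_or_pos b with h | h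
          · rw [h, mul_zero] at hb
            omega
          · exact h
        have ha1 : a ≤ e := by rw [hb]; exact Nat.le_mul_of_pos_right a hb0
        have hb1 : b ≤ e := by rw [hb]; exact Nat.le_mul_of_pos_left b ha0
        refine ⟨(a, b), ?_, rfl⟩
        rw [mem_filter, mem_product, mem_Icc, mem_Icc]
        exact ⟨⟨⟨ha0, ha1.trans he.2⟩, ⟨hb0, hb1.trans he.2⟩⟩, hb.symm⟩
    rw [h3]
    ring
  rw [Finset.sum_congr rfl h1]
  have h2 : ∑ e ∈ Icc 1 n, ∑ x ∈ (Icc 1 n ×ˢ Icc 1 n).filter (fun x => x.1 * x.2 = e),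
        (1 / (x.1 : ℝ) ^ 2) * (1 / (x.2 : ℝ) ^ 2) ≤
      ∑ x ∈ Icc 1 n ×ˢ Icc 1 n, (1 / (x.1 : ℝ) ^ 2) * (1 / (x.2 : ℝ) ^ 2) := by
    rw [← Finset.sum_biUnion]
    · apply Finset.sum_le_sum_of_subset_of_nonneg
      · intro x hx
        rw [mem_biUnion] at hx
        obtain ⟨e, _, hx⟩ := hx
        exact (mem_filter.1 hx).1
      · intro x _ _
        positivity
    · intro a _ b _ hab
      rw [Function.onFun, Finset.disjoint_left]
      intro x hx hx'
      rw [mem_filter] at hx hx'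
      exact hab (hx.2.symm.trans hx'.2)
  refine h2.trans ?_
  rw [Finset.sum_product]
  simp only []
  rw [← Finset.sum_mul_sum]
  have h3 := sum_inv_sq_le_two n
  have h4 : 0 ≤ ∑ a ∈ Icc 1 n, (1 : ℝ) / (a : ℝ) ^ 2 := Finset.sum_nonneg fun _ _ => by positivity
  nlinarith

/-- `n ↦ n ^ (-s)` as a multiplicative map. -/
def rp (s : ℝ) : ℕ →* ℝ where
  toFun n := (n : ℝ) ^ (-s)
  map_one' := by simp
  map_mul' a b := by
    push_cast
    exact Real.mul_rpow (Nat.cast_nonneg _) (Nat.cast_nonneg _)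

lemma rp_apply (s : ℝ) (n : ℕ) : rp s n = (n : ℝ) ^ (-s) := rfl

lemma rp_nonneg (s : ℝ) (n : ℕ) : 0 ≤ rp s n := by
  rw [rp_apply]
  positivity

lemma rp_lt_one {s : ℝ} (hs : 0 < s) {p : ℕ} (hp : p.Prime) : rp s p < 1 := by
  rw [rp_apply]
  apply Real.rpow_lt_one_of_one_lt_of_neg
  · exact_mod_cast hp.one_lt
  · linarith

lemma primesBelow_succ_eq (z : ℕ) : (z + 1).primesBelow = pr z := by
  ext p
  rw [Nat.mem_primesBelow, mem_pr]
  constructor
  · rintro ⟨h1, h2⟩
    exact ⟨h2, by omega⟩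
  · rintro ⟨h1, h2⟩
    exact ⟨by omega, h1⟩

/-- Sum over a finite set of smooth numbers. -/
lemma smooth_sum_le {s : ℝ} (hs : 0 < s) (z : ℕ) (S : Finset ℕ)
    (hS : ∀ n ∈ S, n ∈ Nat.smoothNumbers (z + 1)) :
    ∑ n ∈ S, (n : ℝ) ^ (-s) ≤ ∏ p ∈ pr z, (1 - (p : ℝ) ^ (-s))⁻¹ := by
  have h := EulerProduct.summable_and_hasSum_smoothNumbers_prod_primesBelow_geometric
    (f := rp s) (fun {p} hp => by
      rw [Real.norm_of_nonneg (rp_nonneg _ _)]
      exact rp_lt_one hs hp) (z + 1)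
  rw [primesBelow_succ_eq] at h
  have h2 := h.2
  have h3 : ∑ n ∈ S.subtype (fun n => n ∈ Nat.smoothNumbers (z + 1)), rp s n ≤
      ∏ p ∈ pr z, (1 - rp s p)⁻¹ := by
    apply sum_le_hasSum _ _ h2
    intro i _
    exact rp_nonneg _ _
  have h4 : ∑ n ∈ S.subtype (fun n => n ∈ Nat.smoothNumbers (z + 1)), rp s n =
      ∑ n ∈ S, rp s n := by
    rw [Finset.sum_subtype_of_mem (fun n => rp s n) hS]
  rw [h4] at h3
  exact h3

/-- Mertens product, lower bound. -/
lemma log_le_prod (z : ℕ) : Real.log ((z : ℝ) + 1) ≤ ∏ p ∈ pr z, (1 - (1 : ℝ) / p)⁻¹ := by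
  have h := smooth_sum_le (s := 1) one_pos z (Icc 1 z) (by
    intro n hn
    rw [mem_Icc] at hn
    rw [Nat.mem_smoothNumbers']
    intro p _ hd
    have := Nat.le_of_dvd (by omega) hd
    omega)
  have e1 : ∀ n : ℕ, (n : ℝ) ^ (-(1 : ℝ)) = 1 / (n : ℝ) := by
    intro n
    rw [Real.rpow_neg_one, one_div]
  simp only [e1] at h
  refine le_trans ?_ h
  have h2 := log_add_one_le_harmonic z
  rw [harmonic_eq_sum_Icc] at h2
  push_cast at h2
  simp only [one_div]
  exact h2

/-- The sum of `n ^ (-3/2)`. -/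
def zth : ℝ := ∑' n : ℕ, ((n : ℝ) ^ (3 / 2 : ℝ))⁻¹

lemma sum_pr_le_zth (z : ℕ) : ∑ p ∈ pr z, ((p : ℝ) ^ (3 / 2 : ℝ))⁻¹ ≤ zth := by
  unfold zth
  apply Summable.sum_le_tsum
  · intro i _
    positivity
  · exact Real.summable_nat_rpow_inv.2 (by norm_num)

lemma inv_one_sub_le {x : ℝ} (h0 : 0 ≤ x) (h1 : x ≤ 3 / 5) :
    (1 - x)⁻¹ ≤ Real.exp (x + 5 / 2 * x ^ 2) := by
  have h2 : 0 < 1 - x := by linarith
  have e1 : (1 - x)⁻¹ = x / (1 - x) + 1 := by
    field_simp
    ring
  rw [e1]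
  refine (Real.add_one_le_exp _).trans ?_
  apply Real.exp_le_exp.2
  rw [div_le_iff₀ h2]
  nlinarith [mul_nonneg h0 h0, mul_nonneg (mul_nonneg h0 h0) (show 0 ≤ 3 / 5 - x by linarith)]

lemma two_rpow_le : (2 : ℝ) ^ (-(3 / 4) : ℝ) ≤ 3 / 5 := by
  rw [Real.rpow_neg (by norm_num), inv_le_comm₀ (by positivity) (by norm_num)]
  have h1 : ((5 / 3 : ℝ)) ^ (4 : ℝ) ≤ ((2 : ℝ) ^ (3 / 4 : ℝ)) ^ (4 : ℝ) := by
    rw [← Real.rpow_mul (by norm_num)]
    norm_num
  have h2 : (0 : ℝ) ≤ (2 : ℝ) ^ (3 / 4 : ℝ) := by positivity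
  have h3 := (Real.rpow_le_rpow_iff (by norm_num) h2 (by norm_num : (0 : ℝ) < 4)).1 h1
  norm_num at h3 ⊢
  exact h3

/-- Euler factor bound for a prime. -/
lemma factor_le {L u : ℝ} {p z : ℕ} (hp : p ∈ pr z) (hz : Real.log z ≤ L) (hL : 0 < L)
    (hu : 1 ≤ u) (huL : Real.log u ≤ L / 4) :
    (1 - (p : ℝ) ^ (-(1 - Real.log u / L)))⁻¹ ≤
      Real.exp (1 / p + (u - 1) / L * (Real.log p / p) + 5 / 2 * ((p : ℝ) ^ (3 / 2 : ℝ))⁻¹) := by
  have hpp := (mem_pr.1 hp).1
  have hpz := (mem_pr.1 hp).2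
  have hp2 : (2 : ℝ) ≤ p := by exact_mod_cast hpp.two_le
  have hp0 : (0 : ℝ) < p := by linarith
  have hlogu : 0 ≤ Real.log u := Real.log_nonneg hu
  have hlogp : 0 ≤ Real.log p := Real.log_nonneg (by linarith)
  have hlogpz : Real.log p ≤ L :=
    (Real.log_le_log hp0 (by exact_mod_cast hpz)).trans hz
  set θ := Real.log u / L with hθ
  have hθ0 : 0 ≤ θ := by positivity
  have hθ1 : θ ≤ 1 / 4 := by
    rw [hθ, div_le_iff₀ hL]
    linarith
  -- the size of `x`
  set x := (p : ℝ) ^ (-(1 - θ)) with hx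
  have hx0 : 0 ≤ x := by positivity
  have hx34 : x ≤ (p : ℝ) ^ (-(3 / 4) : ℝ) := by
    apply Real.rpow_le_rpow_of_exponent_le (by linarith)
    linarith
  have hx35 : x ≤ 3 / 5 := by
    refine hx34.trans ((Real.rpow_le_rpow_of_nonpos (by norm_num) hp2 (by norm_num)).trans ?_)
    exact two_rpow_le
  refine (inv_one_sub_le hx0 hx35).trans ?_
  apply Real.exp_le_exp.2
  have h1 : x ≤ 1 / p + (u - 1) / L * (Real.log p / p) := by
    have e1 : x = (p : ℝ) ^ θ / p := by
      rw [hx, show -(1 - θ) = θ - 1 by ring, Real.rpow_sub hp0, Real.rpow_one]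
    have e2 : (p : ℝ) ^ θ = u ^ (Real.log p / L) := by
      rw [Real.rpow_def_of_pos hp0, Real.rpow_def_of_pos (by linarith), hθ]
      congr 1
      ring
    have h2 : u ^ (Real.log p / L) ≤ 1 + (Real.log p / L) * (u - 1) := by
      have h3 := rpow_one_add_le_one_add_mul_self (s := u - 1) (p := Real.log p / L)
        (by linarith) (by positivity) (by rw [div_le_one hL]; exact hlogpz)
      rw [show 1 + (u - 1) = u by ring] at h3
      exact h3
    rw [e1, e2]
    calc u ^ (Real.log p / L) / p ≤ (1 + (Real.log p / L) * (u - 1)) / p := by gcongr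
      _ = _ := by ring
  have h2 : x ^ 2 ≤ ((p : ℝ) ^ (3 / 2 : ℝ))⁻¹ := by
    have h3 : x ^ 2 ≤ ((p : ℝ) ^ (-(3 / 4) : ℝ)) ^ 2 := by gcongr
    refine h3.trans (le_of_eq ?_)
    rw [← Real.rpow_natCast, ← Real.rpow_mul hp0.le, ← Real.rpow_neg hp0.le]
    norm_num
  linarith

lemma prod_factor_le {L u : ℝ} {z : ℕ} (hz2 : 2 ≤ z) (hz : Real.log z ≤ L)
    (hL4 : Real.log 4 ≤ L) (hu : 1 ≤ u) (huL : Real.log u ≤ L / 4) :
    ∏ p ∈ pr z, (1 - (p : ℝ) ^ (-(1 - Real.log u / L)))⁻¹ ≤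
      L * Real.exp (2 * u + (4 + 5 / 2 * zth)) := by
  have hlog4 : 0 < Real.log 4 := Real.log_pos (by norm_num)
  have hL : 0 < L := by linarith
  have hlogz : 0 < Real.log z := Real.log_pos (by exact_mod_cast (by omega : 1 < z))
  calc ∏ p ∈ pr z, (1 - (p : ℝ) ^ (-(1 - Real.log u / L)))⁻¹ ≤
        ∏ p ∈ pr z, Real.exp (1 / p + (u - 1) / L * (Real.log p / p) +
          5 / 2 * ((p : ℝ) ^ (3 / 2 : ℝ))⁻¹) := by
        apply Finset.prod_le_prod
        · intro p hp
          have hpp := (mem_pr.1 hp).1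
          have h1 : (p : ℝ) ^ (-(1 - Real.log u / L)) ≤ 1 := by
            apply (Real.rpow_lt_one_of_one_lt_of_neg _ _).le
            · exact_mod_cast hpp.one_lt
            · have : Real.log u / L ≤ 1 / 4 := by
                rw [div_le_iff₀ hL]
                linarith
              linarith
          rw [inv_nonneg]
          linarith
        · intro p hp
          exact factor_le hp hz hL hu huL
    _ = Real.exp (∑ p ∈ pr z, (1 / (p : ℝ) + (u - 1) / L * (Real.log p / p) +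
          5 / 2 * ((p : ℝ) ^ (3 / 2 : ℝ))⁻¹)) := by rw [Real.exp_sum]
    _ ≤ Real.exp (Real.log L + (2 * u + (4 + 5 / 2 * zth))) := by
        apply Real.exp_le_exp.2
        rw [Finset.sum_add_distrib, Finset.sum_add_distrib, ← Finset.mul_sum, ← Finset.mul_sum]
        have h1 := sum_inv_le hz2
        have h2 := sum_log_div_le (n := z) (by omega)
        have h3 := sum_pr_le_zth z
        have h4 : Real.log (Real.log z) ≤ Real.log L := Real.log_le_log hlogz hz
        have h5 : (u - 1) / L * ∑ p ∈ pr z, Real.log p / p ≤ (u - 1) / L * (2 * L) := by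
          apply mul_le_mul_of_nonneg_left _ (div_nonneg (by linarith) hL.le)
          linarith
        have h6 : (u - 1) / L * (2 * L) = 2 * (u - 1) := by field_simp
        linarith
    _ = _ := by
        rw [Real.exp_add, Real.exp_log hL]

/-- The inverse of the totient. -/
def invPhi : ArithmeticFunction ℝ := ⟨fun n => 1 / (n.totient : ℝ), by simp⟩

lemma invPhi_apply (n : ℕ) : invPhi n = 1 / (n.totient : ℝ) := rfl

lemma invPhi_mult : invPhi.IsMultiplicative := by
  constructor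
  · simp [invPhi_apply]
  · intro m n hmn
    rw [invPhi_apply, invPhi_apply, invPhi_apply, Nat.totient_mul hmn]
    push_cast
    rw [one_div_mul_one_div]

lemma ratio_eq_prod {k : ℕ} (hk : 0 < k) :
    (k : ℝ) / k.totient = ∏ p ∈ k.primeFactors, (1 + invPhi p) := by
  have hkr : (0 : ℝ) < k := by exact_mod_cast hk
  have e1 := Nat.totient_eq_mul_prod_factors k
  have e2 : (Nat.totient k : ℝ) = k * ∏ p ∈ k.primeFactors, (1 - (p : ℝ)⁻¹) := by
    have : ((Nat.totient k : ℚ) : ℝ) = (((k : ℚ) * ∏ p ∈ k.primeFactors, (1 - (p : ℚ)⁻¹) : ℚ) : ℝ) := by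
      rw [e1]
    push_cast at this
    exact this
  rw [e2, div_mul_eq_div_div, div_self hkr.ne', one_div, ← Finset.prod_inv_distrib]
  apply Finset.prod_congr rfl
  intro p hp
  have hpp := Nat.prime_of_mem_primeFactors hp
  have hp1 : (1 : ℝ) < p := by exact_mod_cast hpp.one_lt
  rw [invPhi_apply, Nat.totient_prime hpp, Nat.cast_sub hpp.one_le, Nat.cast_one]
  have h1 : (p : ℝ) ≠ 0 := by linarith
  have h2 : (p : ℝ) - 1 ≠ 0 := by linarith
  have h3 : (1 : ℝ) - (p : ℝ)⁻¹ ≠ 0 := by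
    rw [← one_div, one_sub_div h1]
    exact div_ne_zero h2 h1
  field_simp
  ring

lemma ratio_le {k : ℕ} (hk : 0 < k) :
    (k : ℝ) / k.totient ≤ ∑ e ∈ k.divisors, (e.divisors.card : ℝ) / e := by
  set r := ∏ p ∈ k.primeFactors, p with hr
  have hrk : r ∣ k := Nat.prod_primeFactors_dvd k
  have hrf : r.primeFactors = k.primeFactors := by
    rw [hr, Nat.primeFactors_prod]
    intro p hp
    exact Nat.prime_of_mem_primeFactors hp
  have hsq : Squarefree r := by
    rw [hr]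
    apply Finset.squarefree_prod_of_pairwise_isCoprime
    · intro p hp q hq hpq
      rw [Function.onFun, ← Nat.coprime_iff_isRelPrime]
      exact (Nat.coprime_primes (Nat.prime_of_mem_primeFactors hp)
        (Nat.prime_of_mem_primeFactors hq)).2 hpq
    · intro p hp
      exact (Nat.prime_of_mem_primeFactors hp).prime.squarefree
  rw [ratio_eq_prod hk, ← hrf, invPhi_mult.prodPrimeFactors_one_add_of_squarefree hsq]
  calc ∑ d ∈ r.divisors, invPhi d ≤ ∑ d ∈ k.divisors, invPhi d := by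
        apply Finset.sum_le_sum_of_subset_of_nonneg
        · exact Nat.divisors_subset_of_dvd hk.ne' hrk
        · intro i _ _
          rw [invPhi_apply]
          positivity
    _ ≤ _ := by
        apply Finset.sum_le_sum
        intro e he
        have he0 : 0 < e := Nat.pos_of_mem_divisors he
        have h1 := le_card_divisors_mul_totient he0
        have h2 : (e : ℝ) ≤ e.divisors.card * e.totient := by exact_mod_cast h1
        have her : (0 : ℝ) < e := by exact_mod_cast he0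
        have htr : (0 : ℝ) < e.totient := by exact_mod_cast Nat.totient_pos.2 he0
        rw [invPhi_apply, div_le_div_iff₀ htr her]
        linarith

end

end Pool.Agent.UNI
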