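import Mathlib
import Pool.Agent.UNI.B1

set_option autoImplicit false

/-!
# Elementary lemmas 2 (from the files AS of helper72)
-/

namespace Pool.Agent.UNI

open Finset Filter BlockSieve

noncomputable section

lemma totient_div_eq {k : ℕ} (hk : 0 < k) :
    (k.totient : ℝ) / k = ∏ p ∈ k.primeFactors, (1 - (1 : ℝ) / p) := by
  have hkr : (0 : ℝ) < k := by exact_mod_cast hk
  have e1 := Nat.totient_eq_mul_prod_factors k
  have e2 : (Nat.totient k : ℝ) = k * ∏ p ∈ k.primeFactors, (1 - (p : ℝ)⁻¹) := by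
    have : ((Nat.totient k : ℚ) : ℝ) =
        (((k : ℚ) * ∏ p ∈ k.primeFactors, (1 - (p : ℚ)⁻¹) : ℚ) : ℝ) := by
      rw [e1]
    push_cast at this
    exact this
  rw [e2, mul_div_cancel_left₀ _ hkr.ne']
  apply Finset.prod_congr rfl
  intro p _
  rw [one_div]

lemma one_sub_pos {p z : ℕ} (hp : p ∈ pr z) : 0 < 1 - (1 : ℝ) / p := by
  have hp2 : (1 : ℝ) < p := by exact_mod_cast (mem_pr.1 hp).1.one_lt
  rw [sub_pos, div_lt_one (by linarith)]
  exact hp2

/-- Sum of `1 / j` over the multiples of `e`. -/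
lemma sum_inv_mult_le {e : ℕ} (he : 0 < e) (J : ℕ) :
    ∑ j ∈ (Icc 1 J).filter (fun j => e ∣ j), (1 : ℝ) / j ≤
      (1 / (e : ℝ)) * ∑ a ∈ Icc 1 J, (1 : ℝ) / a := by
  classical
  rw [Finset.mul_sum]
  have h1 : ∀ j ∈ (Icc 1 J).filter (fun j => e ∣ j), (1 : ℝ) / j =
      (fun a : ℕ => (1 / (e : ℝ)) * (1 / (a : ℝ))) (j / e) := by
    intro j hj
    rw [mem_filter] at hj
    obtain ⟨i, hi⟩ := hj.2
    simp only
    rw [hi, Nat.mul_div_cancel_left _ he]
    push_cast
    rw [one_div_mul_one_div]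
  rw [Finset.sum_congr rfl h1, ← Finset.sum_image (f := fun a : ℕ => (1 / (e : ℝ)) * (1 / (a : ℝ)))
    (g := fun j => j / e)]
  · apply Finset.sum_le_sum_of_subset_of_nonneg
    · intro a ha
      rw [mem_image] at ha
      obtain ⟨j, hj, hja⟩ := ha
      rw [mem_filter, mem_Icc] at hj
      obtain ⟨i, hi⟩ := hj.2
      rw [mem_Icc, ← hja, hi, Nat.mul_div_cancel_left _ he]
      have hi0 : 1 ≤ i := by
        rcases Nat.eq_zero_or_pos i with h | h
        · rw [h, mul_zero] at hi
          omega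
        · exact h
      exact ⟨hi0, by
        have : i ≤ e * i := Nat.le_mul_of_pos_left i he
        omega⟩
    · intro _ _ _
      positivity
  · intro a ha b hb hab
    rw [Finset.mem_coe, mem_filter] at ha hb
    simp only at hab
    rw [← Nat.div_mul_cancel ha.2, ← Nat.div_mul_cancel hb.2, hab]

lemma sum_inv_totient_le (J : ℕ) :
    ∑ j ∈ Icc 1 J, (1 : ℝ) / j.totient ≤ 4 * ∑ a ∈ Icc 1 J, (1 : ℝ) / a := by
  classical
  have h1 : ∀ j ∈ Icc 1 J, (1 : ℝ) / j.totient ≤
      ∑ e ∈ Icc 1 J, (if e ∣ j then ((e.divisors.card : ℝ) / e) * (1 / (j : ℝ)) else 0) := by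
    intro j hj
    rw [mem_Icc] at hj
    have hj0 : (0 : ℝ) < j := by exact_mod_cast hj.1
    have hphi : (0 : ℝ) < j.totient := by exact_mod_cast Nat.totient_pos.2 hj.1
    have e1 : (1 : ℝ) / j.totient = (j / j.totient) * (1 / j) := by
      field_simp
    rw [e1, ← Finset.sum_filter, ← Finset.sum_mul]
    apply mul_le_mul_of_nonneg_right _ (by positivity)
    refine (ratio_le hj.1).trans ?_
    apply Finset.sum_le_sum_of_subset_of_nonneg
    · intro e he
      rw [Nat.mem_divisors] at he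
      rw [mem_filter, mem_Icc]
      have h2 : 0 < e := Nat.pos_of_ne_zero (fun h0 => by
        rw [h0, zero_dvd_iff] at he
        exact he.2 he.1)
      have h3 := Nat.le_of_dvd (Nat.pos_of_ne_zero he.2) he.1
      exact ⟨⟨h2, by omega⟩, he.1⟩
    · intro _ _ _
      positivity
  refine (Finset.sum_le_sum h1).trans ?_
  rw [Finset.sum_comm]
  have h2 : ∀ e ∈ Icc 1 J, ∑ j ∈ Icc 1 J,
      (if e ∣ j then ((e.divisors.card : ℝ) / e) * (1 / (j : ℝ)) else 0) ≤
      (∑ a ∈ Icc 1 J, (1 : ℝ) / a) * ((e.divisors.card : ℝ) / (e : ℝ) ^ 2) := by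
    intro e he
    rw [mem_Icc] at he
    have her : (0 : ℝ) < e := by exact_mod_cast he.1
    rw [← Finset.sum_filter, ← Finset.mul_sum]
    calc ((e.divisors.card : ℝ) / e) * ∑ j ∈ (Icc 1 J).filter (fun j => e ∣ j), (1 : ℝ) / j ≤
          ((e.divisors.card : ℝ) / e) * ((1 / (e : ℝ)) * ∑ a ∈ Icc 1 J, (1 : ℝ) / a) := by
          gcongr
          exact sum_inv_mult_le he.1 J
      _ = _ := by
          field_simp
  refine (Finset.sum_le_sum h2).trans ?_
  rw [← Finset.mul_sum]
  have h3 := sum_divisors_div_sq_le J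
  have h4 : 0 ≤ ∑ a ∈ Icc 1 J, (1 : ℝ) / a := Finset.sum_nonneg fun _ _ => by positivity
  nlinarith

/-- The number of primes `l` with y < l ≤ n. -/
lemma card_primes_le {y n : ℕ} (hy : 2 ≤ y) :
    (((pr n).filter (fun l => y < l)).card : ℝ) ≤ Real.log 4 * n / Real.log y := by
  have hlogy : 0 < Real.log y := Real.log_pos (by exact_mod_cast (by omega : 1 < y))
  rw [le_div_iff₀ hlogy]
  refine le_trans ?_ (theta_le n)
  rw [Finset.card_eq_sum_ones]
  push_cast
  rw [Finset.sum_mul]
  calc ∑ l ∈ (pr n).filter (fun l => y < l), 1 * Real.log y ≤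
        ∑ l ∈ (pr n).filter (fun l => y < l), Real.log l := by
        apply Finset.sum_le_sum
        intro l hl
        rw [mem_filter] at hl
        rw [one_mul]
        apply Real.log_le_log
        · exact_mod_cast (by omega : 0 < y)
        · exact_mod_cast hl.2.le
    _ ≤ ∑ l ∈ pr n, Real.log l := by
        apply Finset.sum_le_sum_of_subset_of_nonneg (Finset.filter_subset _ _)
        intro l hl _
        apply Real.log_nonneg
        exact_mod_cast (mem_pr.1 hl).1.one_lt.le

/-- Sum over the integers with a prime factor exceeding `y`. -/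
lemma large_part_le {y T : ℕ} (hy : 2 ≤ y) (K : Finset ℕ)
    (hK : ∀ k ∈ K, 1 ≤ k ∧ k ≤ T ∧ ∃ l, l.Prime ∧ y < l ∧ l ∣ k) :
    ∑ k ∈ K, (k : ℝ) / k.totient ≤
      (2 * Real.log 4 * T / Real.log y) * ∑ j ∈ Icc 1 (T / y), (1 : ℝ) / j.totient := by
  classical
  have hlogy : 0 < Real.log y := Real.log_pos (by exact_mod_cast (by omega : 1 < y))
  have hw : ∀ k : ℕ, 0 ≤ (k : ℝ) / k.totient := fun k => by positivity
  have h1 : ∀ k ∈ K, (k : ℝ) / k.totient ≤ ∑ j ∈ Icc 1 (T / y),
      ∑ l ∈ (pr (T / j)).filter (fun l => y < l),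
        (if j * l = k then (k : ℝ) / k.totient else 0) := by
    intro k hk
    obtain ⟨hk1, hkT, l, hl, hyl, j, hj⟩ := hK k hk
    have hj0 : 1 ≤ j := by
      rcases Nat.eq_zero_or_pos j with h | h
      · rw [h, mul_zero] at hj
        omega
      · exact h
    have hjT : j ∈ Icc 1 (T / y) := by
      rw [mem_Icc]
      refine ⟨hj0, ?_⟩
      rw [Nat.le_div_iff_mul_le (by omega)]
      calc j * y ≤ j * l := Nat.mul_le_mul_left j hyl.le
        _ = k := by rw [hj, mul_comm]
        _ ≤ T := hkT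
    have hlT : l ∈ (pr (T / j)).filter (fun l => y < l) := by
      rw [mem_filter, mem_pr]
      refine ⟨⟨hl, ?_⟩, hyl⟩
      rw [Nat.le_div_iff_mul_le (by omega), ← hj]
      exact hkT
    refine le_trans ?_ (Finset.single_le_sum (fun i _ => Finset.sum_nonneg fun l _ => ?_) hjT)
    · refine le_trans ?_ (Finset.single_le_sum (fun i _ => ?_) hlT)
      · rw [if_pos (by rw [hj, mul_comm])]
      · split_ifs
        · exact hw k
        · exact le_refl 0
    · split_ifs
      · exact hw k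
      · exact le_refl 0
  refine (Finset.sum_le_sum h1).trans ?_
  rw [Finset.sum_comm, Finset.mul_sum]
  apply Finset.sum_le_sum
  intro j hj
  rw [mem_Icc] at hj
  rw [Finset.sum_comm]
  have hj0 : (0 : ℝ) < j := by exact_mod_cast hj.1
  have hphij : (0 : ℝ) < j.totient := by exact_mod_cast Nat.totient_pos.2 hj.1
  have h2 : ∀ l ∈ (pr (T / j)).filter (fun l => y < l), ∑ k ∈ K,
      (if j * l = k then (k : ℝ) / k.totient else 0) ≤ 2 * (j / j.totient) := by
    intro l hl
    rw [mem_filter, mem_pr] at hl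
    have hlp := hl.1.1
    have hl2 : (2 : ℝ) ≤ l := by exact_mod_cast hlp.two_le
    have h3 : ∑ k ∈ K, (if j * l = k then (k : ℝ) / k.totient else 0) ≤
        ((j * l : ℕ) : ℝ) / (j * l).totient := by
      rw [Finset.sum_ite_eq]
      split_ifs
      · exact le_refl _
      · exact hw _
    refine h3.trans ?_
    have h4 : (j.totient : ℝ) * l.totient ≤ (j * l).totient := by
      exact_mod_cast Nat.totient_super_multiplicative j l
    have h5 : (l.totient : ℝ) = l - 1 := by
      rw [Nat.totient_prime hlp, Nat.cast_sub hlp.one_le, Nat.cast_one]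
    have h6 : (0 : ℝ) < l.totient := by
      rw [h5]
      linarith
    calc ((j * l : ℕ) : ℝ) / (j * l).totient ≤ ((j * l : ℕ) : ℝ) / (j.totient * l.totient) := by
          gcongr
      _ = (j / j.totient) * (l / l.totient) := by
          push_cast
          rw [mul_div_mul_comm]
      _ ≤ (j / j.totient) * 2 := by
          gcongr
          rw [div_le_iff₀ h6, h5]
          linarith
      _ = _ := by ring
  refine (Finset.sum_le_sum h2).trans ?_
  rw [Finset.sum_const, nsmul_eq_mul]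
  have h3 := card_primes_le (n := T / j) hy
  have h4 : ((T / j : ℕ) : ℝ) ≤ T / j := Nat.cast_div_le
  have hlog4 : 0 < Real.log 4 := Real.log_pos (by norm_num)
  calc (((pr (T / j)).filter (fun l => y < l)).card : ℝ) * (2 * (j / j.totient)) ≤
        (Real.log 4 * ((T : ℝ) / j) / Real.log y) * (2 * (j / j.totient)) := by
        gcongr
        exact h3.trans (by gcongr)
    _ = _ := by
        field_simp

/-- The upper end of the range of the primes dividing the residue. -/
def yM (A M : ℕ) : ℕ := ⌊Real.log M / (3 * ((A : ℝ) + 5))⌋₊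

lemma log_four_le : Real.log 4 ≤ 1387 / 1000 := by
  have h1 : Real.log 4 = 2 * Real.log 2 := by
    rw [show (4 : ℝ) = 2 ^ 2 by norm_num, Real.log_pow]
    norm_num
  have h2 := Real.log_two_lt_d9
  rw [h1]
  linarith

lemma harm_le {J : ℕ} {B : ℝ} (hJ : Real.log J ≤ B) :
    ∑ a ∈ Icc 1 J, (1 : ℝ) / a ≤ 1 + B := by
  have h4 := harmonic_le_one_add_log J
  have h5 : ((harmonic J : ℚ) : ℝ) = ∑ m ∈ Icc 1 J, (1 : ℝ) / m := by
    rw [harmonic_eq_sum_Icc]
    push_cast
    apply Finset.sum_congr rfl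
    intro i _
    rw [one_div]
  rw [h5] at h4
  linarith

lemma y_facts {L w v A' : ℝ} {y : ℕ} (hA : 5 ≤ A') (hLpos : 0 < L) (hw : w = Real.log L)
    (hv : v = Real.log w) (h12 : 12 * A' ≤ w) (hwL : w ≤ L) (h2v : 2 * v ≤ w)
    (hy : y = ⌊L / (3 * A')⌋₊) :
    L / (4 * A') ≤ y ∧ 2 ≤ y ∧ Real.log y ≤ w ∧ w / 2 ≤ Real.log y := by
  have hA0 : 0 < A' := by linarith
  have hy1 : (y : ℝ) ≤ L / (3 * A') := by
    rw [hy]
    exact Nat.floor_le (by positivity)
  have h12L : 12 * A' ≤ L := by linarith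
  have hy2 : L / (4 * A') ≤ y := by
    have h1 : L / (3 * A') < y + 1 := by
      rw [hy]
      exact Nat.lt_floor_add_one _
    have h2 : L / (4 * A') + 1 ≤ L / (3 * A') := by
      rw [div_add_one (by positivity), div_le_div_iff₀ (by positivity) (by positivity)]
      have := mul_le_mul_of_nonneg_right h12L hA0.le
      linarith
    linarith
  have hyL : (y : ℝ) ≤ L := by
    refine hy1.trans (div_le_self hLpos.le (by linarith))
  have hy3 : 2 ≤ y := by
    have h1 : (2 : ℝ) ≤ L / (4 * A') := by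
      rw [le_div_iff₀ (by positivity)]
      linarith
    exact_mod_cast h1.trans hy2
  have hy0 : (0 : ℝ) < y := by
    have : (2 : ℝ) ≤ y := by exact_mod_cast hy3
    linarith
  refine ⟨hy2, hy3, ?_, ?_⟩
  · rw [hw]
    exact Real.log_le_log hy0 hyL
  · have h1 : Real.log (L / (4 * A')) ≤ Real.log y := Real.log_le_log (by positivity) hy2
    rw [Real.log_div hLpos.ne' (by positivity), ← hw] at h1
    have h2 : Real.log (4 * A') ≤ v := by
      rw [hv]
      apply Real.log_le_log (by positivity)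
      linarith
    linarith

lemma z_facts {Λ : ℝ} {z : ℕ} (hΛ : 2 ≤ Λ) (hz : z = ⌊Real.exp Λ⌋₊) :
    2 ≤ z ∧ Real.log z ≤ Λ ∧ Λ ≤ Real.log ((z : ℝ) + 1) := by
  have hz1 : (z : ℝ) ≤ Real.exp Λ := by
    rw [hz]
    exact Nat.floor_le (Real.exp_pos _).le
  have hz2 : Real.exp Λ < z + 1 := by
    rw [hz]
    exact Nat.lt_floor_add_one _
  have hz3 : 2 ≤ z := by
    rw [hz, Nat.le_floor_iff (Real.exp_pos _).le]
    have := Real.add_one_le_exp Λ
    push_cast
    linarith
  have hz0 : (0 : ℝ) < z := by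
    have : (2 : ℝ) ≤ z := by exact_mod_cast hz3
    linarith
  exact ⟨hz3, (Real.log_le_iff_le_exp hz0).2 hz1, (Real.le_log_iff_exp_le (by linarith)).2 hz2.le⟩

end

end Pool.Agent.UNI
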