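import Mathlib
import Pool.Agent.UNI.B2

set_option autoImplicit false

/-!
# Covering lemmas (from the files LP of helper72)
-/

namespace Pool.Agent.UNI

open Finset Filter BlockSieve

noncomputable section

/-- Greedy choice of residue classes. -/
lemma greedy (S Q : Finset ℕ) (hQ : ∀ l ∈ Q, 0 < l) : ∃ a : ℕ → ℕ,
    ((S.filter (fun s => ∀ l ∈ Q, ¬ s ≡ a l [MOD l])).card : ℝ) ≤
      S.card * ∏ l ∈ Q, (1 - (1 : ℝ) / l) := by
  classical
  induction Q using Finset.induction_on with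
  | empty =>
    refine ⟨fun _ => 0, ?_⟩
    simp
  | insert l Q hl ih =>
    obtain ⟨a, ha⟩ := ih (fun q hq => hQ q (mem_insert_of_mem hq))
    have hl0 : 0 < l := hQ l (mem_insert_self _ _)
    have hlr : (0 : ℝ) < l := by exact_mod_cast hl0
    set S' := S.filter (fun s => ∀ q ∈ Q, ¬ s ≡ a q [MOD q]) with hS'
    obtain ⟨r, hr, hrc⟩ : ∃ r ∈ range l, S'.card ≤ l * (S'.filter (fun s => s % l = r)).card := by
      by_contra hcon
      push Not at hcon
      have h1 : S'.card = ∑ r ∈ range l, (S'.filter (fun s => s % l = r)).card :=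
        Finset.card_eq_sum_card_fiberwise (fun s _ => by
          simpa using Nat.mod_lt s hl0)
      have h2 : l * S'.card < l * S'.card := by
        calc l * S'.card = ∑ r ∈ range l, l * (S'.filter (fun s => s % l = r)).card := by
              rw [← Finset.mul_sum, ← h1]
          _ < ∑ r ∈ range l, S'.card := by
              apply Finset.sum_lt_sum_of_nonempty
              · exact ⟨0, by simpa using hl0⟩
              · intro r hr
                exact hcon r hr
          _ = l * S'.card := by simp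
      exact lt_irrefl _ h2
    refine ⟨Function.update a l r, ?_⟩
    have hsub : S.filter (fun s => ∀ q ∈ insert l Q, ¬ s ≡ Function.update a l r q [MOD q]) ⊆
        S'.filter (fun s => ¬ s % l = r) := by
      intro s hs
      rw [mem_filter] at hs
      rw [mem_filter, hS', mem_filter]
      refine ⟨⟨hs.1, ?_⟩, ?_⟩
      · intro q hq
        have h1 := hs.2 q (mem_insert_of_mem hq)
        have hne : q ≠ l := fun h => hl (h ▸ hq)
        rwa [Function.update_of_ne hne] at h1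
      · intro h
        have h1 := hs.2 l (mem_insert_self _ _)
        rw [Function.update_self] at h1
        apply h1
        unfold Nat.ModEq
        rw [h, Nat.mod_eq_of_lt (by simpa using hr)]
    have hc1 := Finset.card_le_card hsub
    have hc2 : (S'.filter (fun s => s % l = r)).card + (S'.filter (fun s => ¬ s % l = r)).card =
        S'.card := Finset.card_filter_add_card_filter_not _
    rw [Finset.prod_insert hl]
    have hc3 : (S'.card : ℝ) / l ≤ (S'.filter (fun s => s % l = r)).card := by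
      rw [div_le_iff₀ hlr]
      have : (S'.card : ℝ) ≤ l * (S'.filter (fun s => s % l = r)).card := by exact_mod_cast hrc
      linarith
    have hc4 : ((S'.filter (fun s => s % l = r)).card : ℝ) +
        (S'.filter (fun s => ¬ s % l = r)).card = S'.card := by exact_mod_cast hc2
    have hc5 : ((S.filter (fun s => ∀ q ∈ insert l Q,
        ¬ s ≡ Function.update a l r q [MOD q])).card : ℝ) ≤
        (S'.filter (fun s => ¬ s % l = r)).card := by exact_mod_cast hc1
    have hl1 : 0 ≤ 1 - (1 : ℝ) / l := by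
      rw [sub_nonneg, div_le_one hlr]
      exact_mod_cast hl0
    calc ((S.filter (fun s => ∀ q ∈ insert l Q,
        ¬ s ≡ Function.update a l r q [MOD q])).card : ℝ) ≤
          (S'.filter (fun s => ¬ s % l = r)).card := hc5
      _ ≤ S'.card - S'.card / l := by linarith
      _ = (1 - 1 / l) * S'.card := by ring
      _ ≤ (1 - 1 / l) * (S.card * ∏ q ∈ Q, (1 - (1 : ℝ) / q)) := by gcongr
      _ = _ := by ring

lemma prod_pr_log_le (n : ℕ) : Real.log ((∏ l ∈ pr n, l : ℕ) : ℝ) ≤ Real.log 4 * n := by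
  push_cast
  rw [Real.log_prod]
  · exact theta_le n
  · intro p hp
    have := (mem_pr.1 hp).1.ne_zero
    exact_mod_cast this

lemma totient_div_prod {M : ℕ} (hM : 0 < M) :
    (M.totient : ℝ) / M = ∏ p ∈ M.primeFactors, (1 - (1 : ℝ) / p) := totient_div_eq hM

/-- The product over the small primes which do not divide `M`. -/
lemma prod_coprime_le {M z : ℕ} (hM : 0 < M) {Λ : ℝ} (hΛ : 0 < Λ)
    (h : ∏ l ∈ pr z, (1 - (1 : ℝ) / l) ≤ 1 / Λ) :
    (∏ l ∈ (pr z).filter (fun l => ¬ l ∣ M), (1 - (1 : ℝ) / l)) * ((M.totient : ℝ) / M) ≤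
      1 / Λ := by
  classical
  rw [totient_div_prod hM]
  have h01 : ∀ p : ℕ, p.Prime → 0 < 1 - (1 : ℝ) / p ∧ 1 - (1 : ℝ) / p ≤ 1 := by
    intro p hp
    have h1 : (1 : ℝ) < p := by exact_mod_cast hp.one_lt
    refine ⟨?_, ?_⟩
    · rw [sub_pos, div_lt_one (by linarith)]
      exact h1
    · have : 0 ≤ (1 : ℝ) / p := by positivity
      linarith
  have h2 : ∏ p ∈ M.primeFactors, (1 - (1 : ℝ) / p) ≤
      ∏ p ∈ (pr z).filter (fun l => l ∣ M), (1 - (1 : ℝ) / p) := by
    have hsub : (pr z).filter (fun l => l ∣ M) ⊆ M.primeFactors := by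
      intro p hp
      rw [mem_filter, mem_pr] at hp
      rw [Nat.mem_primeFactors]
      exact ⟨hp.1.1, hp.2, hM.ne'⟩
    rw [← Finset.prod_sdiff hsub]
    have h3 : ∏ p ∈ M.primeFactors \ (pr z).filter (fun l => l ∣ M), (1 - (1 : ℝ) / p) ≤ 1 := by
      apply Finset.prod_le_one
      · intro p hp
        exact (h01 p (Nat.prime_of_mem_primeFactors (mem_sdiff.1 hp).1)).1.le
      · intro p hp
        exact (h01 p (Nat.prime_of_mem_primeFactors (mem_sdiff.1 hp).1)).2
    have h4 : 0 ≤ ∏ p ∈ (pr z).filter (fun l => l ∣ M), (1 - (1 : ℝ) / p) :=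
      Finset.prod_nonneg fun p hp => (h01 p (mem_pr.1 (mem_filter.1 hp).1).1).1.le
    calc _ ≤ 1 * ∏ p ∈ (pr z).filter (fun l => l ∣ M), (1 - (1 : ℝ) / p) := by gcongr
      _ = _ := one_mul _
  have h5 : 0 ≤ ∏ l ∈ (pr z).filter (fun l => ¬ l ∣ M), (1 - (1 : ℝ) / l) :=
    Finset.prod_nonneg fun p hp => (h01 p (mem_pr.1 (mem_filter.1 hp).1).1).1.le
  calc _ ≤ (∏ l ∈ (pr z).filter (fun l => ¬ l ∣ M), (1 - (1 : ℝ) / l)) *
        ∏ p ∈ (pr z).filter (fun l => l ∣ M), (1 - (1 : ℝ) / p) := by gcongr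
    _ = ∏ l ∈ pr z, (1 - (1 : ℝ) / l) := by
        rw [mul_comm]
        exact Finset.prod_filter_mul_prod_filter_not _ _ _
    _ ≤ _ := h

lemma ev_conditionsC (A : ℕ) (ε κ : ℝ) (hκ : 0 < κ) : ∀ᶠ w : ℝ in atTop,
    (32 ≤ Real.log (Real.log w) ∧ 1024 * (Real.log w) ^ 2 ≤ w ∧
      (2 / ε) * (Real.log w) ^ 2 ≤ w ∧ 12 * ((A : ℝ) + 5) + 1 / ε ≤ w) ∧
    (2 / κ) * (Real.log w) ^ 2 ≤ w ∧ 4 / κ * (8 + 5 / 2 * zth) ≤ Real.log w ∧
      (8 / κ) * (Real.log (Real.log (Real.log w)) + 2) ≤ Real.log (Real.log w) := by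
  have hq : Tendsto (fun w : ℝ => Real.log (Real.log w)) atTop atTop :=
    Real.tendsto_log_atTop.comp Real.tendsto_log_atTop
  have h1 := hq.eventually_ge_atTop 32
  have h3 := ev_real 1024 2
  have h4 := ev_real (2 / ε) 2
  have h5 := eventually_ge_atTop (12 * ((A : ℝ) + 5) + 1 / ε)
  have h6 := ev_real (2 / κ) 2
  have h7 := Real.tendsto_log_atTop.eventually_ge_atTop (4 / κ * (8 + 5 / 2 * zth))
  have h8 : ∀ᶠ x : ℝ in atTop, (8 / κ) * (Real.log x + 2) ≤ x := by
    have g1 := ev_real (16 / κ) 1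
    have g2 := eventually_ge_atTop (32 / κ)
    filter_upwards [g1, g2] with x e1 e2
    rw [pow_one] at e1
    have e3 : (8 / κ) * (Real.log x + 2) = (16 / κ * Real.log x) / 2 + (32 / κ) / 2 := by ring
    rw [e3]
    linarith
  have h9 := hq.eventually h8
  filter_upwards [h1, h3, h4, h5, h6, h7, h9] with w g1 g3 g4 g5 g6 g7 g8
  exact ⟨⟨g1, g3, g4, g5⟩, g6, g7, g8⟩

/-- The numerical parameters. -/
lemma num_factsC {κ w v q u Λ : ℝ} (hκ : 0 < κ) (hκ1 : κ ≤ 1) (hv : v = Real.log w)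
    (hq : q = Real.log v) (hΛ : Λ = (1 - κ / 2) * (w * q / v)) (hu : u = w / Λ)
    (h1 : 32 ≤ q) (h3 : 1024 * v ^ 2 ≤ w) (h4 : 4 / κ * (8 + 5 / 2 * zth) ≤ v)
    (h5 : (8 / κ) * (Real.log q + 2) ≤ q) :
    1 ≤ u ∧ 4 ≤ Λ ∧ Real.log u ≤ Λ / 4 ∧ Λ ≤ w / 4 ∧ u * Λ = w ∧ 0 < v ∧ q ≤ v ∧
      v + 2 * u + (8 + 5 / 2 * zth) ≤ u * Real.log u ∧ w * q / (2 * v) ≤ Λ := by
  have hzth : 0 ≤ zth := by
    unfold zth
    apply tsum_nonneg
    intro i
    positivity
  have hv0 : 0 < v := by
    have h6 : 0 < 4 / κ * (8 + 5 / 2 * zth) := by positivity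
    linarith
  have hqv4 : 4 * q ≤ v := by
    have h6 : q / 2 + 1 ≤ Real.exp (q / 2) := Real.add_one_le_exp _
    have h7 : v = Real.exp (q / 2) * Real.exp (q / 2) := by
      rw [← Real.exp_add, show q / 2 + q / 2 = q by ring, hq, Real.exp_log hv0]
    nlinarith
  have hqv : q ≤ v := by linarith
  have hq0 : 0 < q := by linarith
  have hw0 : 0 < w := by
    have : 0 < 1024 * v ^ 2 := by positivity
    linarith
  obtain ⟨a, ha⟩ : ∃ a : ℝ, a = 1 - κ / 2 := ⟨_, rfl⟩
  rw [← ha] at hΛ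
  have ha2 : 1 / 2 ≤ a := by linarith
  have ha1 : a ≤ 1 := by linarith
  have ha0 : 0 < a := by linarith
  have hΛ2 : w * q / (2 * v) ≤ Λ := by
    rw [hΛ]
    have h6 : w * q / (2 * v) = (1 / 2) * (w * q / v) := by
      field_simp
    rw [h6]
    gcongr
  have hΛv : 512 * v ≤ Λ := by
    refine le_trans ?_ hΛ2
    rw [le_div_iff₀ (by positivity)]
    calc 512 * v * (2 * v) = 1024 * v ^ 2 * 1 := by ring
      _ ≤ w * q := by gcongr; linarith
  have hΛ0 : 0 < Λ := by nlinarith
  have hu' : u = v / (a * q) := by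
    rw [hu, hΛ]
    field_simp
  have hu1 : 1 ≤ u := by
    rw [hu', le_div_iff₀ (by positivity)]
    calc 1 * (a * q) ≤ 1 * (1 * q) := by gcongr
      _ ≤ v := by linarith
  have hu0 : 0 < u := by linarith
  have huv : u ≤ 2 * v := by
    rw [hu', div_le_iff₀ (by positivity)]
    have : 1 ≤ 2 * (a * q) := by nlinarith
    nlinarith
  refine ⟨hu1, by nlinarith, ?_, ?_, ?_, hv0, hqv, ?_, hΛ2⟩
  · have := Real.log_le_sub_one_of_pos hu0
    linarith
  · rw [hΛ]
    calc a * (w * q / v) ≤ 1 * (w * q / v) := by gcongr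
      _ ≤ w / 4 := by
          rw [one_mul, div_le_div_iff₀ hv0 (by norm_num)]
          calc w * q * 4 = w * (4 * q) := by ring
            _ ≤ w * v := by gcongr
  · rw [hu]
    field_simp
  · have h6 : q - Real.log q ≤ Real.log u := by
      rw [hu', Real.log_div hv0.ne' (by positivity), Real.log_mul ha0.ne' hq0.ne', ← hq]
      have : Real.log a ≤ 0 := Real.log_nonpos ha0.le ha1
      linarith
    -- `u log u - 2 u ≥ (v / a) (1 - (log q + 2) / q)`
    have h7 : (1 + κ / 4) * v ≤ u * (Real.log u - 2) := by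
      have h8 : (1 - κ / 8) * q ≤ Real.log u - 2 := by
        have h9 : Real.log q + 2 ≤ κ / 8 * q := by
          rw [div_mul_eq_mul_div, div_le_iff₀ hκ] at h5
          linarith
        linarith
      have h10 : (1 + κ / 4) * (a * q) ≤ (1 - κ / 8) * q := by
        have h11 : (1 + κ / 4) * a ≤ 1 - κ / 8 := by
          rw [ha]
          nlinarith
        calc (1 + κ / 4) * (a * q) = ((1 + κ / 4) * a) * q := by ring
          _ ≤ (1 - κ / 8) * q := by gcongr
      calc (1 + κ / 4) * v = u * ((1 + κ / 4) * (a * q)) := by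
            rw [hu']
            field_simp
        _ ≤ u * ((1 - κ / 8) * q) := by gcongr
        _ ≤ u * (Real.log u - 2) := by gcongr
    have h12 : 8 + 5 / 2 * zth ≤ κ / 4 * v := by
      rw [div_mul_eq_mul_div, div_le_iff₀ hκ] at h4
      linarith
    nlinarith

/-- The integers up to `T` with a prime factor exceeding `y`. -/
lemma large_card_le {y T : ℕ} (hy : 2 ≤ y) (K : Finset ℕ)
    (hK : ∀ k ∈ K, 1 ≤ k ∧ k ≤ T ∧ ∃ l, l.Prime ∧ y < l ∧ l ∣ k) :
    (K.card : ℝ) ≤
      (2 * Real.log 4 * T / Real.log y) * ∑ j ∈ Icc 1 (T / y), (1 : ℝ) / j.totient := by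
  refine le_trans ?_ (large_part_le hy K hK)
  rw [Finset.card_eq_sum_ones, Nat.cast_sum]
  apply Finset.sum_le_sum
  intro k hk
  obtain ⟨hk1, _, _⟩ := hK k hk
  have h1 : (0 : ℝ) < k.totient := by exact_mod_cast Nat.totient_pos.2 (by omega)
  rw [le_div_iff₀ h1, Nat.cast_one, one_mul]
  exact_mod_cast Nat.totient_le k

end

end Pool.Agent.UNI
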