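import Mathlib
import Pool.Agent.Lib_helper9.LG.Stmts
import Pool.Agent.UNI.B1

set_option autoImplicit false

/-!
# Lemmas for the last step (from the files LP of helper72)
-/

namespace Pool.Agent.UNI

open Finset Filter BlockSieve Pool.Agent.Lib_helper9.LG

noncomputable section

/-- The class modulo `W`. -/
lemma exists_class (m y : ℕ) (Q : Finset ℕ) (hQ : ∀ l ∈ Q, l.Prime) (a : ℕ → ℕ) :
    ∃ b : ℕ, y ≤ b ∧ b < y + ∏ l ∈ Q, l ∧
      ∀ l ∈ Q, ∀ k : ℕ, k + 1 ≡ a l [MOD l] → l ∣ b + k * m := by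
  classical
  have hcop : (Q : Set ℕ).Pairwise (Function.onFun Nat.Coprime (fun l : ℕ => l)) := by
    intro l hl q hq hne
    exact (Nat.coprime_primes (hQ l hl) (hQ q hq)).2 hne
  have hpos : ∀ l ∈ Q, (fun l : ℕ => l) l ≠ 0 := fun l hl => (hQ l hl).ne_zero
  obtain ⟨b₀, hb₀⟩ := Nat.chineseRemainderOfFinset
    (fun l => (1 + (l - 1) * a l) * m) (fun l => l) Q hpos hcop
  set W := ∏ l ∈ Q, l with hW
  have hWpos : 0 < W := Finset.prod_pos fun l hl => (hQ l hl).pos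
  -- a representative in `[y, y + W)`
  obtain ⟨b, hb1, hb2, hb3⟩ : ∃ b : ℕ, y ≤ b ∧ b < y + W ∧ b ≡ b₀ [MOD W] := by
    refine ⟨y + (b₀ + (W - 1) * y) % W, by omega, ?_, ?_⟩
    · have := Nat.mod_lt (b₀ + (W - 1) * y) hWpos
      omega
    · have h1 : y + (b₀ + (W - 1) * y) % W ≡ y + (b₀ + (W - 1) * y) [MOD W] :=
        Nat.ModEq.add_left _ (Nat.mod_modEq _ _)
      have h2 : y + (b₀ + (W - 1) * y) = b₀ + W * y := by
        obtain ⟨V, hV⟩ := Nat.exists_eq_succ_of_ne_zero hWpos.ne'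
        rw [hV, Nat.succ_sub_one, Nat.succ_eq_add_one]
        ring
      rw [h2] at h1
      refine h1.trans ?_
      have h3 : b₀ + W * y ≡ b₀ + 0 [MOD W] :=
        Nat.ModEq.add_left _ ((Nat.modEq_zero_iff_dvd).2 (Dvd.intro _ rfl))
      exact h3
  refine ⟨b, hb1, hb2, ?_⟩
  intro l hl k hk
  have hlW : l ∣ W := Finset.dvd_prod_of_mem _ hl
  have h1 : b ≡ (1 + (l - 1) * a l) * m [MOD l] := (hb3.of_dvd hlW).trans (hb₀ l hl)
  rw [← Nat.modEq_zero_iff_dvd]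
  have hl1 := (hQ l hl).pos
  calc b + k * m ≡ (1 + (l - 1) * a l) * m + k * m [MOD l] := Nat.ModEq.add_right _ h1
    _ = ((k + 1) + (l - 1) * a l) * m := by ring
    _ ≡ (a l + (l - 1) * a l) * m [MOD l] := Nat.ModEq.mul_right _ (Nat.ModEq.add_right _ hk)
    _ = l * (a l * m) := by
        obtain ⟨V, hV⟩ := Nat.exists_eq_succ_of_ne_zero hl1.ne'
        rw [hV, Nat.succ_sub_one, Nat.succ_eq_add_one]
        ring
    _ ≡ 0 [MOD l] := (Nat.modEq_zero_iff_dvd).2 (Dvd.intro _ rfl)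

/-- Elementary conditions on large `n`. -/
lemma ev_gap (X₀ : ℝ) : ∀ᶠ n : ℕ in atTop, 16 ≤ n ∧ 4 * X₀ ≤ (n : ℝ) ∧ 16 ≤ Real.log (n : ℝ) := by
  have h2 : Tendsto (fun n : ℕ => Real.log (n : ℝ)) atTop atTop :=
    Real.tendsto_log_atTop.comp tendsto_natCast_atTop_atTop
  have h1 : Tendsto (fun n : ℕ => (n : ℝ)) atTop atTop := tendsto_natCast_atTop_atTop
  filter_upwards [eventually_ge_atTop 16, h1.eventually_ge_atTop (4 * X₀),
    h2.eventually_ge_atTop 16] with n e1 e2 e3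
  exact ⟨e1, e2, e3⟩

end

end Pool.Agent.UNI
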