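import Mathlib
import Pool.Agent.Lib_helper9.LG.BLKd

set_option autoImplicit false

/-!
The dyadic blocks of the small primes, uniformly in the parameters.
-/

namespace Pool.Agent.UNI

open Pool.Agent.Lib_helper9.LG Pool.Agent.Lib_helper9.LG.BLKd
open Finset

theorem blkU : ∃ L₀ : ℝ, ∀ L : ℝ, L₀ ≤ L → ∀ η : ℝ, 0 < η → ∀ b₀ : ℕ, ∀ m : ℕ, 1 ≤ m →
  ∃ (P : ℕ → Finset ℕ) (N : ℕ), (∀ i < N, ∀ j < N, i ≠ j → Disjoint (P i) (P j)) ∧
    SS P N = SPr m L (Real.exp (η * L)) ∧ (∀ j < N, ∑ l ∈ P j, (1 : ℝ) / l ≤ 1) ∧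
    LV P (fun j => b₀ + j) N ≤ Real.exp (8 * ((b₀ : ℝ) + 2) * (η * L)) := by
  obtain ⟨Y, hY, hbs⟩ := block_sum
  refine ⟨max 3 (Real.exp Y), fun L hL η hη b₀ m _ => ?_⟩
  have hL3 : 3 ≤ L := (le_max_left _ _).trans hL
  have hLY : Real.exp Y ≤ L := (le_max_right _ _).trans hL
  have hL4 : Real.exp Y ≤ L ^ 4 := by
    have h1 : L ≤ L ^ 4 := le_self_pow₀ (by linarith) (by norm_num)
    linarith
  have hw : 0 ≤ η * L := by positivity
  refine ⟨bk m L (η * L), ⌈η * L⌉₊, ?_, blk_union hL3 hw, fun j _ => blk_sum hY hL4 hbs j,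
    LV_le hw b₀ _⟩
  intro i _ j _ hij
  rcases lt_or_gt_of_ne hij with h | h
  · exact blk_disjoint hw h
  · exact (blk_disjoint hw h).symm

end Pool.Agent.UNI
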