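import Mathlib
import Pool.Agent.Lib_helper9.LG.OmD

set_option autoImplicit false

/-!
The number of prime factors of `m ≤ X ^ A`, uniformly in `A`.
-/

namespace Pool.Agent.UNI

open Pool.Agent.Lib_helper9.LG
open Finset

theorem omX (A : ℕ) (X : ℝ) (hX : (4 : ℝ) ^ (20 * 4 ^ (20 * A + 1)) ≤ X) (m : ℕ) (hm : 1 ≤ m)
    (hmX : (m : ℝ) ≤ X ^ A) : (4 : ℝ) ^ m.primeFactors.card ≤ X ^ (1 / 10 : ℝ) := by
  set K : ℕ := 4 ^ (20 * A + 1) with hK
  have h4 : (1 : ℝ) ≤ (4 : ℝ) ^ (20 * K) := one_le_pow₀ (by norm_num)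
  have hX1 : 1 ≤ X := h4.trans hX
  have hX0 : 0 < X := by linarith
  have hKpos : 1 ≤ K := Nat.one_le_pow _ _ (by norm_num)
  set w := m.primeFactors.card with hw
  have h1 : (K : ℝ) ^ (w - K) ≤ X ^ A := by
    have := OmD.om_aux m K hm hKpos
    calc (K : ℝ) ^ (w - K) ≤ (m : ℝ) := by exact_mod_cast this
      _ ≤ X ^ A := hmX
  -- first factor
  have h2 : (4 : ℝ) ^ K ≤ X ^ (1 / 20 : ℝ) := by
    have e : (4 : ℝ) ^ K = ((4 : ℝ) ^ (20 * K)) ^ (1 / 20 : ℝ) := by
      rw [← Real.rpow_natCast (4 : ℝ) (20 * K), ← Real.rpow_mul (by norm_num),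
        ← Real.rpow_natCast (4 : ℝ) K]
      congr 1
      push_cast
      ring
    rw [e]
    exact Real.rpow_le_rpow (by positivity) hX (by norm_num)
  -- second factor
  have h3 : (4 : ℝ) ^ (w - K) ≤ X ^ (1 / 20 : ℝ) := by
    have e1 : ((4 : ℝ) ^ (w - K)) ^ (20 * A + 1) = (K : ℝ) ^ (w - K) := by
      rw [hK]
      push_cast
      rw [← pow_mul, ← pow_mul, mul_comm]
    have e2 : X ^ A ≤ (X ^ (1 / 20 : ℝ)) ^ (20 * A + 1) := by
      rw [← Real.rpow_natCast (X ^ (1 / 20 : ℝ)), ← Real.rpow_mul hX0.le, ← Real.rpow_natCast X A]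
      apply Real.rpow_le_rpow_of_exponent_le hX1
      push_cast
      have : (0 : ℝ) ≤ A := Nat.cast_nonneg A
      linarith
    have e3 : ((4 : ℝ) ^ (w - K)) ^ (20 * A + 1) ≤ (X ^ (1 / 20 : ℝ)) ^ (20 * A + 1) := by
      rw [e1]
      exact h1.trans e2
    exact le_of_pow_le_pow_left₀ (by omega) (by positivity) e3
  calc (4 : ℝ) ^ w ≤ (4 : ℝ) ^ (K + (w - K)) := by
        apply pow_le_pow_right₀ (by norm_num)
        omega
    _ = (4 : ℝ) ^ K * (4 : ℝ) ^ (w - K) := pow_add _ _ _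
    _ ≤ X ^ (1 / 20 : ℝ) * X ^ (1 / 20 : ℝ) := by
        apply mul_le_mul h2 h3 (by positivity) (by positivity)
    _ = X ^ (1 / 10 : ℝ) := by
        rw [← Real.rpow_add hX0]
        norm_num

/-- The bound for the number of prime factors, uniform in `A`. -/
theorem omu : ∃ L₀ : ℝ, ∀ L : ℝ, L₀ ≤ L → ∀ A : ℕ, 60 * (A : ℝ) ≤ Real.log L → ∀ m : ℕ, 1 ≤ m →
    Real.log m ≤ A * L → (4 : ℝ) ^ m.primeFactors.card ≤ Real.exp L ^ (1 / 10 : ℝ) := by
  refine ⟨140 ^ 2, fun L hL A hA m hm hmL => ?_⟩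
  have hL0 : 0 < L := by norm_num at hL; linarith
  apply omX A (Real.exp L) _ m hm
  · have h1 : (m : ℝ) = Real.exp (Real.log m) := (Real.exp_log (by exact_mod_cast hm)).symm
    rw [h1, ← Real.exp_nat_mul]
    exact Real.exp_le_exp.2 hmL
  · have hlog4 : Real.log 4 ≤ 1.4 := by
      have h1 : Real.log 4 = 2 * Real.log 2 := by
        rw [show (4 : ℝ) = 2 ^ 2 by norm_num, Real.log_pow]
        norm_num
      have := Real.log_two_lt_d9
      rw [h1]
      linarith
    have hlog40 : 0 ≤ Real.log 4 := Real.log_nonneg (by norm_num)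
    have hsq : 140 ≤ Real.sqrt L := Real.le_sqrt_of_sq_le hL
    have e1 : ((4 : ℝ) ^ (20 * A + 1)) ≤ 5 * Real.sqrt L := by
      have e2 : (4 : ℝ) ^ (20 * A + 1) = Real.exp (((20 * A + 1 : ℕ) : ℝ) * Real.log 4) := by
        rw [Real.exp_nat_mul, Real.exp_log (by norm_num)]
      rw [e2]
      have e3 : ((20 * A + 1 : ℕ) : ℝ) * Real.log 4 ≤ 1 / 2 * Real.log L + 1.4 := by
        push_cast
        have hA0 : (0 : ℝ) ≤ A := Nat.cast_nonneg A
        nlinarith
      refine (Real.exp_le_exp.2 e3).trans ?_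
      rw [Real.exp_add, mul_comm]
      have e4 : Real.exp (1 / 2 * Real.log L) = Real.sqrt L := by
        rw [Real.sqrt_eq_rpow, Real.rpow_def_of_pos hL0, mul_comm]
      rw [e4]
      have e5 : Real.exp 1.4 ≤ 5 := by
        have h1 : Real.exp 1.4 = Real.exp 1 * Real.exp 0.4 := by
          rw [← Real.exp_add]
          norm_num
        have h2 := Real.exp_one_lt_d9
        have h3 : Real.exp 0.4 ≤ 1 / (1 - 0.4) := by
          have h4 := Real.add_one_le_exp (-0.4 : ℝ)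
          have h5 : Real.exp 0.4 * Real.exp (-0.4) = 1 := by
            rw [← Real.exp_add]
            norm_num
          rw [le_div_iff₀ (by norm_num)]
          have h6 := Real.exp_pos (0.4 : ℝ)
          nlinarith
        rw [h1]
        have h7 := Real.exp_pos (1 : ℝ)
        have h8 := Real.exp_pos (0.4 : ℝ)
        norm_num at h3 ⊢
        nlinarith
      exact mul_le_mul_of_nonneg_right e5 (Real.sqrt_nonneg _)
    have e6 : (4 : ℝ) ^ (20 * 4 ^ (20 * A + 1)) =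
        Real.exp (((20 * 4 ^ (20 * A + 1) : ℕ) : ℝ) * Real.log 4) := by
      rw [Real.exp_nat_mul, Real.exp_log (by norm_num)]
    rw [e6]
    apply Real.exp_le_exp.2
    push_cast
    have h1 : 20 * (4 : ℝ) ^ (20 * A + 1) * Real.log 4 ≤ 20 * (5 * Real.sqrt L) * 1.4 := by
      have h2 : (0 : ℝ) ≤ 4 ^ (20 * A + 1) := by positivity
      have h3 := Real.sqrt_nonneg L
      exact mul_le_mul (by linarith) hlog4 hlog40 (by positivity)
    have h2 : Real.sqrt L * Real.sqrt L = L := Real.mul_self_sqrt hL0.le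
    nlinarith [Real.sqrt_nonneg L]

end Pool.Agent.UNI
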