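import Mathlib
import Pool.Agent.Lib_helper9.LG.SIGDd

set_option autoImplicit false

/-!
Lower bound for the cost of a site over the large primes, uniformly in the parameters.
-/

namespace Pool.Agent.UNI

open Pool.Agent.Lib_helper9.LG Pool.Agent.Lib_helper9.LG.SIGDd
open Finset Filter

noncomputable section

theorem rhoBU : ∃ c : ℝ, 0 < c ∧ ∀ η : ℝ, 0 < η → ∀ A : ℕ, ∀ L : ℝ, 1 ≤ L → 2 / η ≤ L →
    8 * (A : ℝ) / η ^ 2 ≤ L → ∀ m : ℕ, 1 ≤ m → Real.log m ≤ A * L → ∀ N : ℕ,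
    c / (η * L) ≤ ∏ p ∈ (Icc 1 N).filter
      (fun p : ℕ => p.Prime ∧ ((p : ℝ) ≤ Real.exp (η * L) ∨ p ∣ m)), (1 - 1 / (p : ℝ)) := by
  classical
  obtain ⟨c, C, hc, _, hV⟩ := Pool.Agent.Lib_helper10.Erdos460.V_bounds_succ
  refine ⟨c / 2, by positivity, fun η hη A L hL1 hL2 hLA m hm hmL N => ?_⟩
  have hL0 : 0 < L := by linarith
  set a := η * L with ha
  have ha0 : 0 < a := by positivity
  have ha2 : 2 ≤ a := by
    rw [div_le_iff₀ hη] at hL2
    rw [ha]
    linarith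
  set E := Real.exp a with hE
  have hE0 : 0 < E := Real.exp_pos _
  have hEq : 1 + a + a ^ 2 / 2 ≤ E := Real.quadratic_le_exp_of_nonneg ha0.le
  have hE2 : 4 * (A * L) ≤ E := by
    rw [div_le_iff₀ (by positivity)] at hLA
    have h1 : a ^ 2 / 2 = (L * η ^ 2) * L / 2 := by rw [ha]; ring
    have h2 : 8 * (A : ℝ) * L ≤ (L * η ^ 2) * L := mul_le_mul_of_nonneg_right hLA hL0.le
    linarith
  set n : ℕ := ⌊E⌋₊ with hn
  have hn2 : 2 ≤ n := by
    rw [hn]
    apply Nat.le_floor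
    push_cast
    nlinarith [sq_nonneg a]
  have hnE : (n : ℝ) ≤ E := Nat.floor_le hE0.le
  set A1 : Finset ℕ := Nat.primesBelow (n + 1) with hA1
  set A2 : Finset ℕ := m.primeFactors.filter (fun p : ℕ => E < (p : ℝ)) with hA2
  have hdisj : Disjoint A1 A2 := by
    rw [Finset.disjoint_left]
    intro p h1 h2
    rw [hA1, Nat.mem_primesBelow] at h1
    rw [hA2, mem_filter] at h2
    have h3 : (p : ℝ) ≤ n := by exact_mod_cast (by omega : p ≤ n)
    linarith [h2.2]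
  have hA1p : ∀ p ∈ A1, p.Prime := fun p hp => (Nat.mem_primesBelow.1 hp).2
  have hA2p : ∀ p ∈ A2, p.Prime := fun p hp =>
    Nat.prime_of_mem_primeFactors (mem_filter.1 hp).1
  have hsub : (Icc 1 N).filter (fun p : ℕ => p.Prime ∧ ((p : ℝ) ≤ E ∨ p ∣ m)) ⊆ A1 ∪ A2 := by
    intro p hp
    rw [mem_filter] at hp
    obtain ⟨_, hpp, hor⟩ := hp
    rw [mem_union]
    rcases le_or_gt ((p : ℝ)) E with h | h
    · left
      rw [hA1, Nat.mem_primesBelow]
      refine ⟨?_, hpp⟩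
      have := Nat.le_floor h
      omega
    · right
      rcases hor with h' | h'
      · linarith
      · rw [hA2, mem_filter, Nat.mem_primeFactors]
        exact ⟨⟨hpp, h', by omega⟩, h⟩
  have hfac : ∀ p : ℕ, p.Prime → 0 < 1 - 1 / (p : ℝ) ∧ 1 - 1 / (p : ℝ) ≤ 1 :=
    fun p hp => Pool.Agent.Lib_helper10.Erdos460.prime_factor_bounds hp
  have h1 : ∏ p ∈ A1 ∪ A2, (1 - 1 / (p : ℝ)) ≤ ∏ p ∈ (Icc 1 N).filter
      (fun p : ℕ => p.Prime ∧ ((p : ℝ) ≤ E ∨ p ∣ m)), (1 - 1 / (p : ℝ)) := by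
    rw [← Finset.prod_sdiff hsub]
    have h2 : ∏ p ∈ (A1 ∪ A2) \ (Icc 1 N).filter
        (fun p : ℕ => p.Prime ∧ ((p : ℝ) ≤ E ∨ p ∣ m)), (1 - 1 / (p : ℝ)) ≤ 1 := by
      apply Finset.prod_le_one
      · intro p hp
        rcases mem_union.1 (mem_sdiff.1 hp).1 with h | h
        · exact (hfac p (hA1p p h)).1.le
        · exact (hfac p (hA2p p h)).1.le
      · intro p hp
        rcases mem_union.1 (mem_sdiff.1 hp).1 with h | h
        · exact (hfac p (hA1p p h)).2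
        · exact (hfac p (hA2p p h)).2
    have h3 : 0 ≤ ∏ p ∈ (Icc 1 N).filter
        (fun p : ℕ => p.Prime ∧ ((p : ℝ) ≤ E ∨ p ∣ m)), (1 - 1 / (p : ℝ)) := by
      apply Finset.prod_nonneg
      intro p hp
      exact (hfac p (mem_filter.1 hp).2.1).1.le
    calc _ ≤ 1 * _ := mul_le_mul_of_nonneg_right h2 h3
      _ = _ := one_mul _
  refine le_trans ?_ h1
  rw [Finset.prod_union hdisj]
  have h2 : c / a ≤ ∏ p ∈ A1, (1 - 1 / (p : ℝ)) := by
    have h3 := (hV n hn2).1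
    have h4 : Real.log n ≤ a := by
      have h5 := Real.log_le_log (by
        have : (2 : ℝ) ≤ n := by exact_mod_cast hn2
        linarith) hnE
      rwa [hE, Real.log_exp] at h5
    have h5 : 0 < Real.log n := Real.log_pos (by
      have : (2 : ℝ) ≤ n := by exact_mod_cast hn2
      linarith)
    refine le_trans ?_ h3
    exact div_le_div_of_nonneg_left hc.le h5 h4
  have h3 : (1 : ℝ) / 2 ≤ ∏ p ∈ A2, (1 - 1 / (p : ℝ)) := by
    have h4 := RH.one_sub_sum_le (S := A2) (f := fun p => 1 / (p : ℝ))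
      (by intro l _; positivity)
      (by
        intro l hl
        have : (2 : ℝ) ≤ l := by exact_mod_cast (hA2p l hl).two_le
        rw [div_le_one (by linarith)]
        linarith)
    refine le_trans ?_ h4
    have h5 : ∑ p ∈ A2, 1 / (p : ℝ) ≤ ∑ _p ∈ A2, 1 / E := by
      apply Finset.sum_le_sum
      intro p hp
      exact one_div_le_one_div_of_le hE0 (mem_filter.1 hp).2.le
    rw [Finset.sum_const, nsmul_eq_mul] at h5
    have h6 : (A2.card : ℝ) ≤ m.primeFactors.card := by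
      exact_mod_cast Finset.card_filter_le _ _
    have h7 := RH.card_primeFactors_le m hm
    have h9 : (1 : ℝ) / 2 < Real.log 2 := by
      have := Real.log_two_gt_d9
      linarith
    have h10 : (m.primeFactors.card : ℝ) ≤ 2 * (A * L) := by
      have h11 : (0 : ℝ) ≤ m.primeFactors.card := Nat.cast_nonneg _
      nlinarith
    have h11 : (A2.card : ℝ) * (1 / E) ≤ 1 / 2 := by
      rw [mul_one_div, div_le_iff₀ hE0]
      linarith
    linarith
  have h4 : 0 ≤ c / a := by positivity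
  calc c / 2 / a = c / a * (1 / 2) := by ring
    _ ≤ _ := mul_le_mul h2 h3 (by norm_num) (h4.trans h2)

/-- Lower bound for `sigma`, uniform. -/
theorem sigU : ∃ c : ℝ, 0 < c ∧ ∀ η : ℝ, 0 < η → ∀ A I : ℕ, ∀ L : ℝ, 1 ≤ L → 2 / η ≤ L →
    8 * (A : ℝ) / η ^ 2 ≤ L →
    ∀ m : ℕ, 1 ≤ m → Real.log m ≤ A * L → ∀ B1 : ℝ, 2 ^ I * (η * L) ≤ B1 →
    (c * I - 1) / (η * L) ≤ ∑ T : Finset {l // l ∈ BPr m (Real.exp (η * L)) (Real.exp B1)},
      s0 (fun i : {l // l ∈ BPr m (Real.exp (η * L)) (Real.exp B1)} => Real.log ((i : ℕ) : ℝ))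
        (fun i : {l // l ∈ BPr m (Real.exp (η * L)) (Real.exp B1)} => ((i : ℕ) : ℝ) - 1) B1 T := by
  classical
  obtain ⟨c, hc, hrho⟩ := rhoBU
  refine ⟨c / 2, by positivity, fun η hη A I L hL1 hL2 hLA m hm hmL B1 hB1 => ?_⟩
  have hL0 : 0 < L := by linarith
  have hr := hrho η hη A L hL1 hL2 hLA m hm hmL
  set a := η * L with ha
  have ha0 : 0 < a := by positivity
  have hti : ∀ i < I, (2 : ℝ) ^ i * a ≤ B1 := by
    intro i hi
    refine le_trans ?_ hB1
    exact mul_le_mul_of_nonneg_right (pow_le_pow_right₀ (by norm_num) hi.le) ha0.le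
  set Q := BPr m (Real.exp a) (Real.exp B1) with hQ
  have hlam : ∀ i : {l // l ∈ Q}, 0 < Real.log ((i : ℕ) : ℝ) := by
    intro i
    have h5 := (Finset.mem_filter.1 i.2).2.1.two_le
    exact Real.log_pos (by exact_mod_cast (by omega : 1 < (i : ℕ)))
  have hq : ∀ i : {l // l ∈ Q}, 0 < ((i : ℕ) : ℝ) - 1 := by
    intro i
    have h5 := (Finset.mem_filter.1 i.2).2.1.two_le
    have : (2 : ℝ) ≤ ((i : ℕ) : ℝ) := by exact_mod_cast h5
    linarith
  have hd := dyad hlam hq ha0 I hti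
  refine le_trans ?_ hd
  have hterm : ∀ i ∈ range I, c / a / 2 - 1 / (2 * (2 ^ i * a)) ≤
      (VV (fun i : {l // l ∈ Q} => Real.log ((i : ℕ) : ℝ))
        (fun i : {l // l ∈ Q} => ((i : ℕ) : ℝ) - 1) (2 ^ i * a) - 1) /
        (2 * (2 ^ i * a)) := by
    intro i hi
    have hi' := mem_range.1 hi
    set t : ℝ := 2 ^ i * a with ht
    have ht0 : 0 < t := by positivity
    have h5 := vlowB m (Real.exp a) (Real.exp B1) (Real.exp t) (Real.one_le_exp ht0.le)
      (Real.exp_le_exp.2 (hti i hi'))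
    rw [Real.log_exp] at h5
    have h6 := hr ⌊Real.exp t⌋₊
    have h7 : c / a * t ≤ VV (fun i : {l // l ∈ Q} => Real.log ((i : ℕ) : ℝ))
        (fun i : {l // l ∈ Q} => ((i : ℕ) : ℝ) - 1) t := by
      refine (mul_le_mul_of_nonneg_right h6 ht0.le).trans (h5.trans ?_)
      exact (VQ_fin Q t).le
    rw [le_div_iff₀ (by positivity)]
    have h8 : (c / a / 2 - 1 / (2 * t)) * (2 * t) = c / a * t - 1 := by
      field_simp
    rw [h8]
    linarith
  refine le_trans ?_ (Finset.sum_le_sum hterm)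
  rw [Finset.sum_sub_distrib, Finset.sum_const, card_range, nsmul_eq_mul]
  have h9 : ∑ i ∈ range I, 1 / (2 * ((2 : ℝ) ^ i * a)) ≤ 1 / a := by
    have h10 := dyad_le ha0 ha0 I
    have h11 : ∑ i ∈ range I, (if a ≤ 2 ^ i * a then 1 / (2 * ((2 : ℝ) ^ i * a)) else 0) =
        ∑ i ∈ range I, 1 / (2 * ((2 : ℝ) ^ i * a)) := by
      apply Finset.sum_congr rfl
      intro i _
      rw [if_pos]
      have : (1 : ℝ) ≤ 2 ^ i := one_le_pow₀ (by norm_num)
      nlinarith
    rw [← h11]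
    exact h10
  have h12 : (c / 2 * I - 1) / a = I * (c / a / 2) - 1 / a := by ring
  rw [h12]
  linarith

end

end Pool.Agent.UNI
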