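import Mathlib
import Pool.Agent.Lib_helper9.LG.MainD
import Pool.Agent.UNI.OMU
import Pool.Agent.UNI.SIGU
import Pool.Agent.UNI.VSLU
import Pool.Agent.UNI.BLKU
import Pool.Agent.UNI.PARU

set_option autoImplicit false
set_option linter.unusedSectionVars false
set_option linter.unusedSimpArgs false

/-!
The positive proportion engine, uniformly in the parameters.
-/

namespace Pool.Agent.UNI

open Pool.Agent.Lib_helper9.LG
open Finset Filter

noncomputable section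

/-- The final constant. -/
theorem delta_bound {A J E : ℕ} {C₀ C₁ η e lamb G0 C4 κ₀ : ℝ} (hC₀ : 1 ≤ C₀) (hC₁ : 1 ≤ C₁)
    (hη : 0 < η) (hη1 : η ≤ 1) (he1 : e ≤ 1) (he0 : 0 < e) (hlamb : 1 ≤ lamb) (hκ₀ : 1 ≤ κ₀)
    (hηκ : Real.exp (-(κ₀ * C₀)) ≤ η) (hJ : (J : ℝ) * η ≤ e) (hE : E = ⌈((A : ℝ) + 1) / η⌉₊)
    (hG0 : G0 = 2 ^ E * (C₁ * (e / lamb / η)))
    (hC4 : C4 = (G0 ^ J) ^ 4 * (2 * Real.exp (15 * (C₀ / η)) + 1)) :
    8 * C4 ≤ Real.exp (((A : ℝ) + 1) * Real.exp ((8 * κ₀ + 4 * C₁ + 60) * C₀)) := by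
  obtain ⟨X, hX⟩ : ∃ X : ℝ, X = 1 / η := ⟨_, rfl⟩
  have hX1 : 1 ≤ X := by
    rw [hX, le_div_iff₀ hη]
    linarith
  have hX0 : 0 < X := by linarith
  have hA0 : (0 : ℝ) ≤ A := Nat.cast_nonneg A
  have hJ0 : (0 : ℝ) ≤ J := Nat.cast_nonneg J
  have hJX : (J : ℝ) ≤ X := by
    rw [hX, le_div_iff₀ hη]
    linarith
  have hEX : (E : ℝ) ≤ ((A : ℝ) + 1) * X + 1 := by
    have h1 : (⌈((A : ℝ) + 1) / η⌉₊ : ℝ) < ((A : ℝ) + 1) / η + 1 :=
      Nat.ceil_lt_add_one (by positivity)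
    rw [hE, hX, mul_one_div]
    exact h1.le
  have hG00 : 0 ≤ G0 := by
    rw [hG0]
    positivity
  have hG : G0 ≤ Real.exp (((A : ℝ) + 1) * X + 1 + C₁ + X) := by
    have h1 : (2 : ℝ) ^ E ≤ Real.exp (((A : ℝ) + 1) * X + 1) := by
      have h2 : (2 : ℝ) ^ E ≤ Real.exp 1 ^ E := by
        apply pow_le_pow_left₀ (by norm_num)
        have := Real.add_one_le_exp (1 : ℝ)
        linarith
      refine h2.trans ?_
      rw [← Real.exp_nat_mul, mul_one]
      exact Real.exp_le_exp.2 hEX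
    have h2 : C₁ ≤ Real.exp C₁ := by
      have := Real.add_one_le_exp C₁
      linarith
    have h3 : e / lamb / η ≤ Real.exp X := by
      have h4 : e / lamb ≤ 1 := by
        rw [div_le_one (by linarith)]
        linarith
      have h5 : e / lamb / η ≤ X := by
        rw [hX]
        exact div_le_div_of_nonneg_right h4 hη.le
      have := Real.add_one_le_exp X
      linarith
    rw [hG0]
    calc (2 : ℝ) ^ E * (C₁ * (e / lamb / η)) ≤
          Real.exp (((A : ℝ) + 1) * X + 1) * (Real.exp C₁ * Real.exp X) := by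
          apply mul_le_mul h1 _ (by positivity) (Real.exp_nonneg _)
          exact mul_le_mul h2 h3 (by positivity) (Real.exp_nonneg _)
      _ = _ := by
          rw [← Real.exp_add, ← Real.exp_add]
          congr 1
          ring
  have hexpo0 : 0 ≤ ((A : ℝ) + 1) * X + 1 + C₁ + X := by positivity
  have hGJ : (G0 ^ J) ^ 4 ≤ Real.exp (4 * X * (((A : ℝ) + 1) * X + 1 + C₁ + X)) := by
    have h1 : (G0 ^ J) ^ 4 = G0 ^ (4 * J) := by
      rw [← pow_mul]
      congr 1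
      ring
    rw [h1]
    refine (pow_le_pow_left₀ hG00 hG _).trans ?_
    rw [← Real.exp_nat_mul]
    apply Real.exp_le_exp.2
    push_cast
    exact mul_le_mul_of_nonneg_right (by linarith) hexpo0
  have h3 : 2 * Real.exp (15 * (C₀ / η)) + 1 ≤ Real.exp (15 * C₀ * X + 2) := by
    have e1 : 15 * (C₀ / η) = 15 * C₀ * X := by
      rw [hX]
      ring
    rw [e1, Real.exp_add]
    have e2 : (1 : ℝ) ≤ Real.exp (15 * C₀ * X) := Real.one_le_exp (by positivity)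
    have e3 : (3 : ℝ) ≤ Real.exp 2 := by
      have := Real.add_one_le_exp (2 : ℝ)
      linarith
    nlinarith
  have h8 : (8 : ℝ) ≤ Real.exp 3 := by
    have e1 : (2 : ℝ) ≤ Real.exp 1 := by
      have := Real.add_one_le_exp (1 : ℝ)
      linarith
    calc (8 : ℝ) = 2 ^ 3 := by norm_num
      _ ≤ Real.exp 1 ^ 3 := pow_le_pow_left₀ (by norm_num) e1 3
      _ = Real.exp 3 := by
          rw [← Real.exp_nat_mul]
          norm_num
  have hstep : 8 * C4 ≤ Real.exp (3 + (4 * X * (((A : ℝ) + 1) * X + 1 + C₁ + X) +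
      (15 * C₀ * X + 2))) := by
    rw [hC4, Real.exp_add, Real.exp_add]
    apply mul_le_mul h8 _ (by positivity) (Real.exp_nonneg _)
    exact mul_le_mul hGJ h3 (by positivity) (Real.exp_nonneg _)
  refine hstep.trans (Real.exp_le_exp.2 ?_)
  -- the exponent
  obtain ⟨Y, hY⟩ : ∃ Y : ℝ, Y = ((A : ℝ) + 1) * C₀ * X ^ 2 := ⟨_, rfl⟩
  have hA1 : (1 : ℝ) ≤ (A : ℝ) + 1 := by linarith
  have hX2 : X ≤ X ^ 2 := le_self_pow₀ hX1 (by norm_num)
  have hX21 : 1 ≤ X ^ 2 := one_le_pow₀ hX1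
  have hAC : 1 ≤ ((A : ℝ) + 1) * C₀ := one_le_mul_of_one_le_of_one_le hA1 hC₀
  have y1 : ((A : ℝ) + 1) * X ^ 2 ≤ Y := by
    rw [hY]
    have : ((A : ℝ) + 1) ≤ ((A : ℝ) + 1) * C₀ := le_mul_of_one_le_right (by linarith) hC₀
    exact mul_le_mul_of_nonneg_right this (by positivity)
  have y2 : X ^ 2 ≤ Y := by
    rw [hY]
    exact le_mul_of_one_le_left (by positivity) hAC
  have y3 : X ≤ Y := hX2.trans y2
  have y4 : C₀ * X ≤ Y := by
    rw [hY]
    have h1 : C₀ ≤ ((A : ℝ) + 1) * C₀ := le_mul_of_one_le_left (by linarith) hA1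
    exact mul_le_mul h1 hX2 hX0.le (by positivity)
  have y5 : 1 ≤ Y := hX21.trans y2
  have hexpo : 3 + (4 * X * (((A : ℝ) + 1) * X + 1 + C₁ + X) + (15 * C₀ * X + 2)) ≤
      (4 * C₁ + 32) * Y := by
    have e1 : 3 + (4 * X * (((A : ℝ) + 1) * X + 1 + C₁ + X) + (15 * C₀ * X + 2)) =
        4 * (((A : ℝ) + 1) * X ^ 2) + 4 * X + 4 * C₁ * X + 4 * X ^ 2 + 15 * (C₀ * X) + 5 := by
      ring
    rw [e1]
    have e2 : 4 * C₁ * X ≤ 4 * C₁ * Y := mul_le_mul_of_nonneg_left y3 (by linarith)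
    linarith
  refine hexpo.trans ?_
  have hX3 : X ^ 2 ≤ Real.exp (2 * κ₀ * C₀) := by
    have h1 : X ≤ Real.exp (κ₀ * C₀) := by
      rw [hX, div_le_iff₀ hη]
      calc (1 : ℝ) = Real.exp (κ₀ * C₀) * Real.exp (-(κ₀ * C₀)) := by
            rw [← Real.exp_add]
            simp
        _ ≤ _ := mul_le_mul_of_nonneg_left hηκ (Real.exp_nonneg _)
    calc X ^ 2 ≤ Real.exp (κ₀ * C₀) ^ 2 := pow_le_pow_left₀ hX0.le h1 2
      _ = _ := by
          rw [← Real.exp_nat_mul]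
          congr 1
          push_cast
          ring
  have hC3 : C₀ ≤ Real.exp C₀ := by
    have := Real.add_one_le_exp C₀
    linarith
  have hC13 : 4 * C₁ + 32 ≤ Real.exp ((4 * C₁ + 32) * C₀) := by
    have h1 := Real.add_one_le_exp ((4 * C₁ + 32) * C₀)
    have h2 : 4 * C₁ + 32 ≤ (4 * C₁ + 32) * C₀ := le_mul_of_one_le_right (by linarith) hC₀
    linarith
  calc (4 * C₁ + 32) * Y = ((A : ℝ) + 1) * ((4 * C₁ + 32) * (C₀ * X ^ 2)) := by
        rw [hY]
        ring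
    _ ≤ ((A : ℝ) + 1) * (Real.exp ((4 * C₁ + 32) * C₀) * (Real.exp C₀ * Real.exp (2 * κ₀ * C₀))) := by
        apply mul_le_mul_of_nonneg_left _ (by linarith)
        apply mul_le_mul hC13 _ (by positivity) (Real.exp_nonneg _)
        exact mul_le_mul hC3 hX3 (by positivity) (Real.exp_nonneg _)
    _ ≤ _ := by
        apply mul_le_mul_of_nonneg_left _ (by linarith)
        rw [← Real.exp_add, ← Real.exp_add]
        apply Real.exp_le_exp.2
        have h1 : 0 ≤ κ₀ * C₀ := by positivity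
        nlinarith

/-- The engine for positive proportion in one class modulo `W`, uniform. -/
theorem edU : ∃ κ : ℝ, 60 ≤ κ ∧ ∃ L₀ : ℝ, ∀ L : ℝ, L₀ ≤ L → ∀ (A : ℕ) (C₀ : ℝ), 1 ≤ C₀ →
    κ * A ≤ Real.log L → κ * C₀ ≤ Real.log L →
    ∃ η : ℝ, 0 < η ∧ Real.exp (-(κ * C₀)) ≤ η ∧ L ^ 4 ≤ Real.exp (η * L) ∧
    ∀ m W b : ℕ, 1 ≤ m → Real.log m ≤ A * L → 1 ≤ W → 1 ≤ b →
    (W : ℝ) ^ 8 ≤ Real.exp L →
    W.Coprime m → (∀ p : ℕ, p.Prime → p ∣ W → (p : ℝ) ≤ L ^ 4) →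
    ∀ S : Finset ℕ, (∀ k ∈ S, (k : ℝ) ≤ L ^ 2) →
    S.card * VS (SPr m L (Real.exp (η * L))) 1 ≤ C₀ / η →
    (b : ℝ) + Real.exp L ≤ Real.exp (A * L) →
    Real.exp (-(((A : ℝ) + 1) * Real.exp (κ * C₀))) * (Real.exp L / W * ((m.totient : ℝ) / m)) ≤
      ((gx m W b ⌊Real.exp L / W⌋₊ L S).card : ℝ) := by
  classical
  have hNN := NNd.nn
  have hEXP := expd
  have hVUP := vup
  have hVLO := VLOd.vlo NNd.nn
  have hMOM := stmtMOM
  have hLOC := loc
  have hGB := stmtGB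
  obtain ⟨c, hc, hSIG⟩ := sigU
  obtain ⟨C₁, hC₁, hG0⟩ := g0_bound
  obtain ⟨e, he⟩ : ∃ e : ℝ, e = 1 / 10 ^ 6 := ⟨_, rfl⟩
  have he0 : 0 < e := by rw [he]; norm_num
  have he1 : e ≤ 1 := by rw [he]; norm_num
  obtain ⟨κ₀, hκ₀, hpar⟩ := paramsU hc he0
  obtain ⟨cV, hcV, hVSL⟩ := vslU
  obtain ⟨L₂, hBLK⟩ := blkU
  obtain ⟨L₄, hOM⟩ := omu
  obtain ⟨L₅, hlogs⟩ := log_small
  refine ⟨8 * κ₀ + 4 * C₁ + 60, by linarith,
    max (max L₂ L₄) (max L₅ (max (cV ^ 2) (1 / cV ^ 2))), fun L hL A C₀ hC₀1 hκA hκC => ?_⟩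
  have e11 : L₂ ≤ L := (le_max_left _ _).trans ((le_max_left _ _).trans hL)
  have e9 : L₄ ≤ L := (le_max_right _ _).trans ((le_max_left _ _).trans hL)
  have hL5 : L₅ ≤ L := (le_max_left _ _).trans ((le_max_right _ _).trans hL)
  have hLc1 : cV ^ 2 ≤ L :=
    (le_max_left _ _).trans ((le_max_right _ _).trans ((le_max_right _ _).trans hL))
  have hLc2 : 1 / cV ^ 2 ≤ L :=
    (le_max_right _ _).trans ((le_max_right _ _).trans ((le_max_right _ _).trans hL))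
  obtain ⟨hLbig, hlog26⟩ := hlogs L hL5
  have hL1 : 1 ≤ L := by linarith
  have hC₀ : 0 < C₀ := by linarith
  have hA0 : (0 : ℝ) ≤ A := Nat.cast_nonneg A
  obtain ⟨η, lamb, I, hηκ, hηe, hlamb, hI1, hI2, hI3, hI4⟩ := hpar C₀ hC₀1
  have hη : 0 < η := (Real.exp_pos _).trans_le hηκ
  have hη1 : η ≤ 1 := hηe.trans he1
  have hA60 : 60 * (A : ℝ) ≤ Real.log L := by
    have h1 : 0 ≤ (8 * κ₀ + 4 * C₁) * (A : ℝ) := by positivity
    linarith
  have h8κ : 8 * κ₀ * C₀ ≤ Real.log L := by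
    have h1 : 0 ≤ (4 * C₁ + 60) * C₀ := by positivity
    linarith
  have hC60 : C₀ ≤ Real.log L := by
    have h1 : 0 ≤ (8 * κ₀ + 4 * C₁ + 59) * C₀ := by positivity
    linarith
  have h8 : 1 ≤ η ^ 8 * L := by
    have h1 : Real.exp (-(κ₀ * C₀)) ^ 8 ≤ η ^ 8 := pow_le_pow_left₀ (Real.exp_nonneg _) hηκ 8
    have h2 : Real.exp (-(κ₀ * C₀)) ^ 8 = Real.exp (-(8 * κ₀ * C₀)) := by
      rw [← Real.exp_nat_mul]
      congr 1
      push_cast
      ring
    rw [h2] at h1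
    have h3 : L = Real.exp (Real.log L) := (Real.exp_log (by linarith)).symm
    calc (1 : ℝ) = Real.exp 0 := Real.exp_zero.symm
      _ ≤ Real.exp (-(8 * κ₀ * C₀) + Real.log L) := Real.exp_le_exp.2 (by linarith)
      _ = Real.exp (-(8 * κ₀ * C₀)) * L := by rw [Real.exp_add, Real.exp_log (by linarith)]
      _ ≤ η ^ 8 * L := mul_le_mul_of_nonneg_right h1 (by linarith)
  obtain ⟨a1, a2, a3, a4⟩ := eta_facts hη hη1 hL1 h8
  have hss : Real.sqrt L * Real.sqrt L = L := Real.mul_self_sqrt (by linarith)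
  have hs100 : 100 ≤ Real.sqrt L := Real.le_sqrt_of_sq_le (by linarith)
  have hlogL0 : 0 ≤ Real.log L := Real.log_nonneg hL1
  obtain ⟨J, hJ⟩ : ∃ J : ℕ, J = ⌊e / η⌋₊ := ⟨_, rfl⟩
  have hJ1 : (J : ℝ) * η ≤ e := by
    have h1 : (J : ℝ) ≤ e / η := by
      rw [hJ]
      exact Nat.floor_le (by positivity)
    rwa [le_div_iff₀ hη] at h1
  have hJ2 : e < ((J : ℝ) + 1) * η := by
    have h1 : e / η < (J : ℝ) + 1 := by
      rw [hJ]
      exact Nat.lt_floor_add_one _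
    rwa [div_lt_iff₀ hη] at h1
  have hJ0 : (0 : ℝ) ≤ J := Nat.cast_nonneg J
  obtain ⟨E, hE⟩ : ∃ E : ℕ, E = ⌈((A : ℝ) + 1) / η⌉₊ := ⟨_, rfl⟩
  obtain ⟨G0, hG0d⟩ : ∃ G0 : ℝ, G0 = 2 ^ E * (C₁ * (e / lamb / η)) := ⟨_, rfl⟩
  have hlamb0 : 0 < lamb := by linarith
  have hratio : 1 ≤ e / lamb / η := by
    rw [le_div_iff₀ hη, le_div_iff₀ hlamb0, one_mul]
    have h1 : (1 : ℝ) ≤ 2 ^ I := one_le_pow₀ (by norm_num)
    have h2 : 0 ≤ η * lamb := by positivity
    nlinarith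
  have hG01 : 1 ≤ G0 := by
    rw [hG0d]
    have h1 : (1 : ℝ) ≤ 2 ^ E := one_le_pow₀ (by norm_num)
    exact one_le_mul_of_one_le_of_one_le h1 (one_le_mul_of_one_le_of_one_le hC₁ hratio)
  obtain ⟨C4, hC4⟩ : ∃ C4 : ℝ, C4 = (G0 ^ J) ^ 4 * (2 * Real.exp (15 * (C₀ / η)) + 1) := ⟨_, rfl⟩
  have hC40 : 0 < C4 := by
    have : 0 < G0 := by linarith
    rw [hC4]
    positivity
  have hδ := delta_bound (κ₀ := κ₀) hC₀1 hC₁ hη hη1 he1 he0 hlamb hκ₀ hηκ hJ1 hE hG0d hC4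
  have hD : 1024 * C₀ / η * (J : ℝ) ^ 2 ≤ L ^ 2 := by
    obtain ⟨X, hX⟩ : ∃ X : ℝ, X = 1 / η := ⟨_, rfl⟩
    rw [← hX] at a1
    have hX0 : 0 ≤ X := by rw [hX]; positivity
    have hJX : (J : ℝ) ≤ e * X := by
      rw [hX, mul_one_div, le_div_iff₀ hη]
      exact hJ1
    have hJ2X : (J : ℝ) ^ 2 ≤ (e * X) ^ 2 := pow_le_pow_left₀ hJ0 hJX 2
    have e1 : 1024 * C₀ / η * (J : ℝ) ^ 2 = 1024 * C₀ * X * (J : ℝ) ^ 2 := by
      rw [hX]
      ring
    rw [e1]
    have hC₀s : C₀ ≤ Real.sqrt L := by linarith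
    calc 1024 * C₀ * X * (J : ℝ) ^ 2 ≤ 1024 * C₀ * X * (e * X) ^ 2 := by gcongr
      _ = (1024 * e ^ 2) * (C₀ * (X * X * X)) := by ring
      _ ≤ 1 * (Real.sqrt L * (Real.sqrt L * Real.sqrt L * Real.sqrt L)) := by
          apply mul_le_mul _ _ (by positivity) (by norm_num)
          · rw [he]
            norm_num
          · gcongr
      _ = L ^ 2 := by
          rw [one_mul]
          calc Real.sqrt L * (Real.sqrt L * Real.sqrt L * Real.sqrt L) =
              (Real.sqrt L * Real.sqrt L) * (Real.sqrt L * Real.sqrt L) := by ring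
            _ = L ^ 2 := by rw [hss]; ring
  obtain ⟨e1, e2, e3, e4, e5, e6, e7, e8⟩ :=
    largeU (J := J) hLbig hlog26 hη hη1 h8 (hJ1.trans he1) hD
  have hηκ' : Real.exp (-((8 * κ₀ + 4 * C₁ + 60) * C₀)) ≤ η := by
    refine le_trans (Real.exp_le_exp.2 ?_) hηκ
    have h1 : 0 ≤ (7 * κ₀ + 4 * C₁ + 60) * C₀ := by positivity
    linarith
  refine ⟨η, hη, hηκ', e3, ?_⟩
  intro m W b hm hmL hW hb hWL hWm hWp S hSk hSV hbL
  have hL0 : 0 < L := by linarith
  obtain ⟨z, hz⟩ : ∃ z : ℝ, z = Real.exp (η * L) := ⟨_, rfl⟩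
  obtain ⟨P, N, hd, hSS, hsum, hLV⟩ := hBLK L e11 η hη (700 * (J + 1)) m hm
  have hsL : Real.sqrt L ≤ L := by nlinarith
  have hVSL' := hVSL η hη J L hL1 (a1.trans hsL)
    (by
      have h1 : cV ≤ Real.sqrt L := Real.le_sqrt_of_sq_le hLc1
      calc cV / η = cV * (1 / η) := by ring
        _ ≤ Real.sqrt L * Real.sqrt L := mul_le_mul h1 a1 (by positivity) (Real.sqrt_nonneg _)
        _ = L := hss)
    (by linarith)
    (by
      rw [div_pow]
      refine le_trans ?_ hLc2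
      apply div_le_div_of_nonneg_right _ (by positivity)
      exact pow_le_one₀ hη.le hη1)
    m hm
  have hω := hOM L e9 A hA60 m hm hmL
  obtain ⟨B1, hB1⟩ : ∃ B1 : ℝ, B1 = e * L / lamb := ⟨_, rfl⟩
  have hB1I : 2 ^ I * (η * L) ≤ B1 := by
    rw [hB1, le_div_iff₀ hlamb0]
    calc 2 ^ I * (η * L) * lamb = (2 ^ I * (η * lamb)) * L := by ring
      _ ≤ e * L := by gcongr
  have hσ := hSIG η hη A I L hL1
    (by
      have h1 : 2 / η = 2 * (1 / η) := by ring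
      rw [h1]
      nlinarith)
    (by
      rw [div_le_iff₀ (by positivity)]
      have h1 : 8 * (A : ℝ) ≤ η ^ 2 * L := by linarith
      have h2 : 1 * (η ^ 2 * L) ≤ L * (η ^ 2) := le_of_eq (by ring)
      linarith)
    m hm hmL B1 hB1I
  have hlogz : Real.log z = η * L := by rw [hz, Real.log_exp]
  have hz0 : 0 < z := by rw [hz]; exact Real.exp_pos _
  have hzL : L ^ 4 ≤ z := by rw [hz]; exact e3
  have hL4 : (200 : ℝ) ^ 4 ≤ L ^ 4 := pow_le_pow_left₀ (by norm_num) e1 4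
  have hL4L : L ≤ L ^ 4 := le_self_pow₀ (by linarith) (by norm_num)
  have hL24 : L ^ 2 < L ^ 4 := pow_lt_pow_right₀ (by linarith) (by norm_num)
  have hz4 : 4 ≤ z := by
    have : (4 : ℝ) ≤ 200 ^ 4 := by norm_num
    linarith
  rw [← hz] at hSS hVSL' hσ hSV
  obtain ⟨Q, hQ⟩ : ∃ Q : Finset ℕ, Q = BPr m z (Real.exp B1) := ⟨_, rfl⟩
  have hB10 : 0 < B1 := by rw [hB1]; positivity
  have hηB1 : η * L ≤ B1 := by
    have h1 : (1 : ℝ) ≤ 2 ^ I := one_le_pow₀ (by norm_num)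
    have h2 : 0 ≤ η * L := by positivity
    exact (le_mul_of_one_le_left h2 h1).trans hB1I
  have hzR : z ≤ Real.exp B1 := by
    rw [hz]
    exact Real.exp_le_exp.2 hηB1
  have hexpB1 : 0 ≤ Real.exp B1 := Real.exp_nonneg _
  have hSSm : ∀ l ∈ SS P N, l.Prime ∧ L ^ 4 < (l : ℝ) ∧ ¬ l ∣ m ∧ (l : ℝ) ≤ z := by
    intro l hl
    rw [hSS] at hl
    exact mem_SPr hz0.le hl
  have hQm : ∀ l ∈ Q, l.Prime ∧ z < (l : ℝ) ∧ ¬ l ∣ m ∧ (l : ℝ) ≤ Real.exp B1 := by
    intro l hl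
    rw [hQ] at hl
    exact mem_BPr hexpB1 hl
  have hkL4 : ∀ k ∈ S, (k : ℝ) < L ^ 4 := fun k hk => (hSk k hk).trans_lt hL24
  have hcardS : (S.card : ℝ) ≤ L ^ 2 + 1 := by
    have h1 : S ⊆ range (⌊L ^ 2⌋₊ + 1) := by
      intro k hk
      rw [mem_range]
      have := Nat.le_floor (hSk k hk)
      omega
    have h2 := card_le_card h1
    rw [card_range] at h2
    have h3 : (S.card : ℝ) ≤ (⌊L ^ 2⌋₊ : ℝ) + 1 := by exact_mod_cast h2
    have h4 : (⌊L ^ 2⌋₊ : ℝ) ≤ L ^ 2 := Nat.floor_le (by positivity)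
    linarith
  have hS0 : (0 : ℝ) ≤ S.card := Nat.cast_nonneg _
  obtain ⟨lam, hlam⟩ : ∃ lam : {l // l ∈ Q} → ℝ,
      lam = fun i : {l // l ∈ Q} => Real.log ((i : ℕ) : ℝ) := ⟨_, rfl⟩
  obtain ⟨q, hq⟩ : ∃ q : {l // l ∈ Q} → ℝ, q = fun i : {l // l ∈ Q} => ((i : ℕ) : ℝ) - 1 :=
    ⟨_, rfl⟩
  obtain ⟨σ, hσd⟩ : ∃ σ : ℝ, σ = ∑ T, s0 lam q B1 T := ⟨_, rfl⟩
  have hσ2 : (c * I - 1) / (η * L) ≤ σ := by
    rw [hσd, hlam, hq]
    subst hQ
    exact hσ
  have hcI : 0 < c * I - 1 := by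
    have : 0 < 8 * C₀ / e := by positivity
    linarith
  have hcI1 : 1 ≤ c * I - 1 := by
    have : 0 < 8 * C₀ / e := by positivity
    linarith
  have hσ0 : 0 < σ := lt_of_lt_of_le (by positivity) hσ2
  have ha1 : 1 / σ ≤ η * L / (c * I - 1) := by
    rw [div_le_div_iff₀ hσ0 hcI, one_mul]
    rw [div_le_iff₀ (by positivity)] at hσ2
    linarith
  have ha2 : 1 / σ ≤ Real.log z := by
    rw [hlogz]
    refine ha1.trans ?_
    exact div_le_self (by positivity) hcI1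
  -- the range
  obtain ⟨n, hn⟩ : ∃ n : ℕ, n = ⌊Real.exp L / W⌋₊ := ⟨_, rfl⟩
  obtain ⟨M, hM⟩ : ∃ M : ℝ, M = (n : ℝ) * ((m.totient : ℝ) / m) := ⟨_, rfl⟩
  obtain ⟨hn0, hn1, hM0, hωM⟩ := num_om e1 hm hW hWL hn hω hM
  -- the level
  obtain ⟨bb, hbb⟩ : ∃ bb : ℕ → ℕ, bb = fun j => 700 * (J + 1) + j := ⟨_, rfl⟩
  rw [← hbb] at hLV
  have hLV0 : 0 ≤ LV P bb N := by
    unfold LV
    apply Finset.prod_nonneg
    intro j _
    have : 0 ≤ ∑ l ∈ P j, (l : ℝ) := Finset.sum_nonneg fun l _ => Nat.cast_nonneg l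
    positivity
  have hLV1 : LV P bb N ≤ Real.exp (L / 80) := by
    refine hLV.trans (Real.exp_le_exp.2 (num_lv hL0 ?_ ?_))
    · rw [← he]
      exact hηe
    · rw [← he]
      exact hJ1
  have hLV2 : LV P bb N ^ 2 ≤ Real.exp (L / 40) := by
    have h1 := pow_le_pow_left₀ hLV0 hLV1 2
    refine h1.trans (le_of_eq ?_)
    rw [← Real.exp_nat_mul]
    congr 1
    push_cast
    ring
  have hLV4 : LV P bb N ^ 4 ≤ Real.exp (L / 20) := by
    have h1 := pow_le_pow_left₀ hLV0 hLV1 4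
    refine h1.trans (le_of_eq ?_)
    rw [← Real.exp_nat_mul]
    congr 1
    push_cast
    ring
  obtain ⟨V1, hV1⟩ : ∃ V1 : ℝ, V1 = VS (SS P N) 1 := ⟨_, rfl⟩
  have hV10 : 0 ≤ V1 := by
    rw [hV1]
    apply VS_nonneg
    intro l hl
    exact (hSSm l hl).1.one_le
  have hVK : V1 * S.card ≤ C₀ / η := by
    rw [hV1, hSS, mul_comm]
    exact hSV
  have hVK0 : 0 ≤ V1 * S.card := by positivity
  have hz1 : 1 ≤ z := by linarith
  have hzinv : 1 / z = Real.exp (-(η * L)) := by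
    rw [hz, Real.exp_neg, one_div]
  have key := edcore hNN hEXP hVUP hVLO hMOM hLOC hGB P bb N m W b n J Q S z (1 / σ) (e * L) B1
    (1 / L ^ (3 * J)) G0 lam q hlam hq hm hW hn0 hWm hd
    (by
      intro l hl
      obtain ⟨g1, g2, g3, g4⟩ := hSSm l hl
      refine ⟨g1, g3, fun h => absurd (hWp l g1 h) (not_le.2 g2), ?_⟩
      have h1 : ((16 * J + 16 : ℕ) : ℝ) ≤ l := by
        push_cast
        linarith
      exact_mod_cast h1)
    (by
      intro k hk l hl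
      have h1 := (hSSm l hl).2.1
      have h2 : (k : ℝ) < l := (hkL4 k hk).trans h1
      exact_mod_cast h2)
    (by
      intro l hl
      obtain ⟨g1, g2, g3, g4⟩ := hQm l hl
      exact ⟨g1, g3, fun h => absurd (hWp l g1 h) (not_le.2 (hzL.trans_lt g2))⟩)
    (by
      intro k hk l hl
      have h1 := (hQm l hl).2.1
      have h2 : (k : ℝ) < l := (hkL4 k hk).trans (hzL.trans_lt h1)
      exact_mod_cast h2)
    (by
      rw [Finset.disjoint_left]
      intro l h1 h2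
      exact absurd (hSSm l h1).2.2.2 (not_le.2 (hQm l h2).2.1))
    hsum
    (by
      intro j _
      rw [hbb])
    hz4 (fun l hl => (hQm l hl).2.1) (by positivity) ha2 hB10 (by positivity)
    (by
      rw [← hσd]
      field_simp)
    (by
      rw [hlogz]
      calc e * L < (((J : ℝ) + 1) * η) * L := by gcongr
        _ = _ := by ring)
    (by positivity)
    (by
      intro j hj
      rw [hSS]
      exact hVSL' j hj)
    (by
      rw [div_eq_mul_one_div, hzinv]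
      refine le_trans ?_ e4
      gcongr)
    (by
      rw [← hV1]
      exact num_h1 hVK0 hC₀ hη hVK hL0 hz1 hzinv ha1 he0 hlamb0 hB1 hI2 hI3 e5)
    (by
      rw [← hM]
      exact num_h2 hcardS e1 hM0 (by positivity) hωM (by positivity) hLV2 he e6)
    (num_h3 hS0 hcardS hL0 hz0 hzinv e7)
    (by
      rw [← hM]
      exact num_h4 hS0 hcardS e1 hM0 (by positivity) hωM (by positivity) hLV4 e8)
    hG01
    (by
      intro k hk x hx
      rw [hQ]
      refine (hG0 m k (b + W * x) z (Real.exp B1) (by linarith) hzR).trans ?_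
      rw [hG0d, Real.log_exp, hlogz]
      have h1 : B1 / (η * L) = e / lamb / η := by
        rw [hB1]
        field_simp
      rw [h1]
      apply mul_le_mul_of_nonneg_right _ (by positivity)
      apply pow_le_pow_right₀ (by norm_num)
      have hnn : 1 ≤ b + W * x + k * m := by
        have := Nat.zero_le (W * x + k * m)
        omega
      have h2 := few_dvd (Q := BPr m z (Real.exp B1)) (z := z) (by linarith)
        (fun l hl => ⟨(mem_BPr hexpB1 hl).1, (mem_BPr hexpB1 hl).2.1⟩) hnn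
      rw [hlogz] at h2
      have h3 := num_log e1 hm hW hmL hb (hSk k hk) hbL hn hx
      have h4 : (((BPr m z (Real.exp B1)).filter
          (fun l => l ∣ b + W * x + k * m)).card : ℝ) ≤ (A + 1) / η := by
        rw [le_div_iff₀ hη]
        have h5 : (((BPr m z (Real.exp B1)).filter
          (fun l => l ∣ b + W * x + k * m)).card : ℝ) * η * L ≤ (A + 1) * L := by
          calc _ = (((BPr m z (Real.exp B1)).filter
              (fun l => l ∣ b + W * x + k * m)).card : ℝ) * (η * L) := by ring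
            _ ≤ _ := h2.trans h3
        exact le_of_mul_le_mul_right h5 hL0
      have h5 : (((BPr m z (Real.exp B1)).filter
          (fun l => l ∣ b + W * x + k * m)).card : ℝ) ≤ (E : ℝ) := by
        rw [hE]
        exact h4.trans (Nat.le_ceil _)
      exact_mod_cast h5)
  rw [← hM, ← hV1] at key
  have hsub : (range n).filter (fun x => (b + W * x).Coprime m ∧
      ∀ k ∈ S, ∃ l ∈ SS P N ∪ Q, l ∣ (b + W * x) + k * m) ⊆ gx m W b n L S := by
    intro x hx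
    rw [gx, mem_filter]
    rw [mem_filter] at hx
    refine ⟨hx.1, hx.2.1, fun k hk => ?_⟩
    obtain ⟨l, hl, hdvd⟩ := hx.2.2 k hk
    rw [mem_union] at hl
    rcases hl with hl | hl
    · obtain ⟨g1, g2, g3, g4⟩ := hSSm l hl
      refine ⟨l, g1, g3, g4.trans ?_, hdvd⟩
      rw [hz]
      apply Real.exp_le_exp.2
      have h3 : η ≤ 1 / 100 := by
        refine hηe.trans ?_
        rw [he]
        norm_num
      calc η * L ≤ 1 / 100 * L := mul_le_mul_of_nonneg_right h3 hL0.le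
        _ = L / 100 := by ring
    · obtain ⟨g1, g2, g3, g4⟩ := hQm l hl
      refine ⟨l, g1, g3, g4.trans ?_, hdvd⟩
      apply Real.exp_le_exp.2
      have h3 : e ≤ 1 / 100 := by
        rw [he]
        norm_num
      rw [hB1]
      calc e * L / lamb ≤ e * L := div_le_self (by positivity) hlamb
        _ ≤ 1 / 100 * L := mul_le_mul_of_nonneg_right h3 hL0.le
        _ = L / 100 := by ring
  have hcard : (((range n).filter (fun x => (b + W * x).Coprime m ∧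
      ∀ k ∈ S, ∃ l ∈ SS P N ∪ Q, l ∣ (b + W * x) + k * m)).card : ℝ) ≤
      ((gx m W b n L S).card : ℝ) := by
    exact_mod_cast card_le_card hsub
  have hW0 : (0 : ℝ) < W := by exact_mod_cast hW
  have hm0 : (0 : ℝ) < m := by exact_mod_cast hm
  have htot : (0 : ℝ) < m.totient := by exact_mod_cast Nat.totient_pos.2 hm
  have hKV : (S.card : ℝ) * V1 ≤ C₀ / η := by
    rw [mul_comm]
    exact hVK
  have hfin := num_fin (J := J) (Real.exp_pos L) hW0 (r := (m.totient : ℝ) / m) (by positivity)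
    hn1 hM hG01 hKV hC4
  rw [← hn]
  have hfin' : Real.exp (-(((A : ℝ) + 1) * Real.exp ((8 * κ₀ + 4 * C₁ + 60) * C₀))) *
      (Real.exp L / W * ((m.totient : ℝ) / m)) ≤ 1 / (8 * C4) * (Real.exp L / W *
        ((m.totient : ℝ) / m)) := by
    apply mul_le_mul_of_nonneg_right _ (by positivity)
    rw [Real.exp_neg, ← one_div]
    exact one_div_le_one_div_of_le (by positivity) hδ
  refine hfin'.trans (hfin.trans (le_trans ?_ hcard))
  exact_mod_cast key

end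

end Pool.Agent.UNI
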