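import Mathlib
import Pool.Agent.Lib_helper9.LG.Herr
import Pool.Agent.Lib_helper9.LG.Avg
import Pool.Agent.Lib_helper9.LG.Loc
import Pool.Agent.Lib_helper9.LG.Om
import Pool.Agent.Lib_helper9.LG.SigmaH2
import Pool.Agent.Lib_helper9.LG.Eng

set_option autoImplicit false

/-!
# The engine (from the files LP of helper72)
-/

namespace Pool.Agent.UNI

open Finset Filter Pool.Agent.Lib_helper9.LG

noncomputable section

theorem stmtE : StmtE := eng (herr avg loc) sigmaH2 om

end

end Pool.Agent.UNI
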