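import Mathlib
import Pool.Agent.UNI.B3
import Pool.Agent.UNI.B4

set_option autoImplicit false

/-!
The covering by the primes up to `y` which do not divide an ARBITRARY modulus `M`: classes `0` for the
primes in the interval (z, y], greedy choice for the primes up to `z`, for every `z`.
-/

namespace Pool.Agent.UNI

open Finset Filter BlockSieve

noncomputable section

/-- The reciprocal sum of the prime factors of `M` in the interval (z, y]. -/
def SG (M z : ℕ) (y : ℝ) : ℝ :=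
  ∑ p ∈ M.primeFactors.filter (fun p : ℕ => z < p ∧ (p : ℝ) ≤ y), (1 : ℝ) / p

/-- Conditions on `w`. -/
lemma ev_w (δ : ℝ) : ∀ᶠ w : ℝ in atTop, 3136 ≤ w ∧ 16 * (Real.log w) ≤ Real.sqrt w ∧
    Real.log w * (Real.log w + 1) ≤ Real.sqrt w ∧ 32 ≤ Real.log w ∧ -Real.log δ ≤ Real.log w := by
  have h1 := Real.isLittleO_log_id_atTop
  have h2 := h1.def (c := 1 / 32) (by norm_num)
  have h3 : ∀ᶠ x : ℝ in atTop, Real.log x ≤ x / 32 := by
    filter_upwards [h2, eventually_ge_atTop (1 : ℝ)] with x hx hx1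
    rw [Real.norm_eq_abs, abs_of_nonneg (Real.log_nonneg hx1), id, Real.norm_eq_abs,
      abs_of_nonneg (by linarith)] at hx
    linarith
  have h4 := Real.tendsto_sqrt_atTop.eventually h3
  have h5 : ∀ᶠ x : ℝ in atTop, 2 * x * (2 * x + 1) ≤ Real.exp x := by
    filter_upwards [eventually_ge_atTop (30 : ℝ)] with x hx1
    have h8 := Real.pow_div_factorial_le_exp x (by linarith) 3
    have h9 : ((Nat.factorial 3 : ℕ) : ℝ) = 6 := by norm_num [Nat.factorial]
    rw [h9] at h8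
    have h10 : 2 * x * (2 * x + 1) ≤ x ^ 3 / 6 := by
      have k1 : 30 * (x * x) ≤ x * (x * x) := mul_le_mul_of_nonneg_right hx1 (mul_self_nonneg x)
      have k2 : 30 * x ≤ x * x := mul_le_mul_of_nonneg_right hx1 (by linarith)
      have k3 : x ^ 3 = x * (x * x) := by ring
      have k4 : 2 * x * (2 * x + 1) = 4 * (x * x) + 2 * x := by ring
      rw [k3, k4]
      linarith
    linarith
  have t1 : Tendsto (fun w : ℝ => Real.log (Real.sqrt w)) atTop atTop :=
    Real.tendsto_log_atTop.comp Real.tendsto_sqrt_atTop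
  have h7 := t1.eventually h5
  filter_upwards [eventually_ge_atTop (3136 : ℝ), h4, h7,
    Real.tendsto_log_atTop.eventually_ge_atTop 32,
    Real.tendsto_log_atTop.eventually_ge_atTop (-Real.log δ)] with w g1 g2 g3 g4 g5
  have hw0 : 0 < w := by linarith
  have hs : 0 < Real.sqrt w := Real.sqrt_pos.2 hw0
  have e1 : 2 * Real.log (Real.sqrt w) = Real.log w := by
    rw [Real.log_sqrt hw0.le]
    ring
  rw [Real.exp_log hs, e1] at g3
  refine ⟨g1, ?_, g3, g4, g5⟩
  linarith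

lemma ax1 {v w r : ℝ} (h1 : 16 * v ≤ r) (h2 : r * r = w) (h3 : 56 ≤ r) :
    5 * v ≤ w ∧ r ≤ w := by
  have h4 : 56 * r ≤ r * r := mul_le_mul_of_nonneg_right h3 (by linarith)
  constructor
  · linarith
  · linarith

lemma ax2 {Λ v w s : ℝ} (h0 : 0 < w) (h1 : Λ ≤ w) (h2 : 1 ≤ v) (h3 : v * w ≤ s * (w * w)) :
    Λ ≤ w * w * s := by
  have h4 : 1 * w ≤ v * w := mul_le_mul_of_nonneg_right h2 h0.le
  linarith

lemma ax3 {u l : ℝ} (h0 : 0 < u) (h1 : l ≤ 2) : 0 ≤ 2 * u - u * l := by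
  have h2 := mul_nonneg h0.le (sub_nonneg.2 h1)
  linarith

lemma ax4 {e : ℝ} (h : 2 ≤ e) : 4 ≤ e * e := by nlinarith

lemma ax5 {w : ℝ} (h : 60 ≤ w) : 1 ≤ w ^ 2 := by nlinarith

lemma ax6 {v w : ℝ} (h : 60 ≤ w) (h1 : 32 ≤ v) : 1 ≤ v * w := by nlinarith

/-- The survivors of the covering, for an arbitrary modulus `M` and an arbitrary `z`. -/
theorem survivorsV : ∃ K : ℝ, 1 ≤ K ∧ ∀ δ : ℝ, 0 < δ → δ ≤ 1 → ∃ N₀ : ℕ, ∀ N : ℕ, N₀ ≤ N →
    60 ≤ Real.log (Real.log N) ∧ (yM 8 N : ℝ) ≤ Real.log N / 39 ∧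
    ∀ M : ℕ, 1 ≤ M → ∀ z : ℕ, Real.sqrt (Real.log (Real.log N)) ≤ Real.log z → z ≤ yM 8 N →
    ∀ s : ℝ, s ≤ 1 → Real.log (Real.log (Real.log N)) / Real.log (Real.log N) ≤ s →
    (s = 1 ∨ Real.exp (2 * (Real.log (Real.log N) / Real.log z) -
        Real.log (Real.log N) / Real.log z * Real.log (Real.log (Real.log N) / Real.log z)) +
      Real.log (Real.log (Real.log N)) / Real.log (Real.log N) + SG M z (yM 8 N) ≤ s) →
    (⌊δ * ((M.totient : ℝ) / M) * (Real.log N * Real.log z / s)⌋₊ : ℝ) ≤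
      Real.log N * Real.log (Real.log N) ^ 2 ∧
    ∃ a : ℕ → ℕ, (((Icc 1 ⌊δ * ((M.totient : ℝ) / M) * (Real.log N * Real.log z / s)⌋₊).filter
      (fun k => ∀ l ∈ pr (yM 8 N), ¬ l ∣ M → ¬ k ≡ a l [MOD l])).card : ℝ) ≤
        K * δ * Real.log N := by
  classical
  have hzth : 0 ≤ zth := by
    unfold zth
    apply tsum_nonneg
    intro i
    positivity
  obtain ⟨C', hC'⟩ : ∃ C' : ℝ, C' = 4 + 5 / 2 * zth := ⟨_, rfl⟩
  have hC'0 : 0 ≤ C' := by rw [hC']; positivity
  obtain ⟨K, hK⟩ : ∃ K : ℝ, K = 91 + 32 * Real.exp (C' + 1) := ⟨_, rfl⟩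
  have hK1 : 91 ≤ K := by
    rw [hK]
    have := Real.exp_pos (C' + 1)
    linarith
  refine ⟨K, by linarith, fun δ hδ hδ1 => ?_⟩
  have hev : ∀ᶠ N : ℕ in atTop, _ :=
    (Real.tendsto_log_atTop.comp tendsto_log_nat).eventually (ev_w δ)
  obtain ⟨M₁, hM₁⟩ := eventually_atTop.1 hev
  refine ⟨max M₁ (10 ^ 16), fun N hN => ?_⟩
  obtain ⟨g1, g2, g3, g4, g5⟩ := hM₁ N ((le_max_left _ _).trans hN)
  have hM1 : 10 ^ 16 ≤ N := (le_max_right _ _).trans hN
  have hM1' : 1 ≤ N := le_trans (by norm_num) hM1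
  clear hM1
  simp only [Function.comp] at g1 g2 g3 g4 g5
  obtain ⟨L, hL⟩ : ∃ L, L = Real.log (N : ℝ) := ⟨_, rfl⟩
  obtain ⟨w, hw⟩ : ∃ w, w = Real.log L := ⟨_, rfl⟩
  obtain ⟨v, hv⟩ : ∃ v, v = Real.log w := ⟨_, rfl⟩
  obtain ⟨y, hy⟩ : ∃ y, y = yM 8 N := ⟨_, rfl⟩
  rw [← hL, ← hw] at g1 g2 g3 g4 g5
  rw [← hv] at g2 g3 g4 g5
  rw [← hy, ← hL, ← hw, ← hv]
  have hw60 : 60 ≤ w := by linarith
  have hw0 : 0 < w := by linarith
  have hv0 : 0 < v := by linarith
  have hL0 : 0 ≤ L := by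
    rw [hL]
    exact Real.log_nonneg (by exact_mod_cast hM1')
  have hLpos : 0 < L := by
    rcases hL0.lt_or_eq with h | h
    · exact h
    · exfalso
      rw [← h, Real.log_zero] at hw
      linarith
  have hwL : w ≤ L - 1 := by
    rw [hw]
    exact Real.log_le_sub_one_of_pos hLpos
  have hsw : 0 < Real.sqrt w := Real.sqrt_pos.2 hw0
  have hssw : Real.sqrt w * Real.sqrt w = w := Real.mul_self_sqrt hw0.le
  have hs56 : 56 ≤ Real.sqrt w := Real.le_sqrt_of_sq_le (by linarith)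
  have h5v := (ax1 g2 hssw hs56).1
  have hsqw := (ax1 g2 hssw hs56).2
  have h2v : 2 * v ≤ w := by linarith
  have hy' : y = ⌊L / (3 * (13 : ℝ))⌋₊ := by
    rw [hy, yM, hL]
    norm_num
  obtain ⟨hy2, hy3, hlogy1, hlogy2⟩ :=
    y_facts (by norm_num) hLpos hw hv (by linarith) (by linarith) h2v hy'
  have hlogy0 : 0 < Real.log y := by linarith
  have hyle : (y : ℝ) ≤ L / 39 := by
    rw [hy']
    refine (Nat.floor_le (by positivity)).trans (le_of_eq ?_)
    norm_num
  refine ⟨hw60, hyle, ?_⟩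
  intro M hMpos z hz1 hzy s hs1 hvs hor
  have hM0 : 0 < M := hMpos
  obtain ⟨Λ, hΛ⟩ : ∃ Λ : ℝ, Λ = Real.log z := ⟨_, rfl⟩
  rw [← hΛ] at hz1 hor ⊢
  have hΛ0 : 0 < Λ := by linarith
  have hs0 : 0 < s := lt_of_lt_of_le (by positivity) hvs
  have hz0 : (0 : ℝ) < z := by
    rcases Nat.eq_zero_or_pos z with h | h
    · rw [h, Nat.cast_zero, Real.log_zero] at hΛ
      linarith
    · exact_mod_cast h
  have hz2 : 2 ≤ z := by
    by_contra hcon
    have h1 : z ≤ 1 := by omega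
    have h2 : (z : ℝ) ≤ 1 := by exact_mod_cast h1
    have h3 := Real.log_nonpos hz0.le h2
    linarith
  have hΛw : Λ ≤ w := by
    rw [hΛ]
    refine le_trans ?_ hlogy1
    exact Real.log_le_log hz0 (by exact_mod_cast hzy)
  obtain ⟨R, hRdef⟩ : ∃ R, R = (M.totient : ℝ) / M := ⟨_, rfl⟩
  have hR1 : R ≤ 1 := by
    rw [hRdef, div_le_one (by exact_mod_cast hM0)]
    exact_mod_cast Nat.totient_le M
  have hR0 : 0 < R := by
    rw [hRdef]
    have h1 : (0 : ℝ) < M.totient := by exact_mod_cast Nat.totient_pos.2 hM0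
    have h2 : (0 : ℝ) < M := by exact_mod_cast hM0
    positivity
  obtain ⟨X, hX⟩ : ∃ X, X = δ * R * (L * Λ / s) := ⟨_, rfl⟩
  rw [← hRdef, ← hX]
  have hX0 : 0 ≤ X := by rw [hX]; positivity
  -- the size of `X`
  have hΛs : Λ / s ≤ w * w := by
    rw [div_le_iff₀ hs0]
    have h1 : v / w * (w * w) ≤ s * (w * w) := mul_le_mul_of_nonneg_right hvs (by positivity)
    have h2 : v / w * (w * w) = v * w := by field_simp
    rw [h2] at h1
    exact ax2 hw0 hΛw (by linarith) h1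
  have hXle : X ≤ L * w ^ 2 := by
    rw [hX]
    calc δ * R * (L * Λ / s) = (δ * R) * (L * (Λ / s)) := by ring
      _ ≤ (1 * 1) * (L * (w * w)) := by gcongr
      _ = _ := by ring
  obtain ⟨T, hT⟩ : ∃ T : ℕ, T = ⌊X⌋₊ := ⟨_, rfl⟩
  have hTX : (T : ℝ) ≤ X := by rw [hT]; exact Nat.floor_le hX0
  rw [← hT]
  refine ⟨hTX.trans hXle, ?_⟩
  -- the product over the small primes
  have hprod : ∏ l ∈ pr z, (1 - (1 : ℝ) / l) ≤ 1 / Λ := by
    have h1 := log_le_prod z
    rw [Finset.prod_inv_distrib] at h1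
    have h2 : 0 < ∏ p ∈ pr z, (1 - (1 : ℝ) / p) := Finset.prod_pos fun p hp => one_sub_pos hp
    rw [le_div_iff₀ hΛ0]
    have h3 : Λ ≤ (∏ p ∈ pr z, (1 - (1 : ℝ) / p))⁻¹ := by
      refine le_trans ?_ h1
      rw [hΛ]
      exact Real.log_le_log hz0 (by linarith)
    rw [mul_comm]
    calc Λ * ∏ p ∈ pr z, (1 - (1 : ℝ) / p) ≤
          (∏ p ∈ pr z, (1 - (1 : ℝ) / p))⁻¹ * ∏ p ∈ pr z, (1 - (1 : ℝ) / p) := by gcongr
      _ = 1 := inv_mul_cancel₀ h2.ne'
  have hprodM := prod_coprime_le hM0 hΛ0 hprod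
  rw [← hRdef] at hprodM
  -- the sieved set
  obtain ⟨S₀, hS₀⟩ : ∃ S₀, S₀ =
    (Icc 1 T).filter (fun k => ∀ l ∈ (pr y \ pr z).filter (fun l => ¬ l ∣ M), ¬ l ∣ k) := ⟨_, rfl⟩
  have hS₀T : (S₀.card : ℝ) ≤ T := by
    have h1 : S₀.card ≤ T := by
      rw [hS₀]
      refine (Finset.card_filter_le _ _).trans ?_
      rw [Nat.card_Icc]
      omega
    exact_mod_cast h1
  obtain ⟨a, ha⟩ := greedy S₀ ((pr z).filter (fun l => ¬ l ∣ M))
    (fun l hl => (mem_pr.1 (mem_filter.1 hl).1).1.pos)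
  refine ⟨fun l => if l ∈ pr z then a l else 0, ?_⟩
  have hsub2 : (Icc 1 T).filter (fun k => ∀ l ∈ pr y, ¬ l ∣ M →
      ¬ k ≡ (if l ∈ pr z then a l else 0) [MOD l]) ⊆
      S₀.filter (fun s => ∀ l ∈ (pr z).filter (fun l => ¬ l ∣ M), ¬ s ≡ a l [MOD l]) := by
    intro k hk
    rw [mem_filter] at hk
    rw [mem_filter, hS₀, mem_filter]
    refine ⟨⟨hk.1, ?_⟩, ?_⟩
    · intro l hl hlk
      rw [mem_filter, Finset.mem_sdiff] at hl
      have h1 := hk.2 l hl.1.1 hl.2
      rw [if_neg hl.1.2] at h1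
      exact h1 ((Nat.modEq_zero_iff_dvd).2 hlk)
    · intro l hl
      rw [mem_filter] at hl
      have h0 : l ∈ pr y := by
        rw [mem_pr] at hl ⊢
        exact ⟨hl.1.1, hl.1.2.trans hzy⟩
      have h1 := hk.2 l h0 hl.2
      rwa [if_pos hl.1] at h1
  have hP0 : 0 ≤ ∏ l ∈ (pr z).filter (fun l => ¬ l ∣ M), (1 - (1 : ℝ) / l) :=
    Finset.prod_nonneg fun p hp => (one_sub_pos (mem_filter.1 hp).1).le
  have hP1 : ∏ l ∈ (pr z).filter (fun l => ¬ l ∣ M), (1 - (1 : ℝ) / l) ≤ 1 := by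
    apply Finset.prod_le_one
    · intro p hp
      exact (one_sub_pos (mem_filter.1 hp).1).le
    · intro p _
      have : (0 : ℝ) ≤ 1 / p := by positivity
      linarith
  refine (show _ ≤ ((S₀.filter (fun s => ∀ l ∈ (pr z).filter (fun l => ¬ l ∣ M),
        ¬ s ≡ a l [MOD l])).card : ℝ) by exact_mod_cast Finset.card_le_card hsub2).trans
    (ha.trans ?_)
  -- trivial case
  rcases le_or_gt (T : ℝ) (δ * L) with hTδ | hTδ
  · calc (S₀.card : ℝ) * ∏ l ∈ (pr z).filter (fun l => ¬ l ∣ M), (1 - (1 : ℝ) / l) ≤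
          T * 1 := by gcongr
      _ ≤ 1 * (δ * L) := by linarith
      _ ≤ K * (δ * L) := by gcongr; linarith
      _ = K * δ * L := by ring
  -- the main bound suffices
  suffices hmain : (S₀.card : ℝ) ≤ K * (X * s) by
    calc (S₀.card : ℝ) * ∏ l ∈ (pr z).filter (fun l => ¬ l ∣ M), (1 - (1 : ℝ) / l) ≤
          K * (X * s) * ∏ l ∈ (pr z).filter (fun l => ¬ l ∣ M), (1 - (1 : ℝ) / l) :=
          mul_le_mul_of_nonneg_right hmain hP0
      _ = K * (δ * (L * Λ)) *
          ((∏ l ∈ (pr z).filter (fun l => ¬ l ∣ M), (1 - (1 : ℝ) / l)) * R) := by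
          rw [hX]
          field_simp
      _ ≤ K * (δ * (L * Λ)) * (1 / Λ) := by gcongr
      _ = K * δ * L := by
          field_simp
  have hT0 : (0 : ℝ) < T := lt_trans (by positivity) hTδ
  rcases hor with hs | hs
  · rw [hs, mul_one]
    calc (S₀.card : ℝ) ≤ X := hS₀T.trans hTX
      _ ≤ K * X := le_mul_of_one_le_left hX0 (by linarith)
  rcases eq_or_lt_of_le hs1 with hs1' | hs1'
  · rw [hs1', mul_one]
    calc (S₀.card : ℝ) ≤ X := hS₀T.trans hTX
      _ ≤ K * X := le_mul_of_one_le_left hX0 (by linarith)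
  obtain ⟨u, hu⟩ : ∃ u : ℝ, u = w / Λ := ⟨_, rfl⟩
  rw [← hu] at hs
  have huΛ : u * Λ = w := by rw [hu]; field_simp
  have hσ0 : 0 ≤ SG M z y := by
    unfold SG
    exact Finset.sum_nonneg fun p _ => by positivity
  have hvw0 : 0 < v / w := by positivity
  have hE1 : Real.exp (2 * u - u * Real.log u) < 1 := by linarith
  have hu0 : 0 < u := by rw [hu]; positivity
  have hlogu2 : 2 < Real.log u := by
    by_contra hcon
    push Not at hcon
    have h1 : 0 ≤ 2 * u - u * Real.log u := ax3 hu0 hcon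
    have h2 := Real.one_le_exp h1
    linarith
  have hu4 : 4 < u := by
    have h1 : Real.exp 2 < u := by
      rw [← Real.exp_log hu0]
      exact Real.exp_lt_exp.2 hlogu2
    have h2 : (4 : ℝ) ≤ Real.exp 2 := by
      have h3 : Real.exp 2 = Real.exp 1 * Real.exp 1 := by
        rw [← Real.exp_add]
        norm_num
      have h4 : (2 : ℝ) ≤ Real.exp 1 := by
        have := Real.add_one_le_exp (1 : ℝ)
        linarith
      rw [h3]
      exact ax4 h4
    linarith
  have huw : u ≤ Real.sqrt w := by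
    rw [hu, div_le_iff₀ hΛ0]
    calc w = Real.sqrt w * Real.sqrt w := hssw.symm
      _ ≤ _ := mul_le_mul_of_nonneg_left hz1 hsw.le
  have hloguv : Real.log u ≤ v := by
    rw [hv]
    exact Real.log_le_log hu0 (huw.trans hsqw)
  -- the logarithm of `T`
  have hlogT : w - v ≤ Real.log T := by
    have h1 := Real.log_le_log (by positivity) hTδ.le
    rw [Real.log_mul hδ.ne' hLpos.ne', ← hw] at h1
    linarith
  obtain ⟨u', hu'⟩ : ∃ u' : ℝ, u' = (w - v) / Λ := ⟨_, rfl⟩
  have hu'Λ : u' * Λ = w - v := by rw [hu']; field_simp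
  have huu' : u' = u - v / Λ := by rw [hu', hu]; ring
  have hvΛ : v / Λ ≤ 1 / 16 := by
    rw [div_le_iff₀ hΛ0]
    linarith
  have hvΛ0 : 0 < v / Λ := by positivity
  have hu'1 : 1 ≤ u' := by rw [huu']; linarith
  have hu'u : u' ≤ u := by rw [huu']; linarith
  have hu'0 : 0 < u' := by linarith
  have hlogu' : Real.log u' ≤ Λ / 4 := by
    have h1 : Real.log u' ≤ Real.log u := Real.log_le_log hu'0 hu'u
    linarith
  have hΛ4 : 4 ≤ Λ := by linarith
  have hsm := smooth_card_le (D := w ^ 2) (u := u') (T := T) hz2 hΛ.symm.le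
    (by rw [hΛ, Real.exp_log hz0]; linarith) hΛ4 hu'1 hlogu' (by rw [hu'Λ]; exact hlogT) (ax5 hw60)
    (by
      rw [hu'Λ, Real.log_pow, ← hv]
      push_cast
      linarith)
  have hexp : 2 * u' + C' - u' * Real.log u' ≤ (C' + 1) + (2 * u - u * Real.log u) := by
    -- `u log u - u' log u' ≤ (u - u') (log u + 1)`
    have h1 : u * Real.log u - u' * Real.log u' ≤ (v / Λ) * (Real.log u + 1) := by
      have h2 : Real.log u - Real.log u' ≤ u / u' - 1 := by
        rw [← Real.log_div hu0.ne' hu'0.ne']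
        exact Real.log_le_sub_one_of_pos (by positivity)
      have h3 : u' * (Real.log u - Real.log u') ≤ u - u' := by
        calc u' * (Real.log u - Real.log u') ≤ u' * (u / u' - 1) :=
              mul_le_mul_of_nonneg_left h2 hu'0.le
          _ = u - u' := by field_simp
      have h4 : u - u' = v / Λ := by rw [huu']; ring
      have h5 : u * Real.log u - u' * Real.log u' =
          (u - u') * Real.log u + u' * (Real.log u - Real.log u') := by ring
      rw [h5, h4]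
      rw [h4] at h3
      linarith
    have h6 : (v / Λ) * (Real.log u + 1) ≤ 1 := by
      rw [div_mul_eq_mul_div, div_le_one hΛ0]
      calc v * (Real.log u + 1) ≤ v * (v + 1) := by gcongr
        _ ≤ Real.sqrt w := g3
        _ ≤ Λ := hz1
    linarith
  have hsmooth : ((sm z T).card : ℝ) ≤ T * (v / w) +
      32 * Real.exp (C' + 1) * (T * Real.exp (2 * u - u * Real.log u)) := by
    have h4 : (T : ℝ) / w ^ 2 ≤ T * (v / w) := by
      rw [mul_div_assoc', div_le_div_iff₀ (by positivity) hw0]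
      have h5 : (1 : ℝ) ≤ v * w := ax6 hw60 g4
      calc (T : ℝ) * w = T * w * 1 := by ring
        _ ≤ T * w * (v * w) := by gcongr
        _ = _ := by ring
    rw [← hC'] at hsm
    have h5 : Real.exp (2 * u' + C' - u' * Real.log u') ≤
        Real.exp (C' + 1) * Real.exp (2 * u - u * Real.log u) := by
      rw [← Real.exp_add]
      exact Real.exp_le_exp.2 hexp
    calc ((sm z T).card : ℝ) ≤ T / w ^ 2 +
          32 * (T * Real.exp (2 * u' + C' - u' * Real.log u')) := hsm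
      _ ≤ T * (v / w) + 32 * (T * (Real.exp (C' + 1) * Real.exp (2 * u - u * Real.log u))) := by
          gcongr
      _ = _ := by ring
  -- large prime factors
  have hTy : Real.log ((T / y : ℕ) : ℝ) ≤ 3 * v := by
    rcases Nat.eq_zero_or_pos (T / y) with h | h
    · rw [h]
      simp only [Nat.cast_zero, Real.log_zero]
      linarith
    · have h2 : ((T / y : ℕ) : ℝ) ≤ T / y := Nat.cast_div_le
      have h3 : (T : ℝ) / y ≤ w ^ 3 := by
        calc (T : ℝ) / y ≤ (L * w ^ 2) / (L / (4 * 13)) := by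
              have h5 := hTX.trans hXle
              gcongr
          _ = 52 * w ^ 2 := by
              field_simp
              norm_num
          _ ≤ w * w ^ 2 := by gcongr; linarith
          _ = w ^ 3 := by ring
      have h4 := Real.log_le_log (by exact_mod_cast h) (h2.trans h3)
      rw [Real.log_pow, ← hv] at h4
      push_cast at h4
      exact h4
  have hJ : ∑ j ∈ Icc 1 (T / y), (1 : ℝ) / j.totient ≤ 16 * v := by
    refine (sum_inv_totient_le _).trans ?_
    have h2 := harm_le hTy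
    linarith
  have hpart2 : (2 * Real.log 4 * T / Real.log y) *
      ∑ j ∈ Icc 1 (T / y), (1 : ℝ) / j.totient ≤ 89 * (T * (v / w)) := by
    have h1 := log_four_le
    calc (2 * Real.log 4 * T / Real.log y) * ∑ j ∈ Icc 1 (T / y), (1 : ℝ) / j.totient ≤
          (2 * (1387 / 1000) * T / (w / 2)) * (16 * v) := by gcongr
      _ = (64 * (1387 / 1000)) * (T * (v / w)) := by
          field_simp
          ring
      _ ≤ 89 * (T * (v / w)) := by
          apply mul_le_mul_of_nonneg_right (by norm_num)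
          positivity
  obtain ⟨K₁, hK₁⟩ : ∃ K₁, K₁ = (Icc 1 T).filter (fun k => ∃ l, l.Prime ∧ y < l ∧ l ∣ k) :=
    ⟨_, rfl⟩
  have h1 : (K₁.card : ℝ) ≤ 89 * (T * (v / w)) := by
    refine (large_card_le hy3 K₁ ?_).trans hpart2
    intro k hk
    rw [hK₁, mem_filter, mem_Icc] at hk
    exact ⟨hk.1.1, hk.1.2, hk.2⟩
  obtain ⟨PM, hPM⟩ : ∃ PM, PM = M.primeFactors.filter (fun p : ℕ => z < p ∧ (p : ℝ) ≤ y) :=
    ⟨_, rfl⟩
  have hsub : S₀ ⊆ (sm z T ∪ K₁) ∪ PM.biUnion (fun p => (Icc 1 T).filter (fun k => p ∣ k)) := by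
    intro k hk
    rw [hS₀, mem_filter, mem_Icc] at hk
    rw [mem_union, mem_union]
    by_cases h4 : ∃ l, l.Prime ∧ y < l ∧ l ∣ k
    · left
      right
      rw [hK₁, mem_filter, mem_Icc]
      exact ⟨hk.1, h4⟩
    by_cases h3 : ∃ p, p.Prime ∧ p ∣ M ∧ z < p ∧ p ∣ k
    · right
      obtain ⟨p, hp, hpM, hzp, hpk⟩ := h3
      have hpy : p ≤ y := by
        by_contra hcon
        exact h4 ⟨p, hp, not_le.1 hcon, hpk⟩
      rw [mem_biUnion]
      refine ⟨p, ?_, mem_filter.2 ⟨mem_Icc.2 hk.1, hpk⟩⟩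
      rw [hPM, mem_filter, Nat.mem_primeFactors]
      exact ⟨⟨hp, hpM, hM0.ne'⟩, hzp, by exact_mod_cast hpy⟩
    left
    left
    rw [mem_sm]
    refine ⟨hk.1.1, hk.1.2, ?_⟩
    intro l hl
    have hlp := Nat.prime_of_mem_primeFactors hl
    have hld := Nat.dvd_of_mem_primeFactors hl
    by_contra hlz
    have hlz' : z < l := by
      by_contra hcon
      exact hlz (mem_pr.2 ⟨hlp, not_lt.1 hcon⟩)
    have hly : l ≤ y := by
      by_contra hcon
      exact h4 ⟨l, hlp, not_le.1 hcon, hld⟩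
    have hlM : ¬ l ∣ M := fun h => h3 ⟨l, hlp, h, hlz', hld⟩
    refine hk.2 l ?_ hld
    rw [mem_filter, Finset.mem_sdiff]
    exact ⟨⟨mem_pr.2 ⟨hlp, hly⟩, hlz⟩, hlM⟩
  have h2 : ((PM.biUnion (fun p => (Icc 1 T).filter (fun k => p ∣ k))).card : ℝ) ≤
      T * SG M z y := by
    have h0 : ((PM.biUnion (fun p => (Icc 1 T).filter (fun k => p ∣ k))).card : ℝ) ≤
        ((∑ p ∈ PM, ((Icc 1 T).filter (fun k => p ∣ k)).card : ℕ) : ℝ) :=
      Nat.cast_le.2 Finset.card_biUnion_le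
    refine h0.trans ?_
    rw [Nat.cast_sum, SG, ← hPM, Finset.mul_sum]
    refine Finset.sum_le_sum fun p hp => ?_
    have h4 : ((Icc 1 T).filter (fun k => p ∣ k)).card = T / p := by
      have h5 := Nat.Ioc_filter_dvd_card_eq_div T p
      rw [← h5]
      rfl
    rw [h4, mul_one_div]
    exact Nat.cast_div_le
  have h5 : (S₀.card : ℝ) ≤ ((sm z T).card + K₁.card : ℕ) +
      ((PM.biUnion (fun p => (Icc 1 T).filter (fun k => p ∣ k))).card : ℝ) := by
    have h6 := (Finset.card_le_card hsub).trans (Finset.card_union_le _ _)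
    have h7 := Finset.card_union_le (sm z T) K₁
    exact_mod_cast h6.trans (Nat.add_le_add_right h7 _)
  push_cast at h5
  have hE0 : 0 < Real.exp (2 * u - u * Real.log u) := Real.exp_pos _
  have hC0 : 0 < Real.exp (C' + 1) := Real.exp_pos _
  have h8 : (S₀.card : ℝ) ≤ K * (T * s) := by
    have e1 : (S₀.card : ℝ) ≤ 90 * (T * (v / w)) +
        32 * Real.exp (C' + 1) * (T * Real.exp (2 * u - u * Real.log u)) + T * SG M z y := by
      linarith
    refine e1.trans ?_
    have e2 : 90 * (T * (v / w)) ≤ K * (T * (v / w)) := by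
      apply mul_le_mul_of_nonneg_right (by linarith) (by positivity)
    have e3 : 32 * Real.exp (C' + 1) * (T * Real.exp (2 * u - u * Real.log u)) ≤
        K * (T * Real.exp (2 * u - u * Real.log u)) := by
      apply mul_le_mul_of_nonneg_right _ (by positivity)
      rw [hK]
      linarith
    have e4 : T * SG M z y ≤ K * (T * SG M z y) :=
      le_mul_of_one_le_left (by positivity) (by linarith)
    have e5 : K * (T * (v / w)) + K * (T * Real.exp (2 * u - u * Real.log u)) +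
        K * (T * SG M z y) = K * (T * (Real.exp (2 * u - u * Real.log u) + v / w + SG M z y)) := by
      ring
    have e6 : K * (T * (Real.exp (2 * u - u * Real.log u) + v / w + SG M z y)) ≤ K * (T * s) := by
      gcongr
    linarith
  refine h8.trans ?_
  gcongr

end

end Pool.Agent.UNI
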