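import Mathlib
import Pool.Agent.UNI.EDU
import Pool.Agent.UNI.KVBU

set_option autoImplicit false

/-!
Intervals of length `2 exp L`, uniformly in the parameters.
-/

namespace Pool.Agent.UNI

open Pool.Agent.Lib_helper9.LG Pool.Agent.Lib_helper9.LG.THDd
open Finset

theorem thU : ∃ κ : ℝ, 60 ≤ κ ∧ ∃ L₀ : ℝ, ∀ L : ℝ, L₀ ≤ L → ∀ (A : ℕ) (t' : ℝ), 1 ≤ t' →
    κ * A ≤ Real.log L → κ * t' ≤ Real.log L → ∀ m : ℕ, 1 ≤ m →
    Real.log m + L ≤ A * L → ∀ V : ℝ, 0 ≤ V → V ≤ t' * ((m.totient : ℝ) / m) * L →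
    ∀ y : ℕ, Real.exp L < y → y ≤ m →
    1 / 4 * Real.exp (-(((A : ℝ) + 1) * Real.exp (κ * t'))) *
      (((m.totient : ℝ) / m) * (2 * Real.exp L)) ≤
      ((gc m y ⌊(y : ℝ) + 2 * Real.exp L⌋₊ V).card : ℝ) := by
  classical
  obtain ⟨κE, hκE, L₁, hED⟩ := edU
  obtain ⟨C, hC, L₂, hKVB⟩ := kvbU
  obtain ⟨C', hC'⟩ : ∃ C' : ℝ, C' = max C 1 := ⟨_, rfl⟩
  have hC'1 : 1 ≤ C' := by rw [hC']; exact le_max_right _ _
  have hC'C : C ≤ C' := by rw [hC']; exact le_max_left _ _
  refine ⟨κE * C', by nlinarith, max (max L₁ L₂) 200, ?_⟩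
  intro L hL A t' ht' hκA hκt m hm1 hmA V hV0 hVL y hyL hym
  have hLL1 : L₁ ≤ L := (le_max_left _ _).trans ((le_max_left _ _).trans hL)
  have hLL2 : L₂ ≤ L := (le_max_right _ _).trans ((le_max_left _ _).trans hL)
  have hL200 : 200 ≤ L := (le_max_right _ _).trans hL
  have hL0 : 0 < L := by linarith
  have hm0 : (0 : ℝ) < m := by exact_mod_cast hm1
  have hA0 : (0 : ℝ) ≤ A := Nat.cast_nonneg A
  have hκE0 : 0 < κE := by linarith
  have hC₀1 : 1 ≤ C' * t' := one_le_mul_of_one_le_of_one_le hC'1 ht'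
  have hκA' : κE * A ≤ Real.log L := by
    have h1 : κE * A ≤ κE * C' * A := by
      have h2 : κE ≤ κE * C' := le_mul_of_one_le_right hκE0.le hC'1
      exact mul_le_mul_of_nonneg_right h2 hA0
    exact h1.trans hκA
  have hκC' : κE * (C' * t') ≤ Real.log L := by
    rw [← mul_assoc]
    exact hκt
  obtain ⟨η, hη, hηκ, hη4, hED'⟩ := hED L hLL1 A (C' * t') hC₀1 hκA' hκC'
  obtain ⟨δ, hδd⟩ : ∃ δ : ℝ, δ = Real.exp (-(((A : ℝ) + 1) * Real.exp (κE * C' * t'))) := ⟨_, rfl⟩
  have hδ : 0 < δ := by rw [hδd]; exact Real.exp_pos _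
  have hlogL : Real.log L ≤ L := (Real.log_le_sub_one_of_pos hL0).trans (by linarith)
  have ht'L : t' ≤ L := by
    have h1 : t' ≤ κE * C' * t' := by
      apply le_mul_of_one_le_left (by linarith)
      nlinarith
    linarith
  have ht'0 : 0 < t' := by linarith
  have hlogm : Real.log m ≤ A * L := by linarith
  have hA4 : 4 * (A : ℝ) ≤ L := by
    have h1 : 60 * (A : ℝ) ≤ κE * A := mul_le_mul_of_nonneg_right hκE hA0
    linarith
  -- the modulus
  set z := ⌊Real.sqrt L⌋₊ with hz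
  have hsq14 : 14 ≤ Real.sqrt L := by
    apply Real.le_sqrt_of_sq_le
    linarith
  have hsqL : Real.sqrt L ≤ L := by
    have h5 : 1 * Real.sqrt L ≤ Real.sqrt L * Real.sqrt L :=
      mul_le_mul_of_nonneg_right (by linarith) (Real.sqrt_nonneg _)
    rw [Real.mul_self_sqrt hL0.le] at h5
    linarith
  have hzle : (z : ℝ) ≤ Real.sqrt L := Nat.floor_le (Real.sqrt_nonneg _)
  set W := WW m L with hW
  have hW1 : 1 ≤ W := WW_pos m L
  have hW1' : (1 : ℝ) ≤ W := by exact_mod_cast hW1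
  have hW0 : (0 : ℝ) < W := by linarith
  have hWle : (W : ℝ) ≤ 4 ^ z := by exact_mod_cast WW_le m L
  have hlog4 : Real.log 4 < 1.4 := by
    have h1 : Real.log 4 = 2 * Real.log 2 := by
      rw [show (4 : ℝ) = 2 ^ 2 by norm_num, Real.log_pow]
      norm_num
    have := Real.log_two_lt_d9
    rw [h1]
    linarith
  have hW8 : (W : ℝ) ^ 8 ≤ Real.exp L := by
    have h1 : (W : ℝ) ^ 8 ≤ ((4 : ℝ) ^ z) ^ 8 := pow_le_pow_left₀ (by linarith) hWle 8
    have h2 : ((4 : ℝ) ^ z) ^ 8 = Real.exp (Real.log 4 * (z * 8 : ℕ)) := by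
      rw [← pow_mul, ← Real.rpow_natCast, Real.rpow_def_of_pos (by norm_num)]
    rw [h2] at h1
    refine h1.trans ?_
    apply Real.exp_le_exp.2
    push_cast
    have h3 : Real.log 4 * ((z : ℝ) * 8) ≤ 1.4 * (Real.sqrt L * 8) := by
      apply mul_le_mul hlog4.le (by linarith) (by positivity) (by norm_num)
    have h5 : 14 * Real.sqrt L ≤ Real.sqrt L * Real.sqrt L :=
      mul_le_mul_of_nonneg_right hsq14 (Real.sqrt_nonneg _)
    rw [Real.mul_self_sqrt hL0.le] at h5
    linarith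
  have hWX : (W : ℝ) ≤ Real.exp L := by
    refine le_trans ?_ hW8
    exact le_self_pow₀ hW1' (by norm_num)
  have hWm : W.Coprime m := WW_coprime m L
  have hWp : ∀ p : ℕ, p.Prime → p ∣ W → (p : ℝ) ≤ L ^ 4 := by
    intro p hp hd
    have h1 := (dvd_WW hp hd).1
    have h2 : (p : ℝ) ≤ z := by exact_mod_cast h1
    have h4 : L ≤ L ^ 4 := le_self_pow₀ (by linarith) (by norm_num)
    linarith
  -- the number of sites
  set ρ : ℝ := (m.totient : ℝ) / m with hρ
  have hρ0 : 0 ≤ ρ := by positivity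
  have hρ1 : ρ ≤ 1 := by
    rw [hρ, div_le_one hm0]
    exact_mod_cast Nat.totient_le m
  have hVL2 : V ≤ L ^ 2 := by
    refine hVL.trans ?_
    have h1 : t' * ρ ≤ L := by
      have h2 : t' * ρ ≤ t' * 1 := mul_le_mul_of_nonneg_left hρ1 ht'0.le
      linarith
    calc t' * ρ * L ≤ L * L := mul_le_mul_of_nonneg_right h1 hL0.le
      _ = L ^ 2 := by ring
  set K := ⌊V⌋₊ + 1 with hK
  have hKV : (K : ℝ) ≤ t' * ρ * L + 1 := by
    rw [hK]
    push_cast
    have := Nat.floor_le hV0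
    linarith
  have hkvb := hKVB L hLL2 t' η ht' hη hη4 A hA4 m hm1 hlogm K hKV
  set n := ⌊Real.exp L / W⌋₊ with hn
  set R := (range W).filter (fun b =>
    (((range K).filter (fun k => (b + k * m).Coprime W)).card : ℝ) ≤
      2 * K * ((W.totient : ℝ) / W)) with hR
  have hRcard : (W : ℝ) ≤ 2 * (R.card : ℝ) := pigd m W K hW1 hWm
  set Sr : ℕ → Finset ℕ := fun r => (range K).filter (fun k => (r + k * m).Coprime W) with hSr
  have hSk : ∀ r, ∀ k ∈ Sr r, (k : ℝ) ≤ L ^ 2 := by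
    intro r k hk
    have h1 : k < K := mem_range.1 (mem_filter.1 hk).1
    have h2 : k ≤ ⌊V⌋₊ := by omega
    have h3 : (k : ℝ) ≤ V := (Nat.cast_le.2 h2).trans (Nat.floor_le hV0)
    linarith
  have hScard : ∀ r ∈ R, ((Sr r).card : ℝ) * VS (SPr m L (Real.exp (η * L))) 1 ≤
      C' * t' / η := by
    intro r hr
    have h4 := (mem_filter.1 hr).2
    refine ((mul_le_mul_of_nonneg_right h4 (THDd.VS_nonneg m L _)).trans hkvb).trans ?_
    apply div_le_div_of_nonneg_right _ hη.le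
    exact mul_le_mul_of_nonneg_right hC'C ht'0.le
  have hzy : (z : ℝ) < y := by
    have h1 : L ≤ Real.exp L := by
      have := Real.add_one_le_exp L
      linarith
    linarith
  have hym' : (y : ℝ) ≤ m := by exact_mod_cast hym
  have hbA : ∀ r, ((fst W y r : ℕ) : ℝ) + Real.exp L ≤ Real.exp (A * L) := by
    intro r
    have h4 : ((fst W y r : ℕ) : ℝ) ≤ y + W := by exact_mod_cast (fst_lt hW1).le
    have h6 : (m : ℝ) * Real.exp L ≤ Real.exp (A * L) := by
      calc (m : ℝ) * Real.exp L = Real.exp (Real.log m + L) := by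
            rw [Real.exp_add, Real.exp_log hm0]
        _ ≤ _ := Real.exp_le_exp.2 hmA
    have h8 : (3 : ℝ) ≤ Real.exp L := by
      have := Real.add_one_le_exp L
      linarith
    have h9 : Real.exp L ≤ m := by
      linarith
    have h10 : (W : ℝ) ≤ m := by
      linarith
    have h11 : (3 : ℝ) * m ≤ m * Real.exp L := by nlinarith
    linarith
  have ha : ∀ r ∈ R, δ * (Real.exp L / W * ρ) ≤
      ((gx m W (fst W y r) n L (Sr r)).card : ℝ) := by
    intro r hr
    have hy1 : 1 ≤ y := by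
      have h4 : (0 : ℝ) < y := (Real.exp_pos L).trans hyL
      exact_mod_cast h4
    have h5 := hED' m W (fst W y r) hm1 hlogm hW1 (hy1.trans le_fst) hW8 hWm hWp (Sr r) (hSk r)
      (hScard r hr)
      (hbA r)
    rw [hδd, mul_assoc κE C' t']
    exact h5
  have hsub : ∀ r ∈ R, ∀ x ∈ gx m W (fst W y r) n L (Sr r), fst W y r + W * x ∈
      gc m y ⌊(y : ℝ) + 2 * Real.exp L⌋₊ V := by
    intro r hr x hx
    rw [gx, mem_filter, mem_range] at hx
    obtain ⟨hxn, hcop, hsites⟩ := hx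
    rw [gc, mem_filter, mem_Icc]
    have hyb : y ≤ fst W y r := le_fst
    refine ⟨⟨by omega, ?_⟩, hcop, ?_⟩
    · apply Nat.le_floor
      have h4 : ((fst W y r : ℕ) : ℝ) ≤ y + W := by exact_mod_cast (fst_lt hW1).le
      have h5 : (x : ℝ) ≤ Real.exp L / W := by
        have h6 : (x : ℝ) ≤ n := by exact_mod_cast hxn.le
        exact h6.trans (Nat.floor_le (by positivity))
      have h7 : (W : ℝ) * x ≤ Real.exp L := by
        calc (W : ℝ) * x ≤ W * (Real.exp L / W) := mul_le_mul_of_nonneg_left h5 hW0.le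
          _ = Real.exp L := by field_simp
      push_cast
      linarith
    · intro k hk hprime
      have hkK : k < K := by
        have : k ≤ ⌊V⌋₊ := Nat.le_floor hk
        omega
      by_cases hc : (r + k * m).Coprime W
      · obtain ⟨l, hl, -, hl2, hl3⟩ := hsites k (mem_filter.2 ⟨mem_range.2 hkK, hc⟩)
        have h4 := (Nat.prime_dvd_prime_iff_eq hl hprime).1 hl3
        have h5 : y ≤ l := by
          rw [h4]
          omega
        have h6 : (y : ℝ) ≤ l := by exact_mod_cast h5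
        have h7 : Real.exp (L / 100) ≤ Real.exp L := Real.exp_le_exp.2 (by linarith)
        linarith
      · obtain ⟨p, hp, hp1, hp2⟩ := Nat.Prime.not_coprime_iff_dvd.1 hc
        have h4 : fst W y r + W * x + k * m ≡ r + k * m [MOD p] := by
          apply Nat.ModEq.add_right
          have h5 : fst W y r + W * x ≡ r + 0 [MOD W] :=
            Nat.ModEq.add (fst_mod hW1) (Nat.modEq_zero_iff_dvd.2 (dvd_mul_right _ _))
          exact h5.of_dvd hp2
        have h6 : p ∣ fst W y r + W * x + k * m := (h4.dvd_iff dvd_rfl).2 hp1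
        have h7 := (Nat.prime_dvd_prime_iff_eq hp hprime).1 h6
        have h8 := (dvd_WW hp hp2).1
        have h9 : y ≤ z := by omega
        have h10 : (y : ℝ) ≤ z := by exact_mod_cast h9
        linarith
  have hcount := count (gc m y ⌊(y : ℝ) + 2 * Real.exp L⌋₊ V) R W y hW1
    (fun r => gx m W (fst W y r) n L (Sr r)) (δ * (Real.exp L / W * ρ))
    (fun r hr => mem_range.1 (mem_filter.1 hr).1) hsub ha
  refine le_trans ?_ hcount
  have h4 : (W : ℝ) / 2 * (δ * (Real.exp L / W * ρ)) ≤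
      (R.card : ℝ) * (δ * (Real.exp L / W * ρ)) :=
    mul_le_mul_of_nonneg_right (by linarith) (by positivity)
  refine le_trans (le_of_eq ?_) h4
  rw [← hδd]
  field_simp
  ring

end Pool.Agent.UNI
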