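import Mathlib
import Pool.Agent.UNI.THU
import Pool.Agent.Lib_helper9.LG.FinA

set_option autoImplicit false

/-!
Uniform large deviations for the least primes of the classes modulo every large modulus.
-/

namespace Pool.Agent.UNI

open Pool.Agent.Lib_helper9.LG
open Finset Filter

noncomputable section

/-- The conditions on `m`. -/
theorem m_large (L₀ : ℝ) : ∃ m₀ : ℕ, ∀ m : ℕ, m₀ ≤ m → 1 ≤ m ∧ 1 ≤ Real.log (Real.log m) ∧
    4 * Real.log (Real.log m) ≤ Real.sqrt (Real.log m) ∧ L₀ ≤ Real.sqrt (Real.log m) ∧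
    10 ≤ Real.sqrt (Real.log m) := by
  have h1 := Real.isLittleO_log_id_atTop
  have h2 := h1.def (c := 1 / 8) (by norm_num)
  have h3 : ∀ᶠ x : ℝ in atTop, Real.log x ≤ x / 8 := by
    filter_upwards [h2, eventually_ge_atTop (1 : ℝ)] with x hx hx1
    rw [Real.norm_eq_abs, abs_of_nonneg (Real.log_nonneg hx1), id, Real.norm_eq_abs,
      abs_of_nonneg (by linarith)] at hx
    linarith
  have t1 : Tendsto (fun m : ℕ => Real.log (m : ℝ)) atTop atTop :=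
    Real.tendsto_log_atTop.comp tendsto_natCast_atTop_atTop
  have t2 : Tendsto (fun m : ℕ => Real.log (Real.log (m : ℝ))) atTop atTop :=
    Real.tendsto_log_atTop.comp t1
  have t3 : Tendsto (fun m : ℕ => Real.sqrt (Real.log (m : ℝ))) atTop atTop :=
    Real.tendsto_sqrt_atTop.comp t1
  have h4 := t3.eventually h3
  obtain ⟨m₀, hm₀⟩ := (((eventually_ge_atTop 1).and (t2.eventually_ge_atTop 1)).and
    (h4.and ((t3.eventually_ge_atTop L₀).and (t3.eventually_ge_atTop 10)))).exists_forall_of_atTop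
  refine ⟨m₀, fun m hm => ?_⟩
  obtain ⟨⟨g1, g2⟩, g3, g4, g5⟩ := hm₀ m hm
  refine ⟨g1, g2, ?_, g4, g5⟩
  have hl : 0 ≤ Real.log m := Real.log_nonneg (by exact_mod_cast g1)
  rw [Real.log_sqrt hl] at g3
  linarith

open Classical in
theorem finU : ∃ c C : ℝ, 0 < c ∧ 0 < C ∧ c * C ≤ 1 / 2 ∧ ∃ m₀ : ℕ, ∀ m : ℕ, m₀ ≤ m →
    ∀ y x : ℕ, y + x ≤ m → ∀ t : ℝ, 1 ≤ t →
      t * Real.log m ≤ c * Real.log x * Real.log (Real.log m) →
      Real.exp (-Real.exp (C * (t * Real.log m / Real.log x))) * ((m.totient : ℝ) / m * x) ≤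
        (((Ico y (y + x)).filter (fun a => a.Coprime m ∧
          ∀ q : ℕ, q.Prime → q ≡ a [MOD m] → t * m.totient * Real.log m < q)).card : ℝ) := by
  classical
  obtain ⟨κ, hκ, L₀, hTH⟩ := thU
  have hκ0 : 0 < κ := by linarith
  refine ⟨1 / (20 * κ + 20), 4 * κ + 10, by positivity, by positivity, ?_, ?_⟩
  · rw [div_mul_eq_mul_div, div_le_div_iff₀ (by positivity) (by norm_num)]
    linarith
  obtain ⟨m₀, hm₀⟩ := m_large L₀
  refine ⟨m₀, fun m hm y x hyx t ht hcond => ?_⟩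
  obtain ⟨hm1, hl2, hl4, hlL, hl10⟩ := hm₀ m hm
  have hm0 : (0 : ℝ) < m := by exact_mod_cast hm1
  obtain ⟨ℓ, hℓ⟩ : ∃ ℓ : ℝ, ℓ = Real.log m := ⟨_, rfl⟩
  obtain ⟨ℓ₂, hℓ₂⟩ : ∃ ℓ₂ : ℝ, ℓ₂ = Real.log ℓ := ⟨_, rfl⟩
  rw [← hℓ] at hl2 hl4 hlL hl10 hcond
  rw [← hℓ₂] at hl2 hl4 hcond
  have hℓ0 : 0 < ℓ := by
    by_contra hcon
    push Not at hcon
    rw [Real.sqrt_eq_zero_of_nonpos hcon] at hl10
    linarith
  obtain ⟨lx, hlx⟩ : ∃ lx : ℝ, lx = Real.log x := ⟨_, rfl⟩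
  rw [← hlx] at hcond
  have hss : Real.sqrt ℓ * Real.sqrt ℓ = ℓ := Real.mul_self_sqrt hℓ0.le
  have ht0 : 0 < t := by linarith
  have hℓ₂0 : 0 < ℓ₂ := by linarith
  have hc0 : (0 : ℝ) < 1 / (20 * κ + 20) := by positivity
  have hc1 : 1 / (20 * κ + 20) ≤ (1 : ℝ) := by
    rw [div_le_one (by positivity)]
    linarith
  -- `log x` is positive and large
  have hlx0 : 0 < lx := by
    by_contra hcon
    push Not at hcon
    have h1 : 1 / (20 * κ + 20) * lx * ℓ₂ ≤ 0 := by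
      have h2 : 1 / (20 * κ + 20) * lx ≤ 0 := mul_nonpos_of_nonneg_of_nonpos hc0.le hcon
      exact mul_nonpos_of_nonpos_of_nonneg h2 hℓ₂0.le
    have h2 : 0 < t * ℓ := by positivity
    linarith
  have hℓlx : ℓ ≤ lx * ℓ₂ := by
    have h1 : ℓ ≤ t * ℓ := le_mul_of_one_le_left hℓ0.le ht
    have h2 : 1 / (20 * κ + 20) * lx * ℓ₂ ≤ 1 * (lx * ℓ₂) := by
      rw [mul_assoc]
      exact mul_le_mul_of_nonneg_right hc1 (by positivity)
    linarith
  have hlx4 : 4 * Real.sqrt ℓ ≤ lx := by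
    have h1 : (4 * Real.sqrt ℓ) * ℓ₂ ≤ lx * ℓ₂ := by
      refine le_trans ?_ hℓlx
      calc (4 * Real.sqrt ℓ) * ℓ₂ = Real.sqrt ℓ * (4 * ℓ₂) := by ring
        _ ≤ Real.sqrt ℓ * Real.sqrt ℓ := mul_le_mul_of_nonneg_left hl4 (Real.sqrt_nonneg _)
        _ = ℓ := hss
    exact le_of_mul_le_mul_right h1 hℓ₂0
  have hlx40 : 40 ≤ lx := by linarith
  have hx0 : (0 : ℝ) < x := by
    rcases Nat.eq_zero_or_pos x with h | h
    · rw [h, Nat.cast_zero, Real.log_zero] at hlx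
      linarith
    · exact_mod_cast h
  have hxm : x ≤ m := by omega
  have hlxℓ : lx ≤ ℓ := by
    rw [hlx, hℓ]
    exact Real.log_le_log hx0 (by exact_mod_cast hxm)
  have hxexp : (x : ℝ) = Real.exp lx := by rw [hlx, Real.exp_log hx0]
  -- the parameters
  obtain ⟨Λ, hΛ⟩ : ∃ Λ : ℝ, Λ = t * ℓ / lx := ⟨_, rfl⟩
  have hΛ0 : ℓ / lx ≤ Λ := by
    rw [hΛ]
    exact div_le_div_of_nonneg_right (le_mul_of_one_le_left hℓ0.le ht) hlx0.le
  have hΛ1 : 1 ≤ Λ := by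
    refine le_trans ?_ hΛ0
    rw [le_div_iff₀ hlx0]
    linarith
  have hΛc : Λ ≤ 1 / (20 * κ + 20) * ℓ₂ := by
    rw [hΛ, div_le_iff₀ hlx0]
    refine hcond.trans (le_of_eq ?_)
    ring
  obtain ⟨u, hu⟩ : ∃ u : ℝ, u = Real.sqrt x := ⟨_, rfl⟩
  have huu : u * u = x := by rw [hu]; exact Real.mul_self_sqrt hx0.le
  have hu0 : 0 < u := by rw [hu]; exact Real.sqrt_pos.2 hx0
  obtain ⟨L, hL⟩ : ∃ L : ℝ, L = Real.log (u / 2) := ⟨_, rfl⟩
  have hexpL : Real.exp L = u / 2 := by rw [hL, Real.exp_log (by positivity)]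
  have h2expL : 2 * Real.exp L = u := by rw [hexpL]; ring
  have hLlx : L = lx / 2 - Real.log 2 := by
    rw [hL, Real.log_div hu0.ne' (by norm_num), hu, Real.log_sqrt hx0.le, ← hlx]
  have hlog2 : Real.log 2 < 1 := by
    have := Real.log_two_lt_d9
    linarith
  have hL4 : lx / 4 ≤ L := by
    rw [hLlx]
    linarith
  have hLs : Real.sqrt ℓ ≤ L := by linarith
  have hLL0 : L₀ ≤ L := hlL.trans hLs
  have hL10 : 10 ≤ L := by linarith
  have hL0 : 0 < L := by linarith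
  have hlogL : ℓ₂ / 2 ≤ Real.log L := by
    have h1 : Real.log (Real.sqrt ℓ) ≤ Real.log L :=
      Real.log_le_log (Real.sqrt_pos.2 hℓ0) hLs
    rw [Real.log_sqrt hℓ0.le, ← hℓ₂] at h1
    exact h1
  have hu8 : 8 ≤ u := by
    have h1 := Real.add_one_le_exp L
    rw [hexpL] at h1
    linarith
  obtain ⟨A, hA⟩ : ∃ A : ℕ, A = ⌈4 * ℓ / lx⌉₊ + 1 := ⟨_, rfl⟩
  have hA1 : 4 * ℓ / lx + 1 ≤ A := by
    rw [hA]
    push_cast
    have := Nat.le_ceil (4 * ℓ / lx)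
    linarith
  have hA2 : (A : ℝ) ≤ 6 * Λ := by
    have h1 : (⌈4 * ℓ / lx⌉₊ : ℝ) < 4 * ℓ / lx + 1 := Nat.ceil_lt_add_one (by positivity)
    have h2 : 4 * ℓ / lx = 4 * (ℓ / lx) := by ring
    rw [hA]
    push_cast
    linarith
  have hκc : κ * (6 * Λ) ≤ ℓ₂ / 2 := by
    have h1 : κ * (6 * Λ) ≤ κ * (6 * (1 / (20 * κ + 20) * ℓ₂)) := by gcongr
    refine h1.trans ?_
    have h2 : κ * (6 * (1 / (20 * κ + 20) * ℓ₂)) = (6 * κ / (20 * κ + 20)) * ℓ₂ := by ring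
    have h3 : 6 * κ / (20 * κ + 20) ≤ 1 / 2 := by
      rw [div_le_div_iff₀ (by positivity) (by norm_num)]
      linarith
    rw [h2]
    have h4 : 6 * κ / (20 * κ + 20) * ℓ₂ ≤ 1 / 2 * ℓ₂ := mul_le_mul_of_nonneg_right h3 hℓ₂0.le
    linarith
  have hκA : κ * A ≤ Real.log L := by
    have h1 : κ * A ≤ κ * (6 * Λ) := mul_le_mul_of_nonneg_left hA2 hκ0.le
    linarith
  have hκt : κ * (4 * Λ) ≤ Real.log L := by
    have h1 : κ * (4 * Λ) ≤ κ * (6 * Λ) := mul_le_mul_of_nonneg_left (by linarith) hκ0.le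
    linarith
  have hmA : Real.log m + L ≤ A * L := by
    rw [← hℓ]
    have h1 : (4 * ℓ / lx + 1) * L ≤ A * L := mul_le_mul_of_nonneg_right hA1 hL0.le
    have h2 : ℓ ≤ 4 * ℓ / lx * L := by
      calc ℓ = 4 * ℓ / lx * (lx / 4) := by field_simp
        _ ≤ _ := mul_le_mul_of_nonneg_left hL4 (by positivity)
    linarith
  obtain ⟨ρ, hρ⟩ : ∃ ρ : ℝ, ρ = (m.totient : ℝ) / m := ⟨_, rfl⟩
  have hρ0 : 0 ≤ ρ := by rw [hρ]; positivity
  obtain ⟨V, hV⟩ : ∃ V : ℝ, V = t * ρ * ℓ := ⟨_, rfl⟩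
  have hV0 : 0 ≤ V := by rw [hV]; positivity
  have hVL : V ≤ (4 * Λ) * ((m.totient : ℝ) / m) * L := by
    rw [← hρ, hV, hΛ]
    have h2 : t * ℓ ≤ 4 * (t * ℓ / lx) * L := by
      calc t * ℓ = 4 * (t * ℓ / lx) * (lx / 4) := by field_simp
        _ ≤ _ := mul_le_mul_of_nonneg_left hL4 (by positivity)
    calc t * ρ * ℓ = (t * ℓ) * ρ := by ring
      _ ≤ (4 * (t * ℓ / lx) * L) * ρ := mul_le_mul_of_nonneg_right h2 hρ0
      _ = _ := by ring
  have hTH' := hTH L hLL0 A (4 * Λ) (by linarith) hκA hκt m hm1 hmA V hV0 hVL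
  obtain ⟨δ, hδ⟩ : ∃ δ : ℝ, δ = 1 / 4 * Real.exp (-(((A : ℝ) + 1) * Real.exp (κ * (4 * Λ)))) :=
    ⟨_, rfl⟩
  have hδ0 : 0 < δ := by rw [hδ]; positivity
  rw [← hδ, ← hρ, h2expL, hexpL] at hTH'
  -- the windows
  obtain ⟨T, hT⟩ : ∃ T : ℕ, T = ⌊u⌋₊ + 1 := ⟨_, rfl⟩
  have hTu : u < T := by
    rw [hT]
    push_cast
    exact Nat.lt_floor_add_one u
  have hTu2 : (T : ℝ) ≤ u + 1 := by
    rw [hT]
    push_cast
    have := Nat.floor_le (show 0 ≤ u by linarith)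
    linarith
  have hT0 : 0 < T := by omega
  obtain ⟨J, hJ⟩ : ∃ J : ℕ, J = x / T - 1 := ⟨_, rfl⟩
  have hin : ∀ j < J, (j + 2) * T ≤ x := by
    intro j hj
    have h1 : j + 2 ≤ x / T := by omega
    calc (j + 2) * T ≤ x / T * T := Nat.mul_le_mul_right _ h1
      _ ≤ x := Nat.div_mul_le_self _ _
  obtain ⟨G, hG⟩ : ∃ G : ℕ → Finset ℕ,
    G = fun j => gc m (y + (j + 1) * T) ⌊((y + (j + 1) * T : ℕ) : ℝ) + u⌋₊ V := ⟨_, rfl⟩
  have hmemG : ∀ j a, a ∈ G j → y + (j + 1) * T ≤ a ∧ a < y + (j + 2) * T ∧ a.Coprime m ∧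
      ∀ k : ℕ, (k : ℝ) ≤ V → ¬ (a + k * m).Prime := by
    intro j a ha
    rw [hG] at ha
    simp only [gc, mem_filter, mem_Icc] at ha
    obtain ⟨⟨h1, h2⟩, h3, h4⟩ := ha
    refine ⟨h1, ?_, h3, h4⟩
    have h5 : (a : ℝ) ≤ ((y + (j + 1) * T : ℕ) : ℝ) + u :=
      (Nat.le_floor_iff (by positivity)).1 h2
    have h6 : (a : ℝ) < ((y + (j + 2) * T : ℕ) : ℝ) := by
      refine lt_of_le_of_lt h5 ?_
      push_cast
      linarith
    exact_mod_cast h6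
  have hwin : ∀ j < J, δ * (ρ * u) ≤ ((G j).card : ℝ) := by
    intro j hj
    have h2 := hin j hj
    rw [hG]
    apply hTH'
    · push_cast
      have h3 : (0 : ℝ) ≤ j := Nat.cast_nonneg j
      have h4 : (0 : ℝ) ≤ y := Nat.cast_nonneg y
      nlinarith
    · have h3 : (j + 1) * T ≤ (j + 2) * T := Nat.mul_le_mul_right _ (by omega)
      omega
  have hdisj : ∀ i ∈ range J, ∀ j ∈ range J, i ≠ j → Disjoint (G i) (G j) := by
    intro i _ j _ hne
    rw [Finset.disjoint_left]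
    intro a h1 h2
    obtain ⟨g1, g2, -⟩ := hmemG i a h1
    obtain ⟨g3, g4, -⟩ := hmemG j a h2
    rcases Nat.lt_or_gt_of_ne hne with h | h
    · have : (i + 2) * T ≤ (j + 1) * T := Nat.mul_le_mul_right _ (by omega)
      omega
    · have : (j + 2) * T ≤ (i + 1) * T := Nat.mul_le_mul_right _ (by omega)
      omega
  obtain ⟨F, hF⟩ : ∃ F : Finset ℕ, F = (Ico y (y + x)).filter (fun a => a.Coprime m ∧
      ∀ q : ℕ, q.Prime → q ≡ a [MOD m] → t * m.totient * Real.log m < q) := ⟨_, rfl⟩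
  have hcard : ∑ j ∈ range J, (G j).card ≤ F.card := by
    rw [← card_biUnion hdisj]
    apply card_le_card
    intro a ha
    rw [mem_biUnion] at ha
    obtain ⟨j, hj, ha⟩ := ha
    obtain ⟨g1, g2, g3, g4⟩ := hmemG j a ha
    have g5 := hin j (mem_range.1 hj)
    rw [hF, mem_filter, mem_Ico]
    refine ⟨⟨?_, ?_⟩, g3, ?_⟩
    · have := Nat.zero_le ((j + 1) * T)
      omega
    · omega
    · intro q hq hqa
      have ham : a < m := by omega
      have h1 := prime_gt hm1 ham g4 hq hqa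
      refine lt_of_le_of_lt (le_of_eq ?_) h1
      rw [hV, hρ, ← hℓ]
      field_simp
  have hcard' : (J : ℝ) * (δ * (ρ * u)) ≤ (F.card : ℝ) := by
    calc (J : ℝ) * (δ * (ρ * u)) = ∑ _j ∈ range J, δ * (ρ * u) := by
          rw [Finset.sum_const, card_range, nsmul_eq_mul]
      _ ≤ ∑ j ∈ range J, ((G j).card : ℝ) :=
          Finset.sum_le_sum fun j hj => hwin j (mem_range.1 hj)
      _ ≤ _ := by exact_mod_cast hcard
  rw [← hF]
  refine le_trans ?_ hcard'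
  -- the number of windows
  have hJ1 : ((x / T : ℕ) : ℝ) - 1 ≤ J := by
    have : x / T ≤ J + 1 := by omega
    have h2 : ((x / T : ℕ) : ℝ) ≤ (J : ℝ) + 1 := by exact_mod_cast this
    linarith
  have hT0r : (0 : ℝ) < T := by exact_mod_cast hT0
  have hJ2 : (x : ℝ) / T - 1 ≤ ((x / T : ℕ) : ℝ) := by
    have h1 := Nat.lt_div_mul_add hT0 (a := x)
    have h2 : (x : ℝ) < ((x / T : ℕ) : ℝ) * T + T := by exact_mod_cast h1
    rw [sub_le_iff_le_add, div_le_iff₀ hT0r]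
    linarith
  have h6 : (x : ℝ) / 2 ≤ J * u := by
    have h5 : 8 / 9 * (x : ℝ) ≤ (x : ℝ) / T * u := by
      have h7 : 8 / 9 * (T : ℝ) ≤ u := by linarith
      calc 8 / 9 * (x : ℝ) = (x : ℝ) / T * (8 / 9 * T) := by
            field_simp
        _ ≤ (x : ℝ) / T * u := by gcongr
    have h7 : (x : ℝ) / T - 2 ≤ J := by linarith
    have h8 : ((x : ℝ) / T - 2) * u ≤ J * u := by gcongr
    have h9 : 8 * u ≤ x := by nlinarith
    linarith
  -- the constant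
  have hconst : Real.exp (-Real.exp ((4 * κ + 10) * Λ)) ≤ δ / 2 := by
    have h8 : (8 : ℝ) ≤ Real.exp 3 := by
      have e1 : (2 : ℝ) ≤ Real.exp 1 := by
        have := Real.add_one_le_exp (1 : ℝ)
        linarith
      calc (8 : ℝ) = 2 ^ 3 := by norm_num
        _ ≤ Real.exp 1 ^ 3 := pow_le_pow_left₀ (by norm_num) e1 3
        _ = Real.exp 3 := by
            rw [← Real.exp_nat_mul]
            norm_num
    have e8 : Real.exp (-3) ≤ 1 / 8 := by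
      rw [Real.exp_neg, ← one_div]
      exact one_div_le_one_div_of_le (by norm_num) h8
    have key : ((A : ℝ) + 1) * Real.exp (κ * (4 * Λ)) + 3 ≤ Real.exp ((4 * κ + 10) * Λ) := by
      obtain ⟨Z, hZ⟩ : ∃ Z : ℝ, Z = Real.exp (κ * (4 * Λ)) := ⟨_, rfl⟩
      have hZ1 : 1 ≤ Z := by rw [hZ]; exact Real.one_le_exp (by positivity)
      have e1 : Real.exp ((4 * κ + 10) * Λ) = Z * Real.exp (10 * Λ) := by
        rw [hZ, ← Real.exp_add]
        congr 1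
        ring
      have e2 := Real.add_one_le_exp (10 * Λ)
      rw [e1, ← hZ]
      have e3 : ((A : ℝ) + 1) * Z ≤ (6 * Λ + 1) * Z :=
        mul_le_mul_of_nonneg_right (by linarith) (by linarith)
      have e4 : Z * (10 * Λ + 1) ≤ Z * Real.exp (10 * Λ) :=
        mul_le_mul_of_nonneg_left e2 (by linarith)
      have e5 : 3 ≤ Z * (4 * Λ) := by nlinarith
      linarith
    rw [hδ]
    calc Real.exp (-Real.exp ((4 * κ + 10) * Λ)) ≤
          Real.exp (-(((A : ℝ) + 1) * Real.exp (κ * (4 * Λ))) + (-3)) :=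
          Real.exp_le_exp.2 (by linarith)
      _ = Real.exp (-(((A : ℝ) + 1) * Real.exp (κ * (4 * Λ)))) * Real.exp (-3) := Real.exp_add _ _
      _ ≤ Real.exp (-(((A : ℝ) + 1) * Real.exp (κ * (4 * Λ)))) * (1 / 8) :=
          mul_le_mul_of_nonneg_left e8 (Real.exp_nonneg _)
      _ = _ := by ring
  rw [← hℓ, ← hlx, ← hΛ, ← hρ]
  calc Real.exp (-Real.exp ((4 * κ + 10) * Λ)) * (ρ * x) ≤ δ / 2 * (ρ * x) :=
        mul_le_mul_of_nonneg_right hconst (by positivity)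
    _ = δ * ρ * (x / 2) := by ring
    _ ≤ δ * ρ * (J * u) := by gcongr
    _ = _ := by ring

end

end Pool.Agent.UNI
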